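import Pool.Agent.K9h18.FG.Cv2

set_option autoImplicit false
set_option linter.unusedSectionVars false
set_option linter.unusedVariables false

namespace Pool.Agent.K9h18.FG

open Function Finset
open scoped Pointwise

section Idx

variable {Γ : Type} [Group Γ]

lemma pow_sub_pow [DecidableEq Γ] (B : Finset Γ) (h1 : (1 : Γ) ∈ B) {m n : ℕ} (h : m ≤ n) :
    B ^ m ⊆ B ^ n := Finset.pow_subset_pow_right h1 h

/-- balls for the even steps -/
lemma growth_even [DecidableEq Γ] (S : Finset Γ) (hS : ∀ s ∈ S, s⁻¹ ∈ S) (hne : S.Nonempty)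
    (n : ℕ) : ((insert 1 S : Finset Γ) ^ n).card ≤
      2 * ((insert 1 (S⁻¹ * S) : Finset Γ) ^ n).card := by
  obtain ⟨s0, hs0⟩ := hne
  set B2 := (insert 1 (S⁻¹ * S) : Finset Γ) with hB2
  have h1 : (1 : Γ) ∈ B2 := Finset.mem_insert_self _ _
  have key : ∀ n, ∀ x ∈ (insert 1 S : Finset Γ) ^ n, x ∈ B2 ^ n ∨ x * s0 ∈ B2 ^ n := by
    intro n
    induction n with
    | zero =>
      intro x hx
      left
      simpa using hx
    | succ n ih =>
      intro x hx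
      rw [pow_succ, Finset.mem_mul] at hx
      obtain ⟨x', hx', s, hs, rfl⟩ := hx
      rcases Finset.mem_insert.1 hs with h0 | h0
      · rw [h0, mul_one]
        rcases ih x' hx' with h2 | h2
        · exact Or.inl (pow_sub_pow B2 h1 (Nat.le_succ n) h2)
        · exact Or.inr (pow_sub_pow B2 h1 (Nat.le_succ n) h2)
      · rcases ih x' hx' with h2 | h2
        · right
          rw [mul_assoc, pow_succ]
          refine Finset.mul_mem_mul h2 (Finset.mem_insert_of_mem ?_)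
          refine Finset.mul_mem_mul ?_ hs0
          rw [Finset.mem_inv']
          exact hS s h0
        · left
          have : x' * s = (x' * s0) * (s0⁻¹ * s) := by group
          rw [this, pow_succ]
          refine Finset.mul_mem_mul h2 (Finset.mem_insert_of_mem ?_)
          refine Finset.mul_mem_mul ?_ h0
          rw [Finset.mem_inv', inv_inv]
          exact hs0
  have hsub : (insert 1 S : Finset Γ) ^ n ⊆ B2 ^ n ∪ B2 ^ n * {s0⁻¹} := by
    intro x hx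
    rcases key n x hx with h2 | h2
    · exact Finset.mem_union_left _ h2
    · refine Finset.mem_union_right _ (Finset.mem_mul.2 ⟨x * s0, h2, s0⁻¹,
        Finset.mem_singleton_self _, by group⟩)
  calc ((insert 1 S : Finset Γ) ^ n).card ≤ (B2 ^ n ∪ B2 ^ n * {s0⁻¹}).card :=
        Finset.card_le_card hsub
    _ ≤ (B2 ^ n).card + (B2 ^ n * {s0⁻¹}).card := Finset.card_union_le _ _
    _ ≤ (B2 ^ n).card + (B2 ^ n).card * 1 := by
        gcongr
        exact Finset.card_mul_le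
    _ = 2 * (B2 ^ n).card := by ring

/-- finitely many coset representatives -/
lemma transversal (H : Subgroup Γ) [H.FiniteIndex] :
    ∃ Tr : Finset Γ, (1 : Γ) ∈ Tr ∧ ∀ x : Γ, ∃ z ∈ Tr, x * z ∈ H := by
  classical
  have : Finite (Γ ⧸ H) := inferInstance
  have := Fintype.ofFinite (Γ ⧸ H)
  refine ⟨insert 1 (Finset.univ.image fun q : Γ ⧸ H => q.out), Finset.mem_insert_self _ _,
    fun x => ⟨((x⁻¹ : Γ) : Γ ⧸ H).out, Finset.mem_insert_of_mem
      (Finset.mem_image_of_mem _ (Finset.mem_univ _)), ?_⟩⟩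
  have h : ((((x⁻¹ : Γ) : Γ ⧸ H).out : Γ) : Γ ⧸ H) = ((x⁻¹ : Γ) : Γ ⧸ H) :=
    Quotient.out_eq' _
  rw [QuotientGroup.eq] at h
  have := H.inv_mem h
  simpa using this

/-- the generating set of the subgroup -/
noncomputable def Tg [DecidableEq Γ] (H : Subgroup Γ) (S Tr : Finset Γ) : Finset Γ :=
  @Finset.filter _ (fun x => x ∈ H) (fun _ => Classical.propDecidable _)
    ((Tr⁻¹ * insert 1 S) * Tr)

lemma Tg_mem [DecidableEq Γ] (H : Subgroup Γ) (S Tr : Finset Γ) : ∀ x ∈ Tg H S Tr, x ∈ H := by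
  intro x hx
  classical
  unfold Tg at hx
  rw [Finset.mem_filter] at hx
  exact hx.2

lemma mem_Tg [DecidableEq Γ] (H : Subgroup Γ) (S Tr : Finset Γ) {z s z' : Γ} (hz : z ∈ Tr)
    (hs : s ∈ insert 1 S) (hz' : z' ∈ Tr) (h : z⁻¹ * s * z' ∈ H) :
    z⁻¹ * s * z' ∈ Tg H S Tr := by
  classical
  unfold Tg
  rw [Finset.mem_filter]
  refine ⟨?_, h⟩
  rw [Finset.mem_mul]
  refine ⟨z⁻¹ * s, ?_, z', hz', rfl⟩
  rw [Finset.mem_mul]
  refine ⟨z⁻¹, ?_, s, ?_, rfl⟩
  · rw [Finset.mem_inv', inv_inv]; exact hz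
  · rw [Finset.mem_insert] at hs ⊢; exact hs

lemma growth_sub [DecidableEq Γ] (H : Subgroup Γ) (S Tr : Finset Γ) (h1 : (1 : Γ) ∈ Tr)
    (hTr : ∀ x : Γ, ∃ z ∈ Tr, x * z ∈ H) (n : ℕ) :
    ((insert 1 S : Finset Γ) ^ n).card ≤ ((insert 1 (Tg H S Tr) : Finset Γ) ^ (n + 1)).card *
      Tr.card := by
  have key : ∀ n, ∀ x ∈ (insert 1 S : Finset Γ) ^ n, ∀ z ∈ Tr, x * z ∈ H →
      x * z ∈ (insert 1 (Tg H S Tr) : Finset Γ) ^ (n + 1) := by
    intro n
    induction n with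
    | zero =>
      intro x hx z hz hxz
      rw [pow_zero, Finset.mem_one] at hx
      rw [hx, one_mul] at hxz ⊢
      rw [zero_add, pow_one]
      refine Finset.mem_insert_of_mem ?_
      have := mem_Tg H S Tr h1 (Finset.mem_insert_self 1 S) hz (by simpa using hxz)
      simpa using this
    | succ n ih =>
      intro x hx z hz hxz
      rw [pow_succ, Finset.mem_mul] at hx
      obtain ⟨x', hx', s, hs, rfl⟩ := hx
      obtain ⟨z', hz', hxz'⟩ := hTr x'
      have h2 := ih x' hx' z' hz' hxz'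
      have e : x' * s * z = (x' * z') * (z'⁻¹ * s * z) := by group
      rw [e, pow_succ]
      refine Finset.mul_mem_mul h2 (Finset.mem_insert_of_mem (mem_Tg H S Tr hz' hs hz ?_))
      have : z'⁻¹ * s * z = (x' * z')⁻¹ * (x' * s * z) := by group
      rw [this]
      exact H.mul_mem (H.inv_mem hxz') hxz
  have hsub : (insert 1 S : Finset Γ) ^ n ⊆
      (insert 1 (Tg H S Tr) : Finset Γ) ^ (n + 1) * Tr⁻¹ := by
    intro x hx
    obtain ⟨z, hz, hxz⟩ := hTr x
    refine Finset.mem_mul.2 ⟨x * z, key n x hx z hz hxz, z⁻¹, ?_, by group⟩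
    rw [Finset.mem_inv', inv_inv]; exact hz
  calc ((insert 1 S : Finset Γ) ^ n).card ≤
      ((insert 1 (Tg H S Tr) : Finset Γ) ^ (n + 1) * Tr⁻¹).card := Finset.card_le_card hsub
    _ ≤ ((insert 1 (Tg H S Tr) : Finset Γ) ^ (n + 1)).card * (Tr⁻¹).card := Finset.card_mul_le
    _ = _ := by rw [Finset.card_inv]

section Walk

variable (S : Finset Γ) (u : ℝ)

/-- mass of a set for the walk -/
noncomputable def Qm (n : ℕ) (A : Set Γ) : ℝ := ∑' x, A.indicator (fk S (fun _ => u) n) x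

lemma ind_fs (n : ℕ) (A : Set Γ) : Fs (A.indicator (fk S (fun _ => u) n)) :=
  (fk_fs S (fun _ => u) n).mono fun x hx => by
    classical
    rw [Set.indicator_apply, hx]; simp

variable {S u} (hu0 : 0 ≤ u)

include hu0 in
lemma Qm_mono (n : ℕ) {A B : Set Γ} (h : A ⊆ B) : Qm S u n A ≤ Qm S u n B := by
  refine Summable.tsum_le_tsum (fun x => ?_) (ind_fs S u n A).sm (ind_fs S u n B).sm
  exact Set.indicator_le_indicator_of_subset h (fun x => fk_nonneg _ _ (fun _ _ => hu0) _ _) x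

include hu0 in
lemma Qm_nonneg (n : ℕ) (A : Set Γ) : 0 ≤ Qm S u n A :=
  tsum_nonneg fun x => Set.indicator_nonneg (fun x _ => fk_nonneg _ _ (fun _ _ => hu0) _ _) x

lemma Qm_univ (hu1 : ∑ y ∈ S, (fun _ : Γ => u) y = 1) (n : ℕ) : Qm S u n Set.univ = 1 := by
  unfold Qm
  simp_rw [Set.indicator_univ]
  exact fk_one S _ hu1 n

include hu0 in
lemma Qm_union (n : ℕ) (A B : Set Γ) : Qm S u n (A ∪ B) ≤ Qm S u n A + Qm S u n B := by
  unfold Qm
  rw [← Summable.tsum_add (ind_fs S u n A).sm (ind_fs S u n B).sm]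
  refine Summable.tsum_le_tsum (fun x => ?_) (ind_fs S u n _).sm
    ((ind_fs S u n A).add (ind_fs S u n B)).sm
  classical
  have h0 : 0 ≤ fk S (fun _ => u) n x := fk_nonneg _ _ (fun _ _ => hu0) _ _
  rw [Set.indicator_apply, Set.indicator_apply, Set.indicator_apply]
  by_cases h1 : x ∈ A <;> by_cases h2 : x ∈ B <;> simp [h1, h2, h0]

include hu0 in
lemma Qm_biUnion (n : ℕ) (Tr : Finset Γ) (A : Γ → Set Γ) :
    Qm S u n {x | ∃ z ∈ Tr, x ∈ A z} ≤ ∑ z ∈ Tr, Qm S u n (A z) := by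
  classical
  induction Tr using Finset.induction_on with
  | empty =>
    have : {x : Γ | ∃ z ∈ (∅ : Finset Γ), x ∈ A z} = ∅ := by ext; simp
    rw [this]
    unfold Qm
    simp
  | insert a Tr ha ih =>
    rw [Finset.sum_insert ha]
    have : {x : Γ | ∃ z ∈ insert a Tr, x ∈ A z} = A a ∪ {x | ∃ z ∈ Tr, x ∈ A z} := by
      ext; simp
    rw [this]
    exact (Qm_union hu0 n _ _).trans (by linarith)

lemma Qm_inv (hS : ∀ y ∈ S, y⁻¹ ∈ S) (n : ℕ) (A : Set Γ) :
    Qm S u n {x | x⁻¹ ∈ A} = Qm S u n A := by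
  classical
  unfold Qm
  rw [← (Equiv.inv Γ).tsum_eq (A.indicator (fk S (fun _ => u) n))]
  refine tsum_congr fun x => ?_
  rw [Set.indicator_apply, Set.indicator_apply]
  have : fk S (fun _ => u) n x⁻¹ = fk S (fun _ => u) n x :=
    fk_inv S (fun _ => u) (fun _ => rfl) hS n x
  simp [this]

include hu0 in
lemma Qm_step (n : ℕ) {g : Γ} (hg : g ∈ S) (A : Set Γ) :
    u * Qm S u n {x | x * g ∈ A} ≤ Qm S u (n + 1) A := by
  classical
  unfold Qm
  rw [← tsum_shiftR (A.indicator (fk S (fun _ => u) (n + 1))) g, ← tsum_mul_left]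
  refine Summable.tsum_le_tsum (fun x => ?_) ((ind_fs S u n _).cmul u).sm
    ((ind_fs S u (n + 1) A).shiftR g).sm
  rw [Set.indicator_apply, Set.indicator_apply]
  by_cases h : x * g ∈ A
  · rw [if_pos h, if_pos (by exact h), fk_succR]
    have h2 : u * fk S (fun _ => u) n (x * g * g⁻¹) ≤
        ∑ y ∈ S, u * fk S (fun _ => u) n (x * g * y⁻¹) :=
      Finset.single_le_sum (f := fun y => u * fk S (fun _ => u) n (x * g * y⁻¹))
        (fun y _ => mul_nonneg hu0 (fk_nonneg _ _ (fun _ _ => hu0) _ _)) hg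
    rwa [mul_inv_cancel_right] at h2
  · rw [if_neg h, if_neg (by exact h), mul_zero]

include hu0 in
lemma Qm_word (hS : ∀ y ∈ S, y⁻¹ ∈ S) (hgen : Subgroup.closure (S : Set Γ) = ⊤) (z : Γ) :
    ∃ l : ℕ, ∀ n (A : Set Γ), u ^ l * Qm S u n {x | x * z ∈ A} ≤ Qm S u (n + l) A := by
  have hz : z ∈ Subgroup.closure (S : Set Γ) := by rw [hgen]; trivial
  have key : (∃ l : ℕ, ∀ n (A : Set Γ), u ^ l * Qm S u n {x | x * z ∈ A} ≤ Qm S u (n + l) A) ∧
      (∃ l : ℕ, ∀ n (A : Set Γ), u ^ l * Qm S u n {x | x * z⁻¹ ∈ A} ≤ Qm S u (n + l) A) := by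
    induction hz using Subgroup.closure_induction with
    | mem g hg =>
      refine ⟨⟨1, fun n A => ?_⟩, ⟨1, fun n A => ?_⟩⟩
      · rw [pow_one]; exact Qm_step hu0 n hg A
      · rw [pow_one]; exact Qm_step hu0 n (hS g hg) A
    | one =>
      refine ⟨⟨0, fun n A => ?_⟩, ⟨0, fun n A => ?_⟩⟩
      · simp
      · simp
    | mul x y _ _ hx hy =>
      obtain ⟨⟨lx, hx1⟩, ⟨lx', hx2⟩⟩ := hx
      obtain ⟨⟨ly, hy1⟩, ⟨ly', hy2⟩⟩ := hy
      refine ⟨⟨lx + ly, fun n A => ?_⟩, ⟨ly' + lx', fun n A => ?_⟩⟩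
      · have h1 := hx1 n {w | w * y ∈ A}
        have h2 := hy1 (n + lx) A
        have e : {v : Γ | v * (x * y) ∈ A} = {v | v * x ∈ {w | w * y ∈ A}} := by
          ext v; simp [mul_assoc]
        rw [e, pow_add, mul_comm (u ^ lx), mul_assoc, ← add_assoc]
        exact (mul_le_mul_of_nonneg_left h1 (pow_nonneg hu0 _)).trans h2
      · have h1 := hy2 n {w | w * x⁻¹ ∈ A}
        have h2 := hx2 (n + ly') A
        have e : {v : Γ | v * (x * y)⁻¹ ∈ A} = {v | v * y⁻¹ ∈ {w | w * x⁻¹ ∈ A}} := by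
          ext v; simp [mul_assoc]
        rw [e, pow_add, mul_comm (u ^ ly'), mul_assoc, ← add_assoc]
        exact (mul_le_mul_of_nonneg_left h1 (pow_nonneg hu0 _)).trans h2
    | inv x _ hx =>
      refine ⟨hx.2, ?_⟩
      rw [inv_inv]
      exact hx.1
  exact key.1

/-- the walk spends a positive fraction of its time in `P` -/
theorem Q_lower (hup : 0 < u) (hu1' : u ≤ 1) (hS : ∀ y ∈ S, y⁻¹ ∈ S)
    (hgen : Subgroup.closure (S : Set Γ) = ⊤)
    (hu1 : ∑ y ∈ S, (fun _ : Γ => u) y = 1) (H : Set Γ) (N P : Set Γ) (h : Γ)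
    (hHN : ∀ x ∈ H, x ∈ N ∨ x⁻¹ ∈ N) (hNP : ∀ x ∈ N, x * h ∈ P)
    (Tr : Finset Γ) (hTr1 : (1 : Γ) ∈ Tr) (hTr : ∀ x : Γ, ∃ z ∈ Tr, x * z ∈ H) :
    ∃ c : ℝ, 0 < c ∧ ∃ L0 : ℕ, ∀ L ≥ L0, c * L ≤ ∑ s ∈ Ico L (2 * L), Qm S u s P := by
  classical
  have hu0 := hup.le
  choose l hl using Qm_word (S := S) (u := u) hu0 hS hgen
  set Dm := Tr.sup l + l h with hDm
  have hTrc : (0 : ℝ) < Tr.card := by
    exact_mod_cast Finset.card_pos.2 ⟨1, hTr1⟩
  have h1 : ∀ s, u ^ Dm ≤ 2 * ∑ z ∈ Tr, Qm S u (s + (l z + l h)) P := by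
    intro s
    have e1 : (1 : ℝ) ≤ ∑ z ∈ Tr, Qm S u s {x | x * z ∈ H} := by
      rw [← Qm_univ hu1 s]
      refine le_trans (Qm_mono hu0 s ?_) (Qm_biUnion hu0 s Tr fun z => {x | x * z ∈ H})
      intro x _
      exact hTr x
    have e2 : ∀ z ∈ Tr, u ^ Dm * Qm S u s {x | x * z ∈ H} ≤ 2 * Qm S u (s + (l z + l h)) P := by
      intro z hz
      have hlz : l z ≤ Tr.sup l := Finset.le_sup hz
      have a1 := hl z s H
      have a2 : Qm S u (s + l z) H ≤ 2 * Qm S u (s + l z) N := by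
        have : H ⊆ N ∪ {x | x⁻¹ ∈ N} := fun x hx => hHN x hx
        have b1 := (Qm_mono (S := S) (u := u) hu0 (s + l z) this).trans (Qm_union hu0 _ _ _)
        rw [Qm_inv hS] at b1
        linarith
      have a3 := hl h (s + l z) P
      have a4 : Qm S u (s + l z) N ≤ Qm S u (s + l z) {x | x * h ∈ P} := Qm_mono hu0 _ hNP
      have a5 : u ^ Dm ≤ u ^ (l h) * u ^ (l z) := by
        rw [← pow_add]
        exact pow_le_pow_of_le_one hu0 hu1' (by omega)
      have hQ0 := Qm_nonneg (S := S) hu0 s {x | x * z ∈ H}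
      have hp : 0 ≤ u ^ (l h) := pow_nonneg hu0 _
      calc u ^ Dm * Qm S u s {x | x * z ∈ H} ≤ u ^ (l h) * u ^ (l z) * Qm S u s {x | x * z ∈ H} :=
            mul_le_mul_of_nonneg_right a5 hQ0
        _ = u ^ (l h) * (u ^ (l z) * Qm S u s {x | x * z ∈ H}) := by ring
        _ ≤ u ^ (l h) * Qm S u (s + l z) H := mul_le_mul_of_nonneg_left a1 hp
        _ ≤ u ^ (l h) * (2 * Qm S u (s + l z) N) := mul_le_mul_of_nonneg_left a2 hp
        _ ≤ u ^ (l h) * (2 * Qm S u (s + l z) {x | x * h ∈ P}) := by gcongr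
        _ = 2 * (u ^ (l h) * Qm S u (s + l z) {x | x * h ∈ P}) := by ring
        _ ≤ 2 * Qm S u (s + l z + l h) P := by linarith
        _ = _ := by rw [add_assoc]
    calc u ^ Dm = u ^ Dm * 1 := (mul_one _).symm
      _ ≤ u ^ Dm * ∑ z ∈ Tr, Qm S u s {x | x * z ∈ H} :=
          mul_le_mul_of_nonneg_left e1 (pow_nonneg hu0 _)
      _ = ∑ z ∈ Tr, u ^ Dm * Qm S u s {x | x * z ∈ H} := Finset.mul_sum _ _ _
      _ ≤ ∑ z ∈ Tr, 2 * Qm S u (s + (l z + l h)) P := Finset.sum_le_sum e2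
      _ = _ := by rw [Finset.mul_sum]
  refine ⟨u ^ Dm / (4 * Tr.card), by positivity, 2 * Dm, fun L hL => ?_⟩
  have h2 : ∀ z ∈ Tr, ∑ s ∈ Ico L (2 * L - Dm), Qm S u (s + (l z + l h)) P ≤
      ∑ s ∈ Ico L (2 * L), Qm S u s P := by
    intro z hz
    have hlz : l z ≤ Tr.sup l := Finset.le_sup hz
    have hinj : Set.InjOn (fun s => s + (l z + l h)) (Ico L (2 * L - Dm) : Set ℕ) :=
      fun a _ b _ hab => by
        have : a + (l z + l h) = b + (l z + l h) := hab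
        omega
    rw [← Finset.sum_image (f := fun s => Qm S u s P) hinj]
    refine Finset.sum_le_sum_of_subset_of_nonneg (fun k hk => ?_)
      fun k _ _ => Qm_nonneg hu0 k P
    rw [Finset.mem_image] at hk
    obtain ⟨n, hn, rfl⟩ := hk
    rw [Finset.mem_Ico] at hn ⊢
    show L ≤ n + (l z + l h) ∧ n + (l z + l h) < 2 * L
    omega
  have h3 : ((L : ℝ) - Dm) * u ^ Dm ≤ 2 * (Tr.card * ∑ s ∈ Ico L (2 * L), Qm S u s P) := by
    have hc : ((Ico L (2 * L - Dm)).card : ℝ) = (L : ℝ) - Dm := by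
      rw [Nat.card_Ico]
      rw [show 2 * L - Dm - L = L - Dm by omega, Nat.cast_sub (by omega)]
    rw [← hc]
    calc ((Ico L (2 * L - Dm)).card : ℝ) * u ^ Dm = ∑ s ∈ Ico L (2 * L - Dm), u ^ Dm := by
          rw [Finset.sum_const, nsmul_eq_mul]
      _ ≤ ∑ s ∈ Ico L (2 * L - Dm), 2 * ∑ z ∈ Tr, Qm S u (s + (l z + l h)) P :=
          Finset.sum_le_sum fun s _ => h1 s
      _ = 2 * ∑ z ∈ Tr, ∑ s ∈ Ico L (2 * L - Dm), Qm S u (s + (l z + l h)) P := by
          rw [← Finset.mul_sum, Finset.sum_comm]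
      _ ≤ 2 * ∑ z ∈ Tr, ∑ s ∈ Ico L (2 * L), Qm S u s P := by
          gcongr with z hz
          exact h2 z hz
      _ = _ := by rw [Finset.sum_const, nsmul_eq_mul]
  have h4 : (L : ℝ) / 2 ≤ (L : ℝ) - Dm := by
    have : (2 * Dm : ℝ) ≤ L := by exact_mod_cast hL
    linarith
  rw [div_mul_eq_mul_div, div_le_iff₀ (by positivity)]
  have h5 := mul_le_mul_of_nonneg_right h4 (pow_nonneg hu0 Dm)
  have h6 : u ^ Dm * (L : ℝ) = 2 * ((L : ℝ) / 2 * u ^ Dm) := by ring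
  have h7 : (∑ s ∈ Ico L (2 * L), Qm S u s P) * (4 * (Tr.card : ℝ)) =
      2 * (2 * (Tr.card * ∑ s ∈ Ico L (2 * L), Qm S u s P)) := by ring
  rw [h6, h7]
  linarith

end Walk

end Idx

end Pool.Agent.K9h18.FG
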