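import Pool.Agent.K9h18.FG.Wlk
import Pool.Agent.K9h18.FG.Idx

set_option autoImplicit false
set_option linter.unusedSectionVars false
set_option linter.unusedVariables false

namespace Pool.Agent.K9h18.FG

open MeasureTheory ProbabilityTheory Finset Function
open scoped Pointwise

section Core

variable {Γ : Type} [Group Γ] [DecidableEq Γ] {S : Finset Γ} [mS : MeasurableSpace S]
  [MeasurableSingletonClass S] (σ₁ : Measure S) [IsProbabilityMeasure σ₁] {u : ℝ}
  (hu : ∀ g : S, σ₁.real {g} = u) (hup : 0 < u)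

lemma fk_fin (F : Finset Γ) (ν : Γ → ℝ) (k : ℕ) : (support (fk F ν k)).Finite := fk_fs F ν k

lemma hit_le_one (n : ℕ) (y : Γ) : hit σ₁ n y ≤ 1 := measureReal_le_one

lemma hit_nonneg (n : ℕ) (y : Γ) : 0 ≤ hit σ₁ n y := measureReal_nonneg

include hu hup in
/-- the step distribution for a fixed scale -/
theorem pre {G C1 : ℝ}
    (hG : ∀ N, ∑ n ∈ Finset.range N, fk S (fun _ => u) n (1 : Γ) ≤ G) (P : Set Γ)
    (Sp : Finset Γ) (hSp : ∀ y ∈ Sp, y ∈ P) (hSpn : Sp.Nonempty) (L : ℕ) (hL : 1 ≤ L) {ε cS : ℝ}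
    (hε : 0 < ε) (hε2 : ε ≤ 1 / 2) (hcS : 0 < cS) (hcS' : ∀ y ∈ Sp, cS ≤ hit σ₁ (2 * L) y)
    (hC1 : 0 ≤ C1) (hHL0 : 0 < ∑ s ∈ Ico L (2 * L), Qm S u s P)
    (hHL : G ≤ C1 / L * ∑ s ∈ Ico L (2 * L), Qm S u s P) :
    ∃ (F : Finset Γ) (ν νs : Γ → ℝ), (∀ y ∈ F, y ∈ P) ∧ (∀ y, 0 ≤ ν y) ∧ (∑ y ∈ F, ν y = 1) ∧
      (∀ y ∈ F, 0 < hit σ₁ (2 * L) y) ∧
      (∀ y ∈ F, ν y / hit σ₁ (2 * L) y ≤ ε / cS * νs y + C1 / L) ∧
      (∀ y ∈ F, ν y ≤ ε * νs y + C1 / L) ∧ (∀ y, 0 ≤ νs y) ∧ (∑ y ∈ F, νs y ≤ 1) ∧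
      Sp ⊆ F ∧ (∀ y ∈ Sp, ε / Sp.card ≤ ν y) := by
  classical
  set HL := ∑ s ∈ Ico L (2 * L), Qm S u s P with hHLd
  have hu0 := hup.le
  have hSc : (0 : ℝ) < Sp.card := by exact_mod_cast hSpn.card_pos
  have hL' : (0 : ℝ) < L := by exact_mod_cast hL
  set νs : Γ → ℝ := fun y => if y ∈ Sp then 1 / (Sp.card : ℝ) else 0 with hνs
  set m : Γ → ℝ := fun y => if y ∈ P then ∑ s ∈ Ico L (2 * L), fk S (fun _ => u) s y else 0
    with hm
  set BL : Finset Γ := (Ico L (2 * L)).biUnion fun s =>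
    Set.Finite.toFinset (fk_fin S (fun _ => u) s) with hBL
  set F : Finset Γ := Sp ∪ BL.filter (fun y => y ∈ P) with hF
  have hνs0 : ∀ y, 0 ≤ νs y := fun y => by
    simp only [hνs]; split_ifs <;> positivity
  have hf0 : ∀ s (y : Γ), 0 ≤ fk S (fun _ => u) s y := fun s y => fk_nonneg _ _ (fun _ _ => hu0) _ _
  have hm0 : ∀ y, 0 ≤ m y := fun y => by
    simp only [hm]; split_ifs
    · exact Finset.sum_nonneg fun s _ => hf0 s y
    · exact le_rfl
  have hmF : ∀ y ∉ F, m y = 0 := by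
    intro y hy
    simp only [hm]
    split_ifs with hyP
    · refine Finset.sum_eq_zero fun s hs => ?_
      by_contra hne
      apply hy
      rw [hF, Finset.mem_union, Finset.mem_filter]
      refine Or.inr ⟨?_, hyP⟩
      rw [hBL, Finset.mem_biUnion]
      exact ⟨s, hs, (Set.Finite.mem_toFinset _).2 hne⟩
    · rfl
  have hmsum : ∑ y ∈ F, m y = HL := by
    rw [hHLd]
    have e : ∀ s ∈ Ico L (2 * L), Qm S u s P =
        ∑ y ∈ F, (if y ∈ P then fk S (fun _ => u) s y else 0) := by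
      intro s hs
      unfold Qm
      rw [tsum_eq_sum (s := F)]
      · exact Finset.sum_congr rfl fun y _ => by rw [Set.indicator_apply]
      · intro y hy
        rw [Set.indicator_apply]
        split_ifs with hyP
        · by_contra hne
          apply hy
          rw [hF, Finset.mem_union, Finset.mem_filter]
          refine Or.inr ⟨?_, hyP⟩
          rw [hBL, Finset.mem_biUnion]
          exact ⟨s, hs, (Set.Finite.mem_toFinset _).2 hne⟩
        · rfl
    rw [Finset.sum_congr rfl e, Finset.sum_comm]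
    refine Finset.sum_congr rfl fun y _ => ?_
    simp only [hm]
    split_ifs with hyP
    · rfl
    · simp
  have hνssum : ∑ y ∈ F, νs y = 1 := by
    simp only [hνs]
    rw [← Finset.sum_filter]
    have : F.filter (fun y => y ∈ Sp) = Sp := by
      ext y
      rw [Finset.mem_filter, hF, Finset.mem_union]
      constructor
      · exact fun h => h.2
      · exact fun h => ⟨Or.inl h, h⟩
    rw [this, Finset.sum_const, nsmul_eq_mul]
    field_simp
  have hmle : ∀ y, m y ≤ G * hit σ₁ (2 * L) y := by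
    intro y
    have h1 := hit_green σ₁ hu hu0 hG L y
    have hG0 : 0 ≤ G := le_trans (by simp) (hG 0)
    simp only [hm]
    split_ifs
    · exact h1
    · exact mul_nonneg hG0 (hit_nonneg σ₁ _ _)
  have hνb : ∀ y, m y / HL ≤ C1 / L * hit σ₁ (2 * L) y := by
    intro y
    rw [div_le_iff₀ hHL0]
    refine (hmle y).trans ?_
    have := mul_le_mul_of_nonneg_right hHL (hit_nonneg σ₁ (2 * L) y)
    linarith
  refine ⟨F, fun y => ε * νs y + (1 - ε) * (m y / HL), νs, ?_, ?_, ?_, ?_, ?_, ?_, hνs0,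
    hνssum.le, Finset.subset_union_left, ?_⟩
  · intro y hy
    rw [hF, Finset.mem_union, Finset.mem_filter] at hy
    rcases hy with h | h
    · exact hSp y h
    · exact h.2
  · intro y
    have := hνs0 y
    have h2 : 0 ≤ m y / HL := div_nonneg (hm0 y) hHL0.le
    have h3 : 0 ≤ 1 - ε := by linarith
    positivity
  · rw [Finset.sum_add_distrib, ← Finset.mul_sum, ← Finset.mul_sum, ← Finset.sum_div, hmsum,
      hνssum, div_self hHL0.ne']
    ring
  · intro y hy
    rw [hF, Finset.mem_union, Finset.mem_filter] at hy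
    rcases hy with h | h
    · exact lt_of_lt_of_le hcS (hcS' y h)
    · have h1 := h.1
      rw [hBL, Finset.mem_biUnion] at h1
      obtain ⟨s, hs, hsy⟩ := h1
      rw [Set.Finite.mem_toFinset] at hsy
      rw [Finset.mem_Ico] at hs
      exact lt_of_lt_of_le (lt_of_le_of_ne (hf0 s y) (Ne.symm hsy))
        (hit_ge σ₁ hu (2 * L) hs.2.le y)
  · intro y hy
    have hpos : 0 < hit σ₁ (2 * L) y := by
      rw [hF, Finset.mem_union, Finset.mem_filter] at hy
      rcases hy with h | h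
      · exact lt_of_lt_of_le hcS (hcS' y h)
      · have h1 := h.1
        rw [hBL, Finset.mem_biUnion] at h1
        obtain ⟨s, hs, hsy⟩ := h1
        rw [Set.Finite.mem_toFinset] at hsy
        rw [Finset.mem_Ico] at hs
        exact lt_of_lt_of_le (lt_of_le_of_ne (hf0 s y) (Ne.symm hsy))
          (hit_ge σ₁ hu (2 * L) hs.2.le y)
    rw [div_le_iff₀ hpos]
    have h1 := hνb y
    have h2 : (1 - ε) * (m y / HL) ≤ C1 / L * hit σ₁ (2 * L) y := by
      have : 0 ≤ m y / HL := div_nonneg (hm0 y) hHL0.le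
      nlinarith
    have h3 : ε * νs y ≤ ε / cS * νs y * hit σ₁ (2 * L) y := by
      by_cases hyS : y ∈ Sp
      · have h4 := hcS' y hyS
        have h5 : ε * νs y = ε / cS * νs y * cS := by field_simp
        rw [h5]
        have h6 : 0 ≤ ε / cS * νs y := mul_nonneg (by positivity) (hνs0 y)
        exact mul_le_mul_of_nonneg_left h4 h6
      · have : νs y = 0 := by simp only [hνs]; rw [if_neg hyS]
        rw [this]; simp
    rw [add_mul]
    linarith
  · intro y hy
    have h1 := hνb y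
    have h2 : m y / HL ≤ C1 / L := by
      refine h1.trans ?_
      have := hit_le_one σ₁ (2 * L) y
      have h0 : 0 ≤ C1 / L := by positivity
      nlinarith
    have h3 : 0 ≤ m y / HL := div_nonneg (hm0 y) hHL0.le
    show ε * νs y + (1 - ε) * (m y / HL) ≤ ε * νs y + C1 / L
    nlinarith
  · intro y hy
    show ε / Sp.card ≤ ε * νs y + (1 - ε) * (m y / HL)
    have h3 : 0 ≤ m y / HL := div_nonneg (hm0 y) hHL0.le
    have h4 : νs y = 1 / (Sp.card : ℝ) := by simp only [hνs]; rw [if_pos hy]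
    have h5 : 0 ≤ (1 - ε) * (m y / HL) := mul_nonneg (by linarith) h3
    rw [h4, mul_one_div]
    linarith

/-- the second moment of the weighted range -/
lemma range_bound (L : ℕ) (F : Finset Γ) (r νs : Γ → ℝ) {a b : ℝ} (ha : 0 ≤ a) (hb : 0 ≤ b)
    (hr0 : ∀ y ∈ F, 0 ≤ r y) (hr : ∀ y ∈ F, r y ≤ a * νs y + b) (hs0 : ∀ y, 0 ≤ νs y)
    (hs1 : ∑ y ∈ F, νs y ≤ 1) :
    ∑ y ∈ F, ∑ y' ∈ F, r y * r y' * (Pm σ₁ : Measure (ℕ → S)).real
      ({s | ∃ j ≤ 2 * L, Wk s 0 j = y} ∩ {s | ∃ j ≤ 2 * L, Wk s 0 j = y'}) ≤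
      (a + (2 * L + 1) * b) ^ 2 := by
  classical
  set I : Γ → (ℕ → S) → ℝ := fun y s => In {s : ℕ → S | ∃ j ≤ 2 * L, Wk s 0 j = y} s with hI
  have hIm : ∀ y : Γ, MeasurableSet {s : ℕ → S | ∃ j ≤ 2 * L, Wk s 0 j = y} :=
    fun y => hit_meas (2 * L) y
  have hint : ∀ y y' : Γ, Integrable (fun s => r y * r y' * In
      ({s : ℕ → S | ∃ j ≤ 2 * L, Wk s 0 j = y} ∩ {s | ∃ j ≤ 2 * L, Wk s 0 j = y'}) s)
      (Pm σ₁ : Measure (ℕ → S)) := by
    intro y y'
    refine Integrable.const_mul ?_ _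
    refine Integrable.of_bound (In_meas ((hIm y).inter (hIm y'))).aestronglyMeasurable 1
      (Filter.Eventually.of_forall fun s => ?_)
    rw [Real.norm_of_nonneg (In_nonneg _ _)]
    exact In_le _ _
  have hle1 : ∀ s : ℕ → S, ∑ y ∈ F, r y * I y s ≤ a + (2 * L + 1) * b := by
    intro s
    have h1 : ∑ y ∈ F, I y s ≤ 2 * L + 1 := by
      have e : ∑ y ∈ F, I y s = ((F.filter fun y => ∃ j ≤ 2 * L, Wk s 0 j = y).card : ℝ) := by
        rw [Finset.card_filter, Nat.cast_sum]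
        refine Finset.sum_congr rfl fun y _ => ?_
        simp only [hI, In]
        by_cases h : ∃ j ≤ 2 * L, Wk s 0 j = y
        · rw [if_pos h, if_pos (by exact h)]; simp
        · rw [if_neg h, if_neg (by exact h)]; simp
      rw [e]
      have hsub : (F.filter fun y => ∃ j ≤ 2 * L, Wk s 0 j = y) ⊆
          (Finset.range (2 * L + 1)).image fun j => Wk s 0 j := by
        intro y hy
        rw [Finset.mem_filter] at hy
        obtain ⟨j, hj, hjy⟩ := hy.2
        exact Finset.mem_image.2 ⟨j, Finset.mem_range.2 (by omega), hjy⟩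
      have := (Finset.card_le_card hsub).trans Finset.card_image_le
      rw [Finset.card_range] at this
      exact_mod_cast this
    calc ∑ y ∈ F, r y * I y s ≤ ∑ y ∈ F, (a * νs y + b * I y s) := by
          refine Finset.sum_le_sum fun y hy => ?_
          have hI0 : 0 ≤ I y s := In_nonneg _ _
          have hI1 : I y s ≤ 1 := In_le _ _
          have h2 := mul_le_mul_of_nonneg_right (hr y hy) hI0
          have h3 : 0 ≤ a * νs y := mul_nonneg ha (hs0 y)
          nlinarith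
      _ = a * ∑ y ∈ F, νs y + b * ∑ y ∈ F, I y s := by
          rw [Finset.sum_add_distrib, ← Finset.mul_sum, ← Finset.mul_sum]
      _ ≤ a * 1 + b * (2 * L + 1) := by gcongr
      _ = _ := by ring
  have hge0 : ∀ s : ℕ → S, 0 ≤ ∑ y ∈ F, r y * I y s := fun s =>
    Finset.sum_nonneg fun y hy => mul_nonneg (hr0 y hy) (In_nonneg _ _)
  have e1 : ∑ y ∈ F, ∑ y' ∈ F, r y * r y' * (Pm σ₁ : Measure (ℕ → S)).real
      ({s | ∃ j ≤ 2 * L, Wk s 0 j = y} ∩ {s | ∃ j ≤ 2 * L, Wk s 0 j = y'}) =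
      ∫ s, (∑ y ∈ F, r y * I y s) * (∑ y ∈ F, r y * I y s) ∂(Pm σ₁ : Measure (ℕ → S)) := by
    have e2 : ∀ s : ℕ → S, (∑ y ∈ F, r y * I y s) * (∑ y ∈ F, r y * I y s) =
        ∑ y ∈ F, ∑ y' ∈ F, r y * r y' * In
        ({s : ℕ → S | ∃ j ≤ 2 * L, Wk s 0 j = y} ∩ {s | ∃ j ≤ 2 * L, Wk s 0 j = y'}) s := by
      intro s
      rw [Finset.sum_mul_sum]
      refine Finset.sum_congr rfl fun y _ => Finset.sum_congr rfl fun y' _ => ?_
      have : In ({s : ℕ → S | ∃ j ≤ 2 * L, Wk s 0 j = y} ∩ {s | ∃ j ≤ 2 * L, Wk s 0 j = y'}) s =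
          I y s * I y' s := by
        simp only [hI]
        unfold In
        by_cases h1 : s ∈ {s : ℕ → S | ∃ j ≤ 2 * L, Wk s 0 j = y} <;>
          by_cases h2 : s ∈ {s : ℕ → S | ∃ j ≤ 2 * L, Wk s 0 j = y'}
        · rw [if_pos ⟨h1, h2⟩, if_pos h1, if_pos h2, mul_one]
        · rw [if_neg (fun h => h2 h.2), if_pos h1, if_neg h2, mul_zero]
        · rw [if_neg (fun h => h1 h.1), if_neg h1, zero_mul]
        · rw [if_neg (fun h => h1 h.1), if_neg h1, zero_mul]
      rw [this]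
      ring
    simp_rw [e2]
    rw [integral_finsetSum _ fun y _ => integrable_finsetSum _ fun y' _ => hint y y']
    refine Finset.sum_congr rfl fun y _ => ?_
    rw [integral_finsetSum _ fun y' _ => hint y y']
    refine Finset.sum_congr rfl fun y' _ => ?_
    rw [integral_const_mul, int_In _ ((hIm y).inter (hIm y'))]
  rw [e1]
  have h2 : ∀ s : ℕ → S, (∑ y ∈ F, r y * I y s) * (∑ y ∈ F, r y * I y s) ≤
      (a + (2 * L + 1) * b) ^ 2 := by
    intro s
    have := hle1 s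
    have h0 := hge0 s
    nlinarith
  have hmeas : Measurable fun s : ℕ → S => (∑ y ∈ F, r y * I y s) * (∑ y ∈ F, r y * I y s) := by
    have : Measurable fun s : ℕ → S => ∑ y ∈ F, r y * I y s :=
      Finset.measurable_fun_sum _ fun y _ => measurable_const.mul (In_meas (hIm y))
    exact this.mul this
  have hi : Integrable (fun s : ℕ → S => (∑ y ∈ F, r y * I y s) * (∑ y ∈ F, r y * I y s))
      (Pm σ₁ : Measure (ℕ → S)) := by
    refine Integrable.of_bound hmeas.aestronglyMeasurable ((a + (2 * L + 1) * b) ^ 2)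
      (Filter.Eventually.of_forall fun s => ?_)
    rw [Real.norm_of_nonneg (mul_nonneg (hge0 s) (hge0 s))]
    exact h2 s
  calc ∫ s, (∑ y ∈ F, r y * I y s) * (∑ y ∈ F, r y * I y s) ∂(Pm σ₁ : Measure (ℕ → S))
      ≤ ∫ s, (a + (2 * L + 1) * b) ^ 2 ∂(Pm σ₁ : Measure (ℕ → S)) :=
        integral_mono hi (integrable_const _) h2
    _ = _ := by simp

/-- tails -/
lemma choose_K {C δ' : ℝ} (hC : 0 ≤ C) (hδ : 0 < δ') : ∃ K : ℕ, ∀ N,
    ∑ k ∈ range N, (if k < K then 0 else C * (1 / ((k + 1 : ℕ) : ℝ) ^ (5 / 4 : ℝ))) ≤ δ' := by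
  set t : ℕ → ℝ := fun k => C * (1 / ((k + 1 : ℕ) : ℝ) ^ (5 / 4 : ℝ)) with ht
  have ht0 : ∀ k, 0 ≤ t k := fun k => by simp only [ht]; positivity
  have hsum : Summable t := by
    refine Summable.mul_left C ?_
    exact (summable_nat_add_iff 1).2
      (Real.summable_one_div_nat_rpow (p := (5 / 4 : ℝ)).2 (by norm_num))
  obtain ⟨K, hK⟩ := (Metric.tendsto_atTop.1 hsum.tendsto_sum_tsum_nat) δ' hδ
  refine ⟨K, fun N => ?_⟩
  have h1 := hK K le_rfl
  rw [Real.dist_eq, abs_lt] at h1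
  have h2 : ∑ k ∈ range (K + N), t k ≤ ∑' k, t k := hsum.sum_le_tsum _ fun k _ => ht0 k
  rw [Finset.sum_range_add] at h2
  have h0 : ∀ k, 0 ≤ (if k < K then (0 : ℝ) else t k) := fun k => by
    split_ifs
    · exact le_rfl
    · exact ht0 k
  calc ∑ k ∈ range N, (if k < K then 0 else t k)
      ≤ ∑ k ∈ range (K + N), (if k < K then 0 else t k) :=
        Finset.sum_le_sum_of_subset_of_nonneg (Finset.range_mono (by omega)) fun k _ _ => h0 k
    _ = ∑ k ∈ range K, (if k < K then 0 else t k) +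
        ∑ k ∈ range N, (if K + k < K then 0 else t (K + k)) := Finset.sum_range_add _ _ _
    _ = ∑ k ∈ range N, t (K + k) := by
        rw [Finset.sum_eq_zero fun k hk => if_pos (Finset.mem_range.1 hk), zero_add]
        exact Finset.sum_congr rfl fun k _ => if_neg (by omega)
    _ ≤ δ' := by linarith [h1.1, h1.2]

end Core

end Pool.Agent.K9h18.FG
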