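import Pool.Agent.K9h18.FG.Core

set_option autoImplicit false
set_option linter.unusedSectionVars false
set_option linter.unusedVariables false

namespace Pool.Agent.K9h18.FG

open MeasureTheory ProbabilityTheory Finset Function
open scoped Pointwise

section Core2

variable {Γ : Type} [Group Γ] [DecidableEq Γ] {S : Finset Γ}

lemma fk_pos_ex {u : ℝ} (hup : 0 < u) (hS : ∀ y ∈ S, y⁻¹ ∈ S)
    (hgen : Subgroup.closure (S : Set Γ) = ⊤) (y : Γ) : ∃ l, 0 < fk S (fun _ => u) l y := by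
  obtain ⟨l, hl⟩ := Qm_word (S := S) (u := u) hup.le hS hgen y
  refine ⟨l, ?_⟩
  have h1 := hl 0 {y}
  have e1 : {x : Γ | x * y ∈ ({y} : Set Γ)} = {1} := by ext x; simp
  have e2 : Qm S u 0 ({1} : Set Γ) = 1 := by
    unfold Qm
    rw [tsum_eq_single 1]
    · rw [Set.indicator_of_mem (Set.mem_singleton _), fk_zero, if_pos rfl]
    · intro x hx
      exact Set.indicator_of_notMem (by simpa using hx) _
  have e3 : Qm S u (0 + l) {y} = fk S (fun _ => u) l y := by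
    unfold Qm
    rw [zero_add, tsum_eq_single y]
    · rw [Set.indicator_of_mem (Set.mem_singleton _)]
    · intro x hx
      exact Set.indicator_of_notMem (by simpa using hx) _
  rw [e1, e2, e3, mul_one] at h1
  exact lt_of_lt_of_le (pow_pos hup l) h1

lemma cS_ex {u : ℝ} (hup : 0 < u) (hS : ∀ y ∈ S, y⁻¹ ∈ S)
    (hgen : Subgroup.closure (S : Set Γ) = ⊤) (Sp : Finset Γ) (hSpn : Sp.Nonempty) :
    ∃ (cS : ℝ) (L1 : ℕ), 0 < cS ∧ ∀ y ∈ Sp, ∃ j ≤ L1, cS ≤ fk S (fun _ => u) j y := by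
  choose l hl using fk_pos_ex (S := S) hup hS hgen
  obtain ⟨y0, hy0, hmin⟩ := Finset.exists_min_image Sp (fun y => fk S (fun _ => u) (l y) y) hSpn
  exact ⟨_, Sp.sup l, hl y0, fun y hy => ⟨l y, Finset.le_sup hy, hmin y hy⟩⟩

lemma growthT (H : Subgroup Γ) (Tr : Finset Γ) (h1 : (1 : Γ) ∈ Tr)
    (hTr : ∀ x : Γ, ∃ z ∈ Tr, x * z ∈ H) {c : ℝ} (hc : 0 < c) (hc1 : c ≤ 1)
    (hgr : ∀ r : ℕ, 1 ≤ r → c * (r : ℝ) ^ 5 ≤ ((((insert 1 S : Finset Γ) ^ r).card : ℕ) : ℝ)) :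
    ∀ r : ℕ, 1 ≤ r → c / (32 * Tr.card) * (r : ℝ) ^ 5 ≤
      ((((insert 1 (Tg H S Tr) : Finset Γ) ^ r).card : ℕ) : ℝ) := by
  intro r hr
  have hTc : (1 : ℝ) ≤ Tr.card := by
    exact_mod_cast Finset.card_pos.2 ⟨1, h1⟩
  obtain ⟨n, rfl⟩ : ∃ n, r = n + 1 := ⟨r - 1, by omega⟩
  rcases Nat.eq_zero_or_pos n with h0 | h0
  · subst h0
    have h2 : (1 : ℝ) ≤ ((((insert 1 (Tg H S Tr) : Finset Γ) ^ (0 + 1)).card : ℕ) : ℝ) := by
      exact_mod_cast Finset.card_pos.2 (Finset.Nonempty.pow ⟨1, Finset.mem_insert_self _ _⟩)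
    refine le_trans ?_ h2
    have : c / (32 * (Tr.card : ℝ)) ≤ 1 := by
      rw [div_le_one (by positivity)]
      linarith
    simpa using this
  · have h2 := growth_sub H S Tr h1 hTr n
    have h3 := hgr n h0
    have h4 : ((((insert 1 S : Finset Γ) ^ n).card : ℕ) : ℝ) ≤
        ((((insert 1 (Tg H S Tr) : Finset Γ) ^ (n + 1)).card : ℕ) : ℝ) * Tr.card := by
      exact_mod_cast h2
    have h5 : ((n + 1 : ℕ) : ℝ) ^ 5 ≤ 32 * (n : ℝ) ^ 5 := by
      have h6 : ((n + 1 : ℕ) : ℝ) ≤ 2 * n := by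
        push_cast
        have : (1 : ℝ) ≤ n := by exact_mod_cast h0
        linarith
      calc ((n + 1 : ℕ) : ℝ) ^ 5 ≤ (2 * (n : ℝ)) ^ 5 := pow_le_pow_left₀ (by positivity) h6 5
        _ = _ := by ring
    rw [div_mul_eq_mul_div, div_le_iff₀ (by positivity)]
    calc c * ((n + 1 : ℕ) : ℝ) ^ 5 ≤ c * (32 * (n : ℝ) ^ 5) := by gcongr
      _ = 32 * (c * (n : ℝ) ^ 5) := by ring
      _ ≤ 32 * (((((insert 1 (Tg H S Tr) : Finset Γ) ^ (n + 1)).card : ℕ) : ℝ) * Tr.card) :=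
          mul_le_mul_of_nonneg_left (h3.trans h4) (by norm_num)
      _ = _ := by ring

lemma sum_ite_le (N K : ℕ) {x : ℝ} (hx : 0 ≤ x) :
    ∑ k ∈ range N, (if k < K then x else 0) ≤ K * x := by
  rw [← Finset.sum_filter, Finset.sum_const, nsmul_eq_mul]
  refine mul_le_mul_of_nonneg_right ?_ hx
  have : ((range N).filter fun k => k < K) ⊆ range K := fun k hk => by
    rw [Finset.mem_filter] at hk
    exact Finset.mem_range.2 hk.2
  have := Finset.card_le_card this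
  rw [Finset.card_range] at this
  exact_mod_cast this

lemma sum_pow_le (N : ℕ) {q : ℝ} (hq : 0 ≤ q) (hq2 : q ≤ 1 / 2) :
    ∑ k ∈ range N, q ^ (k + 1) ≤ 2 * q := by
  calc ∑ k ∈ range N, q ^ (k + 1) ≤ ∑ k ∈ range N, (1 / (2 : ℝ)) ^ k * q := by
        refine Finset.sum_le_sum fun k _ => ?_
        rw [pow_succ]
        exact mul_le_mul_of_nonneg_right (pow_le_pow_left₀ hq hq2 k) hq
    _ = (∑ k ∈ range N, (1 / (2 : ℝ)) ^ k) * q := by rw [Finset.sum_mul]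
    _ ≤ 2 * q := mul_le_mul_of_nonneg_right (sum_geometric_two_le N) hq

variable [mS : MeasurableSpace S]
  [MeasurableSingletonClass S] (σ₁ : Measure S) [IsProbabilityMeasure σ₁] {u : ℝ}
  (hu : ∀ g : S, σ₁.real {g} = u) (hup : 0 < u)

/-- the norm sum is small -/
lemma small_sum (F : Finset Γ) (ν νs : Γ → ℝ) (hν0 : ∀ y, 0 ≤ ν y) (hν1 : ∑ y ∈ F, ν y = 1)
    (T : Finset Γ) {κ : ℝ} (hκ : 0 < κ)
    (hT : ∀ τ ∈ T, ∃ a ∈ F, ∃ b ∈ F, a⁻¹ * b = τ ∧ κ ≤ ν a * ν b) (hFn : F.Nonempty) {c : ℝ}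
    (hc : 0 < c) (hc1 : c ≤ 1)
    (hgr : ∀ r : ℕ, 1 ≤ r → c * (r : ℝ) ^ 5 ≤ ((((insert 1 T : Finset Γ) ^ r).card : ℕ) : ℝ))
    {ε b q s : ℝ} (hε0 : 0 ≤ ε) (hε : ε ≤ 1 / 2) (hb : 0 ≤ b) (hs0 : ∀ y ∈ F, 0 ≤ νs y)
    (hs1 : ∑ y ∈ F, νs y ≤ 1) (h : ∀ y ∈ F, ν y ≤ ε * νs y + b) (hq0 : 0 ≤ q) (hq2 : q ≤ 1 / 2)
    (hqε : ε ≤ q ^ 2) (hqs : 2 * q ≤ s / 3) (K : ℕ)
    (hK : ∀ N, ∑ k ∈ range N, (if k < K then 0 else
      (20 / (κ * (c / 2) ^ (2 / 5 : ℝ))) ^ (5 / 4 : ℝ) *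
      (1 / ((k + 1 : ℕ) : ℝ) ^ (5 / 4 : ℝ))) ≤ s / 3) (hKb : K * √(2 * b) ≤ s / 3) (N : ℕ) :
    ∑ k ∈ range N, √(ak F ν (k + 1)) ≤ s := by
  set Cε := (20 / (κ * (c / 2) ^ (2 / 5 : ℝ))) ^ (5 / 4 : ℝ) with hCε
  have hCε0 : 0 ≤ Cε := by positivity
  have hk : ∀ k, √(ak F ν (k + 1)) ≤ q ^ (k + 1) + ((if k < K then √(2 * b) else 0) +
      (if k < K then 0 else Cε * (1 / ((k + 1 : ℕ) : ℝ) ^ (5 / 4 : ℝ)))) := by
    intro k
    by_cases hkK : k < K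
    · rw [if_pos hkK, if_pos hkK, add_zero]
      have h1 : ak F ν (k + 1) ≤ ε ^ (k + 1) + 2 * b :=
        ak_le_of_sup F ν (fun y _ => hν0 y) hν1 (k + 1)
          (fk_sup F ν (fun y _ => hν0 y) hν1 hε0 hε hb hs0 hs1 h (k + 1))
      have h2 : ε ^ (k + 1) ≤ (q ^ (k + 1)) ^ 2 := by
        rw [← pow_mul, mul_comm (k + 1) 2, pow_mul]
        exact pow_le_pow_left₀ hε0 hqε _
      have h3 : √(ak F ν (k + 1)) ≤ √((q ^ (k + 1) + √(2 * b)) ^ 2) := by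
        refine Real.sqrt_le_sqrt ?_
        have h4 : √(2 * b) ^ 2 = 2 * b := Real.sq_sqrt (by positivity)
        have h5 : 0 ≤ q ^ (k + 1) := pow_nonneg hq0 _
        have h6 : 0 ≤ √(2 * b) := Real.sqrt_nonneg _
        nlinarith [mul_nonneg h5 h6]
      rwa [Real.sqrt_sq (by positivity)] at h3
    · rw [if_neg hkK, if_neg hkK, zero_add]
      have h1 := sqrt_decay F ν (fun y _ => hν0 y) hν1 T hκ hT hFn hc hc1 hgr (k + 1) (by omega)
      have h5 : 0 ≤ q ^ (k + 1) := pow_nonneg hq0 _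
      linarith
  calc ∑ k ∈ range N, √(ak F ν (k + 1)) ≤ ∑ k ∈ range N, (q ^ (k + 1) +
      ((if k < K then √(2 * b) else 0) +
      (if k < K then 0 else Cε * (1 / ((k + 1 : ℕ) : ℝ) ^ (5 / 4 : ℝ))))) :=
        Finset.sum_le_sum fun k _ => hk k
    _ = ∑ k ∈ range N, q ^ (k + 1) + (∑ k ∈ range N, (if k < K then √(2 * b) else 0) +
        ∑ k ∈ range N, (if k < K then 0 else Cε * (1 / ((k + 1 : ℕ) : ℝ) ^ (5 / 4 : ℝ)))) := by
        rw [Finset.sum_add_distrib, Finset.sum_add_distrib]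
    _ ≤ s / 3 + (s / 3 + s / 3) := by
        have h1 := sum_pow_le N hq0 hq2
        have h2 := sum_ite_le N K (Real.sqrt_nonneg (2 * b))
        have h3 := hK N
        linarith
    _ = s := by ring

include hu hup in
/-- the main step -/
theorem main_core (hu1' : u ≤ 1) (hu1 : ∑ y ∈ S, (fun _ : Γ => u) y = 1)
    (hS : ∀ y ∈ S, y⁻¹ ∈ S) (hgen : Subgroup.closure (S : Set Γ) = ⊤) (hSne : S.Nonempty)
    {c : ℝ} (hc : 0 < c) (hc1 : c ≤ 1)
    (hgr : ∀ r : ℕ, 1 ≤ r → c * (r : ℝ) ^ 5 ≤ ((((insert 1 S : Finset Γ) ^ r).card : ℕ) : ℝ))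
    (H : Subgroup Γ) [H.FiniteIndex] (N P : Set Γ) (h : Γ)
    (hP1 : (1 : Γ) ∉ P) (hPm : ∀ a ∈ P, ∀ b ∈ P, a * b ∈ P)
    (hHN : ∀ x ∈ H, x ∈ N ∨ x⁻¹ ∈ N) (hNP : ∀ x ∈ N, x * h ∈ P)
    (hArch : ∀ T : Finset Γ, (∀ τ ∈ T, τ ∈ H) → ∃ g, ∀ τ ∈ insert 1 T, g * τ ∈ P)
    {ρ0 : ℝ} (hρ0 : 0 < ρ0) :
    ∃ L : ℕ, ∀ (E : Type) [MeasurableSpace E] (σ : Measure E) [IsProbabilityMeasure σ]
      (Ev : Γ → Set E) (ρ : ℝ), ρ0 ≤ ρ → (∀ y, MeasurableSet (Ev y)) →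
      (∀ y, σ.real (Ev y) = ρ * hit σ₁ (2 * L) y) →
      (∀ y y', p2 Ev σ y y' = ρ * (Pm σ₁ : Measure (ℕ → S)).real
        ({s | ∃ j ≤ 2 * L, Wk s 0 j = y} ∩ {s | ∃ j ≤ 2 * L, Wk s 0 j = y'})) →
      0 < Pm σ {ω : Γ → E | ∀ R : Set Γ, (1 : Γ) ∈ R →
        (∀ z ∈ R, ∀ y, ω z ∈ Ev y → z * y ∈ R) → R.Infinite} := by
  obtain ⟨Tr, hTr1, hTr⟩ := transversal H
  set T := Tg H S Tr with hTdef
  obtain ⟨g, hg⟩ := hArch T (Tg_mem H S Tr)
  set Sp : Finset Γ := (insert 1 T).image (fun τ => g * τ) with hSpdef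
  have hSpn : Sp.Nonempty := Finset.Nonempty.image ⟨1, Finset.mem_insert_self _ _⟩ _
  have hSpP : ∀ y ∈ Sp, y ∈ P := by
    intro y hy
    obtain ⟨τ, hτ, rfl⟩ := Finset.mem_image.1 hy
    exact hg τ hτ
  have hTrc : (1 : ℝ) ≤ Tr.card := by exact_mod_cast Finset.card_pos.2 ⟨1, hTr1⟩
  set cT := c / (32 * (Tr.card : ℝ)) with hcT
  have hcT0 : 0 < cT := by positivity
  have hcT1 : cT ≤ 1 := by
    rw [hcT, div_le_one (by positivity)]
    linarith
  have hgrT := growthT (S := S) H Tr hTr1 hTr hc hc1 hgr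
  -- Green function
  have hgr2 : ∀ r : ℕ, 1 ≤ r → c / 2 * (r : ℝ) ^ 5 ≤
      ((((insert 1 (S⁻¹ * S) : Finset Γ) ^ r).card : ℕ) : ℝ) := by
    intro r hr
    have h1 := hgr r hr
    have h2 : ((((insert 1 S : Finset Γ) ^ r).card : ℕ) : ℝ) ≤
        2 * ((((insert 1 (S⁻¹ * S) : Finset Γ) ^ r).card : ℕ) : ℝ) := by
      exact_mod_cast growth_even S hS hSne r
    linarith
  obtain ⟨G, hG1, hG⟩ := green S (fun _ => u) (fun _ => rfl) hS (fun _ _ => hup.le) hu1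
    (S⁻¹ * S) (κ := u * u) (by positivity) (fun τ hτ => by
      obtain ⟨a, ha, b, hb, hab⟩ := Finset.mem_mul.1 hτ
      exact ⟨a⁻¹, by rwa [Finset.mem_inv'] at ha, b, hb, by rw [inv_inv]; exact hab, le_rfl⟩)
    hSne (c := c / 2) (by positivity) (by linarith) hgr2
  have hG0 : 0 < G := by linarith
  obtain ⟨c', hc', L0, hL0⟩ := Q_lower (S := S) hup hu1' hS hgen hu1 (H : Set Γ) N P h hHN hNP
    Tr hTr1 hTr
  obtain ⟨cS, L1, hcS, hcS1⟩ := cS_ex (S := S) hup hS hgen Sp hSpn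
  set C1 := G / c' with hC1
  have hC1p : 0 < C1 := by positivity
  set M1 := 1 / cS + 3 * C1 with hM1
  have hM1p : 0 < M1 := by positivity
  set A0 := M1 ^ 2 / ρ0 with hA0
  have hA0p : 0 < A0 := by positivity
  set s := 1 / (16 * (A0 + 1)) with hs
  have hsp : 0 < s := by positivity
  have hs1 : s ≤ 1 / 16 := by
    rw [hs]
    exact one_div_le_one_div_of_le (by norm_num) (by linarith)
  set q := s / 6 with hq
  have hqp : 0 < q := by positivity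
  set ε := min (1 / 2) (min (ρ0 * cS / 8) (q ^ 2)) with hε
  have hεp : 0 < ε := by
    rw [hε]
    refine lt_min (by norm_num) (lt_min (by positivity) (by positivity))
  have hε2 : ε ≤ 1 / 2 := min_le_left _ _
  have hε3 : ε ≤ ρ0 * cS / 8 := (min_le_right _ _).trans (min_le_left _ _)
  have hε4 : ε ≤ q ^ 2 := (min_le_right _ _).trans (min_le_right _ _)
  have hSc : (0 : ℝ) < Sp.card := by exact_mod_cast hSpn.card_pos
  set κ := ε / Sp.card * (ε / Sp.card) with hκ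
  have hκp : 0 < κ := by positivity
  obtain ⟨K, hK⟩ := choose_K (C := (20 / (κ * (cT / 2) ^ (2 / 5 : ℝ))) ^ (5 / 4 : ℝ))
    (δ' := s / 3) (by positivity) (by positivity)
  set β := min ((s / (3 * ((K : ℝ) + 1))) ^ 2 / 2) (ρ0 / 8) with hβ
  have hβp : 0 < β := lt_min (by positivity) (by positivity)
  obtain ⟨L2, hL2⟩ := exists_nat_ge (C1 / β)
  set L := L0 + L1 + L2 + 1 with hL
  have hL1' : 1 ≤ L := by omega
  have hLp : (0 : ℝ) < L := by exact_mod_cast hL1'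
  have hCL : C1 / L ≤ β := by
    have h1 : (L2 : ℝ) ≤ L := by exact_mod_cast (show L2 ≤ L by omega)
    rw [div_le_iff₀ hLp]
    rw [div_le_iff₀ hβp] at hL2
    nlinarith
  have hHLge := hL0 L (by omega)
  have hHL0 : 0 < ∑ s ∈ Ico L (2 * L), Qm S u s P := lt_of_lt_of_le (by positivity) hHLge
  have hHL : G ≤ C1 / L * ∑ s ∈ Ico L (2 * L), Qm S u s P := by
    calc G = C1 / L * (c' * L) := by rw [hC1]; field_simp
      _ ≤ _ := mul_le_mul_of_nonneg_left hHLge (by positivity)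
  have hcS2 : ∀ y ∈ Sp, cS ≤ hit σ₁ (2 * L) y := by
    intro y hy
    obtain ⟨j, hj, hjc⟩ := hcS1 y hy
    exact hjc.trans (hit_ge σ₁ hu (2 * L) (by omega) y)
  obtain ⟨F, ν, νs, hF, hν0, hν1, hhit, hr, hνle, hs0, hs1', hSpF, hSpν⟩ :=
    pre σ₁ hu hup hG P Sp hSpP hSpn L hL1' hεp hε2 hcS hcS2 hC1p.le hHL0 hHL
  refine ⟨L, ?_⟩
  intro E _ σ _ Ev ρ hρ hEvm hEv hp2
  have hρp : 0 < ρ := lt_of_lt_of_le hρ0 hρ
  have hFn : F.Nonempty := hSpn.mono hSpF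
  have hsum : ∀ N, ∑ k ∈ range N, √(ak F ν (k + 1)) ≤ s := by
    refine small_sum F ν νs hν0 hν1 T hκp ?_ hFn hcT0 hcT1 hgrT hεp.le hε2
      (b := C1 / L) (by positivity) (fun y _ => hs0 y) hs1' hνle hqp.le (by linarith) hε4
      (by rw [hq]; linarith) K hK ?_
    · intro τ hτ
      have m1 : g ∈ Sp := Finset.mem_image.2 ⟨1, Finset.mem_insert_self _ _, mul_one g⟩
      have m2 : g * τ ∈ Sp := Finset.mem_image.2 ⟨τ, Finset.mem_insert_of_mem hτ, rfl⟩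
      refine ⟨g, hSpF m1, g * τ, hSpF m2, by rw [inv_mul_cancel_left], ?_⟩
      exact mul_le_mul (hSpν g m1) (hSpν _ m2) (by positivity) (hν0 _)
    · have h1 : 2 * (C1 / L) ≤ (s / (3 * ((K : ℝ) + 1))) ^ 2 := by
        have := hCL.trans (min_le_left _ _)
        linarith
      have h2 : √(2 * (C1 / L)) ≤ s / (3 * ((K : ℝ) + 1)) := by
        rw [show s / (3 * ((K : ℝ) + 1)) = √((s / (3 * ((K : ℝ) + 1))) ^ 2) from
          (Real.sqrt_sq (by positivity)).symm]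
        exact Real.sqrt_le_sqrt h1
      calc (K : ℝ) * √(2 * (C1 / L)) ≤ K * (s / (3 * ((K : ℝ) + 1))) := by gcongr
        _ = (K / ((K : ℝ) + 1)) * (s / 3) := by field_simp
        _ ≤ 1 * (s / 3) := by
            refine mul_le_mul_of_nonneg_right ?_ (by positivity)
            rw [div_le_one (by positivity)]
            linarith
        _ = s / 3 := one_mul _
  have hp : ∀ y ∈ F, 0 < σ.real (Ev y) := fun y hy => by
    rw [hEv]
    exact mul_pos hρp (hhit y hy)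
  set w : Γ → ℝ := fun y => ν y / σ.real (Ev y) with hw
  set r : Γ → ℝ := fun y => ν y / hit σ₁ (2 * L) y with hrd
  have hwr : ∀ y, w y = r y / ρ := by
    intro y
    simp only [hw, hrd]
    rw [hEv, div_div, mul_comm]
  have hr0 : ∀ y ∈ F, 0 ≤ r y := fun y hy => div_nonneg (hν0 y) (hhit y hy).le
  have hA : ∑ y ∈ F, ∑ y' ∈ F, w y * w y' * p2 Ev σ y y' ≤ A0 := by
    have e : ∑ y ∈ F, ∑ y' ∈ F, w y * w y' * p2 Ev σ y y' = 1 / ρ *
        ∑ y ∈ F, ∑ y' ∈ F, r y * r y' * (Pm σ₁ : Measure (ℕ → S)).real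
        ({s | ∃ j ≤ 2 * L, Wk s 0 j = y} ∩ {s | ∃ j ≤ 2 * L, Wk s 0 j = y'}) := by
      rw [Finset.mul_sum]
      refine Finset.sum_congr rfl fun y _ => ?_
      rw [Finset.mul_sum]
      refine Finset.sum_congr rfl fun y' _ => ?_
      rw [hwr, hwr, hp2]
      field_simp
    rw [e]
    have h1 := range_bound σ₁ L F r νs (a := ε / cS) (b := C1 / L) (by positivity)
      (by positivity) hr0 hr hs0 hs1'
    have h2 : ε / cS + (2 * L + 1) * (C1 / L) ≤ M1 := by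
      have a1 : ε / cS ≤ 1 / cS := by
        gcongr
        linarith
      have a2 : (2 * (L : ℝ) + 1) * (C1 / L) ≤ 3 * C1 := by
        have hL1r : (1 : ℝ) ≤ L := by exact_mod_cast hL1'
        rw [← mul_div_assoc, div_le_iff₀ hLp]
        nlinarith
      linarith
    have h3 : (ε / cS + (2 * L + 1) * (C1 / L)) ^ 2 ≤ M1 ^ 2 :=
      pow_le_pow_left₀ (by positivity) h2 2
    calc 1 / ρ * _ ≤ 1 / ρ * M1 ^ 2 := mul_le_mul_of_nonneg_left (h1.trans h3) (by positivity)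
      _ ≤ 1 / ρ0 * M1 ^ 2 := by
          refine mul_le_mul_of_nonneg_right ?_ (by positivity)
          exact one_div_le_one_div_of_le hρ0 hρ
      _ = A0 := by rw [hA0]; ring
  have hνs1 : ∀ y ∈ F, νs y ≤ 1 := fun y hy =>
    (Finset.single_le_sum (f := νs) (fun y _ => hs0 y) hy).trans hs1'
  have hAd : ∑ y ∈ F, w y * w y * p2 Ev σ y y ≤ 1 / 4 := by
    have e : ∀ y ∈ F, w y * w y * p2 Ev σ y y ≤ 1 / ρ0 * (ρ0 / 8 + ρ0 / 8) * ν y := by
      intro y hy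
      have hh := hhit y hy
      rw [hp2, Set.inter_self]
      have e1 : w y * w y * (ρ * (Pm σ₁ : Measure (ℕ → S)).real {s | ∃ j ≤ 2 * L, Wk s 0 j = y}) =
          1 / ρ * r y * ν y := by
        rw [hwr]
        have e2 : (Pm σ₁ : Measure (ℕ → S)).real {s | ∃ j ≤ 2 * L, Wk s 0 j = y} =
          hit σ₁ (2 * L) y := rfl
        rw [e2]
        have e3 : r y * hit σ₁ (2 * L) y = ν y := by
          simp only [hrd]
          field_simp
        calc r y / ρ * (r y / ρ) * (ρ * hit σ₁ (2 * L) y) =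
            1 / ρ * r y * (r y * hit σ₁ (2 * L) y) := by field_simp
          _ = _ := by rw [e3]
      rw [e1]
      refine mul_le_mul_of_nonneg_right ?_ (hν0 y)
      have a1 : r y ≤ ρ0 / 8 + ρ0 / 8 := by
        have b1 := hr y hy
        have b2 : ε / cS * νs y ≤ ρ0 / 8 := by
          have b3 : ε / cS ≤ ρ0 / 8 := by
            rw [div_le_iff₀ hcS]
            linarith
          calc ε / cS * νs y ≤ ε / cS * 1 :=
                mul_le_mul_of_nonneg_left (hνs1 y hy) (by positivity)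
            _ ≤ _ := by rw [mul_one]; exact b3
        have b4 : C1 / L ≤ ρ0 / 8 := hCL.trans (min_le_right _ _)
        exact b1.trans (add_le_add b2 b4)
      calc 1 / ρ * r y ≤ 1 / ρ0 * r y :=
            mul_le_mul_of_nonneg_right (one_div_le_one_div_of_le hρ0 hρ) (hr0 y hy)
        _ ≤ _ := mul_le_mul_of_nonneg_left a1 (by positivity)
    calc ∑ y ∈ F, w y * w y * p2 Ev σ y y ≤ ∑ y ∈ F, 1 / ρ0 * (ρ0 / 8 + ρ0 / 8) * ν y :=
          Finset.sum_le_sum e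
      _ = 1 / 4 := by
          rw [← Finset.mul_sum, hν1, mul_one]
          have : 1 / ρ0 * (ρ0 / 8 + ρ0 / 8) = (ρ0 / ρ0) * (1 / 4) := by ring
          rw [this, div_self hρ0.ne', one_mul]
  have h12 : ((1 + s) ^ 2 - 1) * A0 + 1 / 4 ≤ 1 / 2 := by
    have h1 : (1 + s) ^ 2 - 1 ≤ 3 * s := by nlinarith
    have h2 : 3 * s * A0 ≤ 3 / 16 := by
      have : s * (16 * (A0 + 1)) = 1 := by rw [hs]; field_simp
      nlinarith
    have h3 := mul_le_mul_of_nonneg_right h1 hA0p.le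
    linarith
  have hmain := surv_all (Ev := Ev) (F := F) (w := w) (σ := σ) (hEv := hEvm) (hP1 := hP1)
    (hPm := hPm) (hF := hF) (hν0 := fun y _ => hν0 y) (hν1 := hν1) (hp := hp) (hw := fun y => rfl)
    (m := mk F ν) (hm0 := mk_nonneg F ν (fun y _ => hν0 y))
    (hmL := mk_L F ν (fun y _ => hν0 y)) (hmR := mk_R F ν (fun y _ => hν0 y))
    (hmd := mk_diag F ν (fun y _ => hν0 y)) (δ := (1 + s) ^ 2 - 1)
    (hms := fun n l a b => by
      have := mk_le F ν hsum n l a b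
      by_cases hab : a = b
      · rw [if_pos hab] at this
        rw [if_pos hab]
        exact this
      · rw [if_neg hab] at this
        rw [if_neg hab]
        exact this) hA hAd (by nlinarith) h12 hA0p.le (1 : Γ)
  refine lt_of_lt_of_le hmain (measure_mono ?_)
  intro ω hω R hR1 hR
  exact infinite_of_pos Ev F w (fun y hy => div_nonneg (hν0 y) (hp y hy).le) hP1 hPm hF ω 1 hω R
    hR1 (fun z hz y _ hy => hR z hz y hy)

end Core2

end Pool.Agent.K9h18.FG
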