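import Mathlib

set_option autoImplicit false
set_option linter.unusedSectionVars false
set_option linter.unusedVariables false

/-!
Convolution powers of a finitely supported probability on a group and the Nash inequality.
-/

namespace Pool.Agent.K9h18.FG

open Function Finset
open scoped Pointwise

theorem recur (c α : ℝ) (hc : 0 < c) (hα : 0 < α) (hα1 : α ≤ 1) (a : ℕ → ℝ) (ha : ∀ n, 0 ≤ a n)
    (h : ∀ n, a (n + 1) ≤ a n - c * a n ^ (1 + α)) (n : ℕ) :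
    a n ^ α * (α * c * n) ≤ 1 := by
  induction n with
  | zero => simp
  | succ n ih =>
    rcases (ha n).eq_or_lt with h0 | h0
    · have h1 := h n
      rw [← h0, Real.zero_rpow (by positivity)] at h1
      have h2 : a (n + 1) = 0 := le_antisymm (by linarith) (ha _)
      rw [h2, Real.zero_rpow hα.ne']
      simp
    · set y := a n ^ α with hy
      have hy0 : 0 < y := Real.rpow_pos_of_pos h0 α
      have e1 : a n ^ (1 + α) = a n * y := by
        rw [Real.rpow_add h0, Real.rpow_one]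
      have h1 : a (n + 1) ≤ a n * (1 - c * y) := by
        have := h n
        rw [e1] at this
        linarith
      have h2 : 0 ≤ 1 - c * y := by
        by_contra h3
        push Not at h3
        have := ha (n + 1)
        nlinarith
      have h4 : a (n + 1) ^ α ≤ y * (1 - c * y) ^ α := by
        refine (Real.rpow_le_rpow (ha _) h1 hα.le).trans ?_
        rw [Real.mul_rpow h0.le h2]
      have h5 : (1 - c * y) ^ α ≤ 1 - α * (c * y) := by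
        have := rpow_one_add_le_one_add_mul_self (s := -(c * y)) (by linarith) hα.le hα1
        calc (1 - c * y) ^ α = (1 + -(c * y)) ^ α := by ring_nf
          _ ≤ 1 + α * -(c * y) := this
          _ = _ := by ring
      have h6 : a (n + 1) ^ α ≤ y * (1 - α * (c * y)) :=
        h4.trans (mul_le_mul_of_nonneg_left h5 hy0.le)
      set t := α * c * y with ht
      have ht0 : 0 ≤ t := by positivity
      have ht1 : t ≤ 1 := by
        have : α * (c * y) ≤ 1 * 1 := mul_le_mul hα1 (by linarith) (by positivity) (by norm_num)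
        rw [ht]; linarith
      have ih' : t * n ≤ 1 := by
        rw [ht]
        calc α * c * y * n = y * (α * c * n) := by ring
          _ ≤ 1 := ih
      push_cast
      have h7 : a (n + 1) ^ α * (α * c * ((n : ℝ) + 1)) ≤
          y * (1 - α * (c * y)) * (α * c * ((n : ℝ) + 1)) :=
        mul_le_mul_of_nonneg_right h6 (by positivity)
      refine h7.trans ?_
      have e2 : y * (1 - α * (c * y)) * (α * c * ((n : ℝ) + 1)) = t * (1 - t) * ((n : ℝ) + 1) := by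
        rw [ht]; ring
      rw [e2]
      have hn0 : (0 : ℝ) ≤ n := Nat.cast_nonneg n
      nlinarith [mul_nonneg (sub_nonneg.2 ih') (sub_nonneg.2 ht1), sq_nonneg t]

/-! ### the walk -/

variable {d L : ℕ} [NeZero L]


section Cv

variable {Γ : Type} [Group Γ]

/-- finite support -/
def Fs (f : Γ → ℝ) : Prop := (support f).Finite

lemma Fs.sm {f : Γ → ℝ} (h : Fs f) : Summable f := summable_of_hasFiniteSupport h

lemma Fs.mono {f g : Γ → ℝ} (h : Fs f) (hg : ∀ x, f x = 0 → g x = 0) : Fs g :=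
  Set.Finite.subset h fun x hx hx' => hx (hg x hx')

lemma Fs.shift {f : Γ → ℝ} (h : Fs f) (y : Γ) : Fs fun x => f (y * x) := by
  have : (support fun x => f (y * x)) = (fun x => y * x) ⁻¹' support f := rfl
  unfold Fs
  rw [this]
  exact Set.Finite.preimage (mul_right_injective y).injOn h

lemma Fs.shiftR {f : Γ → ℝ} (h : Fs f) (y : Γ) : Fs fun x => f (x * y) := by
  have : (support fun x => f (x * y)) = (fun x => x * y) ⁻¹' support f := rfl
  unfold Fs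
  rw [this]
  exact Set.Finite.preimage (mul_left_injective y).injOn h

lemma Fs.add {f g : Γ → ℝ} (h : Fs f) (h' : Fs g) : Fs fun x => f x + g x :=
  Set.Finite.subset (Set.Finite.union h h') fun x hx => by
    by_contra hc
    simp only [Set.mem_union, mem_support, not_or, not_not] at hc
    exact hx (by show f x + g x = 0; rw [hc.1, hc.2, add_zero])

lemma Fs.sub {f g : Γ → ℝ} (h : Fs f) (h' : Fs g) : Fs fun x => f x - g x :=
  Set.Finite.subset (Set.Finite.union h h') fun x hx => by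
    by_contra hc
    simp only [Set.mem_union, mem_support, not_or, not_not] at hc
    exact hx (by show f x - g x = 0; rw [hc.1, hc.2, sub_zero])

lemma Fs.sq {f : Γ → ℝ} (h : Fs f) : Fs fun x => f x ^ 2 :=
  h.mono fun x hx => by rw [hx]; norm_num

lemma Fs.mul {f : Γ → ℝ} (h : Fs f) (g : Γ → ℝ) : Fs fun x => f x * g x :=
  h.mono fun x hx => by rw [hx, zero_mul]

lemma Fs.cmul {f : Γ → ℝ} (h : Fs f) (c : ℝ) : Fs fun x => c * f x :=
  h.mono fun x hx => by rw [hx, mul_zero]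

lemma Fs.sum {ι : Type} {s : Finset ι} {f : ι → Γ → ℝ} (h : ∀ i ∈ s, Fs (f i)) :
    Fs fun x => ∑ i ∈ s, f i x := by
  classical
  refine Set.Finite.subset (Set.Finite.biUnion s.finite_toSet (t := fun i => support (f i))
    fun i hi => h i hi) fun x hx => ?_
  by_contra hc
  simp only [Set.mem_iUnion, mem_support, not_exists, not_not] at hc
  exact hx (Finset.sum_eq_zero fun i hi => hc i hi)

/-- energy of a shift -/
noncomputable def En (f : Γ → ℝ) (z : Γ) : ℝ := ∑' x, (f x - f (z⁻¹ * x)) ^ 2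

lemma tsum_shift (f : Γ → ℝ) (y : Γ) : ∑' x, f (y * x) = ∑' x, f x :=
  (Equiv.mulLeft y).tsum_eq f

lemma tsum_shiftR (f : Γ → ℝ) (y : Γ) : ∑' x, f (x * y) = ∑' x, f x :=
  (Equiv.mulRight y).tsum_eq f

lemma diff_shift (f : Γ → ℝ) (g g' : Γ) :
    ∑' x, (f (g⁻¹ * x) - f (g'⁻¹ * x)) ^ 2 = En f (g⁻¹ * g') := by
  rw [← tsum_shift (fun x => (f (g⁻¹ * x) - f (g'⁻¹ * x)) ^ 2) g]
  unfold En
  refine tsum_congr fun x => ?_
  rw [inv_mul_cancel_left]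
  congr 3
  group

variable (F : Finset Γ) (ν : Γ → ℝ)

/-- convolution -/
def Lf (f : Γ → ℝ) (x : Γ) : ℝ := ∑ y ∈ F, ν y * f (y⁻¹ * x)

lemma Fs.Lf {f : Γ → ℝ} (h : Fs f) : Fs (Lf F ν f) :=
  Fs.sum fun y _ => (h.shift y⁻¹).cmul (ν y)

lemma sq_avg (g : Γ → ℝ) (hν0 : ∀ y ∈ F, 0 ≤ ν y) (hν1 : ∑ y ∈ F, ν y = 1) {a b : Γ}
    (ha : a ∈ F) (hb : b ∈ F) : (∑ y ∈ F, ν y * g y) ^ 2 ≤
      ∑ y ∈ F, ν y * g y ^ 2 - 1 / 2 * (ν a * ν b) * (g a - g b) ^ 2 := by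
  have key : ∑ y ∈ F, ∑ z ∈ F, ν y * ν z * (g y - g z) ^ 2 =
      2 * ∑ y ∈ F, ν y * g y ^ 2 - 2 * (∑ y ∈ F, ν y * g y) ^ 2 := by
    have e : ∀ y z, ν y * ν z * (g y - g z) ^ 2 = (ν y * g y ^ 2) * ν z
        - 2 * ((ν y * g y) * (ν z * g z)) + ν y * (ν z * g z ^ 2) := fun y z => by ring
    simp_rw [e, Finset.sum_add_distrib, Finset.sum_sub_distrib, ← Finset.mul_sum,
      ← Finset.sum_mul, hν1]
    ring
  have hs : ν a * ν b * (g a - g b) ^ 2 ≤ ∑ y ∈ F, ∑ z ∈ F, ν y * ν z * (g y - g z) ^ 2 := by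
    refine le_trans ?_ (Finset.single_le_sum (f := fun y => ∑ z ∈ F, ν y * ν z * (g y - g z) ^ 2)
      (fun y hy => Finset.sum_nonneg fun z hz => mul_nonneg (mul_nonneg (hν0 y hy) (hν0 z hz))
        (sq_nonneg _)) ha)
    exact Finset.single_le_sum (f := fun z => ν a * ν z * (g a - g z) ^ 2)
      (fun z hz => mul_nonneg (mul_nonneg (hν0 a ha) (hν0 z hz)) (sq_nonneg _)) hb
  rw [key] at hs
  linarith

lemma energy (hν0 : ∀ y ∈ F, 0 ≤ ν y) (hν1 : ∑ y ∈ F, ν y = 1) {f : Γ → ℝ} (hf : Fs f) {a b : Γ}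
    (ha : a ∈ F) (hb : b ∈ F) :
    ∑' x, Lf F ν f x ^ 2 ≤ ∑' x, f x ^ 2 - 1 / 2 * (ν a * ν b) * En f (a⁻¹ * b) := by
  have h1 : ∀ x, Lf F ν f x ^ 2 ≤ ∑ y ∈ F, ν y * f (y⁻¹ * x) ^ 2 -
      1 / 2 * (ν a * ν b) * (f (a⁻¹ * x) - f (b⁻¹ * x)) ^ 2 := fun x =>
    sq_avg F ν (fun y => f (y⁻¹ * x)) hν0 hν1 ha hb
  have hs1 : ∀ y, Fs fun x => ν y * f (y⁻¹ * x) ^ 2 := fun y => ((hf.shift y⁻¹).sq).cmul (ν y)
  have hs2 : Fs fun x => ∑ y ∈ F, ν y * f (y⁻¹ * x) ^ 2 := Fs.sum fun y _ => hs1 y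
  have hs3 : Fs fun x => 1 / 2 * (ν a * ν b) * (f (a⁻¹ * x) - f (b⁻¹ * x)) ^ 2 :=
    (((hf.shift a⁻¹).sub (hf.shift b⁻¹)).sq).cmul _
  calc ∑' x, Lf F ν f x ^ 2 ≤ ∑' x, (∑ y ∈ F, ν y * f (y⁻¹ * x) ^ 2 -
      1 / 2 * (ν a * ν b) * (f (a⁻¹ * x) - f (b⁻¹ * x)) ^ 2) :=
        Summable.tsum_le_tsum h1 (hf.Lf F ν).sq.sm (hs2.sub hs3).sm
    _ = ∑ y ∈ F, ν y * ∑' x, f x ^ 2 - 1 / 2 * (ν a * ν b) * En f (a⁻¹ * b) := by
        rw [Summable.tsum_sub hs2.sm hs3.sm, Summable.tsum_finsetSum fun y _ => (hs1 y).sm,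
          tsum_mul_left, diff_shift]
        congr 1
        refine Finset.sum_congr rfl fun y _ => ?_
        rw [tsum_mul_left, tsum_shift (fun x => f x ^ 2) y⁻¹]
    _ = _ := by rw [← Finset.sum_mul, hν1, one_mul]

lemma inner_shift {f : Γ → ℝ} (hf : Fs f) (z : Γ) :
    ∑' x, f x * f (z⁻¹ * x) = ∑' x, f x ^ 2 - 1 / 2 * En f z := by
  have e : En f z = ∑' x, f x ^ 2 - 2 * ∑' x, f x * f (z⁻¹ * x) + ∑' x, f x ^ 2 := by
    unfold En
    have e1 : ∀ x, (f x - f (z⁻¹ * x)) ^ 2 = f x ^ 2 - 2 * (f x * f (z⁻¹ * x)) +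
        f (z⁻¹ * x) ^ 2 := fun x => by ring
    simp_rw [e1]
    rw [Summable.tsum_add ((hf.sq.sub ((hf.mul _).cmul 2)).sm) ((hf.shift z⁻¹).sq).sm,
      Summable.tsum_sub hf.sq.sm ((hf.mul _).cmul 2).sm, tsum_mul_left,
      tsum_shift (fun x => f x ^ 2) z⁻¹]
  linarith

lemma sum_shift_le {f : Γ → ℝ} (hf : Fs f) (hf0 : ∀ x, 0 ≤ f x) (B : Finset Γ) (x : Γ) :
    ∑ z ∈ B, f (z⁻¹ * x) ≤ ∑' x, f x := by
  have e : ∑' z, f (z⁻¹ * x) = ∑' x, f x :=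
    ((Equiv.inv Γ).trans (Equiv.mulRight x)).tsum_eq f
  rw [← e]
  refine Summable.sum_le_tsum B (fun z _ => hf0 _) ?_
  exact (((Equiv.inv Γ).trans (Equiv.mulRight x)).summable_iff (f := f)).2 hf.sm

lemma sum_inner_le {f : Γ → ℝ} (hf : Fs f) (hf0 : ∀ x, 0 ≤ f x) (hf1 : ∑' x, f x = 1)
    (B : Finset Γ) : ∑ z ∈ B, ∑' x, f x * f (z⁻¹ * x) ≤ 1 := by
  rw [← Summable.tsum_finsetSum fun z _ => (hf.mul _).sm, ← hf1]
  refine Summable.tsum_le_tsum (fun x => ?_) (Fs.sum fun z _ => hf.mul _).sm hf.sm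
  rw [← Finset.mul_sum]
  have := sum_shift_le hf hf0 B x
  rw [hf1] at this
  calc f x * ∑ z ∈ B, f (z⁻¹ * x) ≤ f x * 1 := mul_le_mul_of_nonneg_left this (hf0 x)
    _ = f x := mul_one _

lemma En_nonneg (f : Γ → ℝ) (z : Γ) : 0 ≤ En f z := tsum_nonneg fun _ => sq_nonneg _

lemma En_one (f : Γ → ℝ) : En f 1 = 0 := by
  unfold En
  simp

lemma ball_energy [DecidableEq Γ] {f : Γ → ℝ} (hf : Fs f) (T : Finset Γ) {D : ℝ} (hD : 0 ≤ D)
    (h : ∀ τ ∈ T, En f τ ≤ D) (r : ℕ) : ∀ z ∈ (insert 1 T : Finset Γ) ^ r,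
    En f z ≤ r ^ 2 * D := by
  induction r with
  | zero =>
    intro z hz
    rw [pow_zero, Finset.mem_one] at hz
    rw [hz, En_one]
    positivity
  | succ r ih =>
    intro z hz
    rw [pow_succ, Finset.mem_mul] at hz
    obtain ⟨z', hz', τ, hτ, rfl⟩ := hz
    have h1 := ih z' hz'
    have h2 : En f τ ≤ D := by
      rcases Finset.mem_insert.1 hτ with h0 | h0
      · rw [h0, En_one]; exact hD
      · exact h τ h0
    rcases Nat.eq_zero_or_pos r with hr | hr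
    · subst hr
      rw [pow_zero, Finset.mem_one] at hz'
      rw [hz', one_mul]
      simpa using h2
    have hr' : (0 : ℝ) < r := by exact_mod_cast hr
    have e2 : ∑' x, (f (z'⁻¹ * x) - f (τ⁻¹ * (z'⁻¹ * x))) ^ 2 = En f τ :=
      tsum_shift (fun x => (f x - f (τ⁻¹ * x)) ^ 2) z'⁻¹
    have hp : ∀ x, (f x - f ((z' * τ)⁻¹ * x)) ^ 2 ≤ (1 + 1 / r) * (f x - f (z'⁻¹ * x)) ^ 2 +
        (1 + r) * (f (z'⁻¹ * x) - f (τ⁻¹ * (z'⁻¹ * x))) ^ 2 := by
      intro x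
      have e3 : (z' * τ)⁻¹ * x = τ⁻¹ * (z'⁻¹ * x) := by group
      rw [e3]
      set A := f x - f (z'⁻¹ * x)
      set C := f (z'⁻¹ * x) - f (τ⁻¹ * (z'⁻¹ * x))
      have e4 : f x - f (τ⁻¹ * (z'⁻¹ * x)) = A + C := by simp only [A, C]; ring
      rw [e4]
      have h5 : 0 ≤ (A - r * C) ^ 2 / r := by positivity
      have h6 : (A - r * C) ^ 2 / r = 1 / r * A ^ 2 - 2 * A * C + r * C ^ 2 := by
        field_simp
        ring
      nlinarith
    have s1 : Fs fun x => (1 + 1 / (r : ℝ)) * (f x - f (z'⁻¹ * x)) ^ 2 :=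
      ((hf.sub (hf.shift _)).sq).cmul _
    have s2 : Fs fun x => (1 + (r : ℝ)) * (f (z'⁻¹ * x) - f (τ⁻¹ * (z'⁻¹ * x))) ^ 2 :=
      ((((hf.sub (hf.shift τ⁻¹)).shift z'⁻¹)).sq).cmul _
    calc En f (z' * τ) ≤ ∑' x, ((1 + 1 / (r : ℝ)) * (f x - f (z'⁻¹ * x)) ^ 2 +
        (1 + r) * (f (z'⁻¹ * x) - f (τ⁻¹ * (z'⁻¹ * x))) ^ 2) :=
          Summable.tsum_le_tsum hp ((hf.sub (hf.shift _)).sq).sm (s1.add s2).sm
      _ = (1 + 1 / (r : ℝ)) * En f z' + (1 + r) * En f τ := by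
          rw [Summable.tsum_add s1.sm s2.sm, tsum_mul_left, tsum_mul_left, e2]
          rfl
      _ ≤ (1 + 1 / (r : ℝ)) * (r ^ 2 * D) + (1 + r) * D := by gcongr
      _ = _ := by
          push_cast
          field_simp
          ring

lemma nash_ineq [DecidableEq Γ] {f : Γ → ℝ} (hf : Fs f) (hf0 : ∀ x, 0 ≤ f x)
    (hf1 : ∑' x, f x = 1) (T : Finset Γ) {D : ℝ} (hD : 0 ≤ D) (h : ∀ τ ∈ T, En f τ ≤ D) (r : ℕ) :
    ∑' x, f x ^ 2 ≤ 1 / 2 * (r ^ 2 * D) + 1 / ((((insert 1 T : Finset Γ) ^ r).card : ℕ) : ℝ) := by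
  set B := (insert 1 T : Finset Γ) ^ r with hB
  have hBn : B.Nonempty := Finset.Nonempty.pow ⟨1, Finset.mem_insert_self _ _⟩
  have hc : (0 : ℝ) < (B.card : ℝ) := by exact_mod_cast hBn.card_pos
  have h1 := sum_inner_le hf hf0 hf1 B
  have h2 : (B.card : ℝ) * (∑' x, f x ^ 2 - 1 / 2 * (r ^ 2 * D)) ≤
      ∑ z ∈ B, ∑' x, f x * f (z⁻¹ * x) := by
    rw [← nsmul_eq_mul]
    refine Finset.card_nsmul_le_sum _ _ _ fun z hz => ?_
    rw [inner_shift hf]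
    have := ball_energy hf T hD h r z hz
    linarith
  have h3 : ∑' x, f x ^ 2 - 1 / 2 * (r ^ 2 * D) ≤ 1 / (B.card : ℝ) := by
    rw [le_div_iff₀ hc]
    linarith
  linarith

/-- convolution powers -/
noncomputable def fk : ℕ → Γ → ℝ
  | 0 => fun x => by classical exact if x = 1 then 1 else 0
  | k + 1 => Lf F ν (fk k)

lemma fk_zero [DecidableEq Γ] (x : Γ) : fk F ν 0 x = if x = 1 then 1 else 0 := by
  unfold fk
  split_ifs <;> rfl

lemma fk_succ (k : ℕ) (x : Γ) : fk F ν (k + 1) x = ∑ y ∈ F, ν y * fk F ν k (y⁻¹ * x) := rfl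

lemma fk_fs (k : ℕ) : Fs (fk F ν k) := by
  classical
  induction k with
  | zero =>
    refine Set.Finite.subset (Set.finite_singleton (1 : Γ)) fun x hx => ?_
    by_contra hc
    exact hx (by rw [fk_zero, if_neg (by simpa using hc)])
  | succ k ih => exact ih.Lf F ν

lemma fk_nonneg (hν0 : ∀ y ∈ F, 0 ≤ ν y) (k : ℕ) : ∀ x, 0 ≤ fk F ν k x := by
  classical
  induction k with
  | zero => intro x; rw [fk_zero]; split_ifs <;> norm_num
  | succ k ih => intro x; exact Finset.sum_nonneg fun y hy => mul_nonneg (hν0 y hy) (ih _)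

lemma fk_one (hν1 : ∑ y ∈ F, ν y = 1) (k : ℕ) : ∑' x, fk F ν k x = 1 := by
  classical
  induction k with
  | zero =>
    simp_rw [fk_zero]
    rw [tsum_ite_eq]
  | succ k ih =>
    simp_rw [fk_succ]
    rw [Summable.tsum_finsetSum fun y _ => (((fk_fs F ν k).shift y⁻¹).cmul (ν y)).sm]
    simp_rw [tsum_mul_left, tsum_shift (fk F ν k), ih, mul_one]
    exact hν1

/-- right-hand recursion -/
lemma fk_succR (k : ℕ) : ∀ x, fk F ν (k + 1) x = ∑ y ∈ F, ν y * fk F ν k (x * y⁻¹) := by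
  classical
  induction k with
  | zero =>
    intro x
    rw [fk_succ]
    refine Finset.sum_congr rfl fun y _ => ?_
    rw [fk_zero, fk_zero]
    congr 1
    have : y⁻¹ * x = 1 ↔ x * y⁻¹ = 1 := by
      rw [inv_mul_eq_one, mul_inv_eq_one, eq_comm]
    simp only [this]
  | succ k ih =>
    intro x
    rw [fk_succ]
    calc ∑ y ∈ F, ν y * fk F ν (k + 1) (y⁻¹ * x)
        = ∑ y ∈ F, ∑ z ∈ F, ν y * (ν z * fk F ν k (y⁻¹ * x * z⁻¹)) := by
          refine Finset.sum_congr rfl fun y _ => ?_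
          rw [ih, Finset.mul_sum]
      _ = ∑ y ∈ F, ∑ z ∈ F, ν y * (ν z * fk F ν k (z⁻¹ * (x * y⁻¹))) := by
          rw [Finset.sum_comm]
          refine Finset.sum_congr rfl fun y _ => Finset.sum_congr rfl fun z _ => ?_
          rw [mul_assoc]
          ring
      _ = _ := by
          refine Finset.sum_congr rfl fun y _ => ?_
          rw [fk_succ, Finset.mul_sum]

/-- squared norm -/
noncomputable def ak (k : ℕ) : ℝ := ∑' x, fk F ν k x ^ 2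

lemma ak_nonneg (k : ℕ) : 0 ≤ ak F ν k := tsum_nonneg fun _ => sq_nonneg _

lemma ak_zero : ak F ν 0 = 1 := by
  classical
  unfold ak
  simp_rw [fk_zero]
  have : ∀ x : Γ, (if x = 1 then (1 : ℝ) else 0) ^ 2 = if x = 1 then 1 else 0 := by
    intro x; split_ifs <;> norm_num
  simp_rw [this]
  rw [tsum_ite_eq]

lemma ak_le_of_sup (hν0 : ∀ y ∈ F, 0 ≤ ν y) (hν1 : ∑ y ∈ F, ν y = 1) (k : ℕ) {s : ℝ}
    (h : ∀ x, fk F ν k x ≤ s) : ak F ν k ≤ s := by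
  unfold ak
  calc ∑' x, fk F ν k x ^ 2 ≤ ∑' x, s * fk F ν k x := by
        refine Summable.tsum_le_tsum (fun x => ?_) (fk_fs F ν k).sq.sm ((fk_fs F ν k).cmul s).sm
        rw [sq]
        exact mul_le_mul_of_nonneg_right (h x) (fk_nonneg F ν hν0 k x)
    _ = s := by rw [tsum_mul_left, fk_one F ν hν1, mul_one]

lemma fk_le_one (hν0 : ∀ y ∈ F, 0 ≤ ν y) (hν1 : ∑ y ∈ F, ν y = 1) (k : ℕ) (x : Γ) :
    fk F ν k x ≤ 1 := by
  rw [← fk_one F ν hν1 k]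
  exact (fk_fs F ν k).sm.le_tsum x fun z _ => fk_nonneg F ν hν0 k z

lemma ak_le_one (hν0 : ∀ y ∈ F, 0 ≤ ν y) (hν1 : ∑ y ∈ F, ν y = 1) (k : ℕ) : ak F ν k ≤ 1 :=
  ak_le_of_sup F ν hν0 hν1 k (fk_le_one F ν hν0 hν1 k)

lemma decr [DecidableEq Γ] (hν0 : ∀ y ∈ F, 0 ≤ ν y) (hν1 : ∑ y ∈ F, ν y = 1) (T : Finset Γ)
    {κ : ℝ} (hκ : 0 < κ)
    (hT : ∀ τ ∈ T, ∃ a ∈ F, ∃ b ∈ F, a⁻¹ * b = τ ∧ κ ≤ ν a * ν b) (hFn : F.Nonempty) (k r : ℕ) :
    ak F ν k ≤ r ^ 2 * ((ak F ν k - ak F ν (k + 1)) / κ) +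
      1 / ((((insert 1 T : Finset Γ) ^ r).card : ℕ) : ℝ) := by
  have hmon : ak F ν (k + 1) ≤ ak F ν k := by
    obtain ⟨a, ha⟩ := hFn
    have := energy F ν hν0 hν1 (fk_fs F ν k) ha ha
    rw [inv_mul_cancel, En_one, mul_zero, sub_zero] at this
    exact this
  have hD : ∀ τ ∈ T, En (fk F ν k) τ ≤ 2 * ((ak F ν k - ak F ν (k + 1)) / κ) := by
    intro τ hτ
    obtain ⟨a, ha, b, hb, hab, hk⟩ := hT τ hτ
    have h1 := energy F ν hν0 hν1 (fk_fs F ν k) ha hb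
    rw [hab] at h1
    have h2 : κ * En (fk F ν k) τ ≤ ν a * ν b * En (fk F ν k) τ :=
      mul_le_mul_of_nonneg_right hk (En_nonneg _ _)
    have h3 : ak F ν (k + 1) ≤ ak F ν k - 1 / 2 * (ν a * ν b) * En (fk F ν k) τ := h1
    rw [← mul_div_assoc, le_div_iff₀ hκ]
    linarith
  have hD0 : 0 ≤ 2 * ((ak F ν k - ak F ν (k + 1)) / κ) :=
    mul_nonneg zero_le_two (div_nonneg (sub_nonneg.2 hmon) hκ.le)
  have := nash_ineq (fk_fs F ν k) (fk_nonneg F ν hν0 k) (fk_one F ν hν1 k) T hD0 hD r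
  unfold ak at this ⊢
  linarith

/-- the decay of the norms -/
theorem decay [DecidableEq Γ] (hν0 : ∀ y ∈ F, 0 ≤ ν y) (hν1 : ∑ y ∈ F, ν y = 1) (T : Finset Γ)
    {κ : ℝ} (hκ : 0 < κ)
    (hT : ∀ τ ∈ T, ∃ a ∈ F, ∃ b ∈ F, a⁻¹ * b = τ ∧ κ ≤ ν a * ν b) (hFn : F.Nonempty) {c : ℝ}
    (hc : 0 < c) (hc1 : c ≤ 1)
    (hgr : ∀ r : ℕ, 1 ≤ r → c * (r : ℝ) ^ 5 ≤ ((((insert 1 T : Finset Γ) ^ r).card : ℕ) : ℝ))
    (n : ℕ) :
    ak F ν n ^ (2 / 5 : ℝ) * (2 / 5 * (κ * (c / 2) ^ (2 / 5 : ℝ) / 8) * n) ≤ 1 := by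
  refine recur (κ * (c / 2) ^ (2 / 5 : ℝ) / 8) (2 / 5) (by positivity) (by norm_num) (by norm_num)
    (ak F ν) (ak_nonneg F ν) (fun k => ?_) n
  rcases (ak_nonneg F ν k).eq_or_lt with h0 | h0
  · have hmon : ak F ν (k + 1) ≤ ak F ν k := by
      obtain ⟨a, ha⟩ := hFn
      have := energy F ν hν0 hν1 (fk_fs F ν k) ha ha
      rw [inv_mul_cancel, En_one, mul_zero, sub_zero] at this
      exact this
    rw [← h0, Real.zero_rpow (by norm_num)]
    rw [← h0] at hmon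
    simpa using hmon
  set a := ak F ν k with ha
  have ha1 : a ≤ 1 := ak_le_one F ν hν0 hν1 k
  set q : ℝ := (2 / (c * a)) ^ (1 / 5 : ℝ) with hq
  have hca : 0 < c * a := mul_pos hc h0
  have hca1 : c * a ≤ 1 := by nlinarith
  have hb1 : 1 ≤ 2 / (c * a) := by
    rw [le_div_iff₀ hca]; linarith
  have hq1 : 1 ≤ q := Real.one_le_rpow hb1 (by norm_num)
  have hq5 : q ^ 5 = 2 / (c * a) := by
    rw [hq, ← Real.rpow_natCast, ← Real.rpow_mul (by positivity)]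
    norm_num
  set r := ⌈q⌉₊ with hr
  have hr1 : 1 ≤ r := Nat.one_le_ceil_iff.2 (by linarith)
  have hrq : q ≤ r := Nat.le_ceil q
  have hrq2 : (r : ℝ) ≤ 2 * q := by
    have := Nat.ceil_lt_add_one (show 0 ≤ q by linarith)
    linarith
  have h1 := decr F ν hν0 hν1 T hκ hT hFn k r
  rw [← ha] at h1
  have hmon : 0 ≤ a - ak F ν (k + 1) := by
    obtain ⟨x, hx⟩ := hFn
    have := energy F ν hν0 hν1 (fk_fs F ν k) hx hx
    rw [inv_mul_cancel, En_one, mul_zero, sub_zero] at this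
    exact sub_nonneg.2 this
  have h2 : 1 / ((((insert 1 T : Finset Γ) ^ r).card : ℕ) : ℝ) ≤ a / 2 := by
    have h3 : 2 / a ≤ ((((insert 1 T : Finset Γ) ^ r).card : ℕ) : ℝ) := by
      refine le_trans ?_ (hgr r hr1)
      have h4 : q ^ 5 ≤ (r : ℝ) ^ 5 := pow_le_pow_left₀ (by linarith) hrq 5
      rw [hq5] at h4
      calc 2 / a = c * (2 / (c * a)) := by field_simp
        _ ≤ c * (r : ℝ) ^ 5 := by gcongr
    have h5 : 1 / ((((insert 1 T : Finset Γ) ^ r).card : ℕ) : ℝ) ≤ 1 / (2 / a) :=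
      one_div_le_one_div_of_le (by positivity) h3
    rwa [one_div_div] at h5
  have h6 : a / 2 ≤ (2 * q) ^ 2 * ((a - ak F ν (k + 1)) / κ) := by
    have h7 : (r : ℝ) ^ 2 * ((a - ak F ν (k + 1)) / κ) ≤ (2 * q) ^ 2 *
        ((a - ak F ν (k + 1)) / κ) := by
      gcongr
    linarith
  have hq2 : (c / 2) ^ (2 / 5 : ℝ) * a ^ (1 + 2 / 5 : ℝ) * q ^ 2 = a := by
    have e1 : q ^ 2 = (2 / (c * a)) ^ (2 / 5 : ℝ) := by
      rw [hq, ← Real.rpow_natCast, ← Real.rpow_mul (by positivity)]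
      norm_num
    have e2 : a ^ (1 + 2 / 5 : ℝ) = a * a ^ (2 / 5 : ℝ) := by
      rw [Real.rpow_add h0, Real.rpow_one]
    rw [e1, e2]
    have e3 : (c / 2) ^ (2 / 5 : ℝ) * a ^ (2 / 5 : ℝ) * (2 / (c * a)) ^ (2 / 5 : ℝ) = 1 := by
      rw [← Real.mul_rpow (by positivity) h0.le, ← Real.mul_rpow (by positivity) (by positivity)]
      have : c / 2 * a * (2 / (c * a)) = 1 := by field_simp
      rw [this, Real.one_rpow]
    calc _ = a * ((c / 2) ^ (2 / 5 : ℝ) * a ^ (2 / 5 : ℝ) * (2 / (c * a)) ^ (2 / 5 : ℝ)) := by ring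
      _ = a := by rw [e3, mul_one]
  have hqp : 0 < q ^ 2 := by positivity
  have h8 : κ * a ≤ 8 * q ^ 2 * (a - ak F ν (k + 1)) := by
    have h9 := mul_le_mul_of_nonneg_left h6 hκ.le
    have e : κ * ((2 * q) ^ 2 * ((a - ak F ν (k + 1)) / κ)) = 4 * q ^ 2 *
        (a - ak F ν (k + 1)) := by
      field_simp
      ring
    rw [e] at h9
    linarith
  have h10 : κ * ((c / 2) ^ (2 / 5 : ℝ) * a ^ (1 + 2 / 5 : ℝ)) ≤ 8 * (a - ak F ν (k + 1)) := by
    refine le_of_mul_le_mul_right ?_ hqp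
    calc κ * ((c / 2) ^ (2 / 5 : ℝ) * a ^ (1 + 2 / 5 : ℝ)) * q ^ 2
        = κ * ((c / 2) ^ (2 / 5 : ℝ) * a ^ (1 + 2 / 5 : ℝ) * q ^ 2) := by ring
      _ = κ * a := by rw [hq2]
      _ ≤ _ := by linarith
  have : κ * (c / 2) ^ (2 / 5 : ℝ) / 8 * a ^ (1 + 2 / 5 : ℝ) ≤ a - ak F ν (k + 1) := by
    have e : κ * (c / 2) ^ (2 / 5 : ℝ) / 8 * a ^ (1 + 2 / 5 : ℝ) =
      κ * ((c / 2) ^ (2 / 5 : ℝ) * a ^ (1 + 2 / 5 : ℝ)) / 8 := by ring
    rw [e]
    linarith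
  linarith

end Cv

end Pool.Agent.K9h18.FG
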