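import Pool.Agent.K9h18.FG.Cv

set_option autoImplicit false
set_option linter.unusedSectionVars false
set_option linter.unusedVariables false

namespace Pool.Agent.K9h18.FG

open Function Finset
open scoped Pointwise

section Cv2

variable {Γ : Type} [Group Γ] (F : Finset Γ) (ν : Γ → ℝ)

/-- meeting probability of two walks -/
noncomputable def gk (i j : ℕ) (a b : Γ) : ℝ := ∑' x, fk F ν i (a⁻¹ * x) * fk F ν j (b⁻¹ * x)

lemma gk_stepL (i j : ℕ) (a b : Γ) :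
    ∑ y ∈ F, ν y * gk F ν i j (a * y) b = gk F ν (i + 1) j a b := by
  unfold gk
  have e : ∀ x, fk F ν (i + 1) (a⁻¹ * x) * fk F ν j (b⁻¹ * x) =
      ∑ y ∈ F, ν y * (fk F ν i ((a * y)⁻¹ * x) * fk F ν j (b⁻¹ * x)) := by
    intro x
    rw [fk_succ, Finset.sum_mul]
    refine Finset.sum_congr rfl fun y _ => ?_
    rw [mul_inv_rev, mul_assoc y⁻¹ a⁻¹ x]
    ring
  simp_rw [e]
  rw [Summable.tsum_finsetSum fun y _ =>
    ((((fk_fs F ν i).shift (a * y)⁻¹).mul _).cmul (ν y)).sm]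
  simp_rw [tsum_mul_left]

lemma gk_comm (i j : ℕ) (a b : Γ) : gk F ν i j a b = gk F ν j i b a := by
  unfold gk
  simp_rw [mul_comm]

lemma gk_stepR (i j : ℕ) (a b : Γ) :
    ∑ y ∈ F, ν y * gk F ν i j a (b * y) = gk F ν i (j + 1) a b := by
  rw [gk_comm, ← gk_stepL]
  exact Finset.sum_congr rfl fun y _ => by rw [gk_comm]

lemma gk_nonneg (hν0 : ∀ y ∈ F, 0 ≤ ν y) (i j : ℕ) (a b : Γ) : 0 ≤ gk F ν i j a b :=
  tsum_nonneg fun _ => mul_nonneg (fk_nonneg F ν hν0 _ _) (fk_nonneg F ν hν0 _ _)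

lemma gk_zero (a b : Γ) [DecidableEq Γ] : gk F ν 0 0 a b = if a = b then 1 else 0 := by
  unfold gk
  simp_rw [fk_zero, inv_mul_eq_one]
  by_cases h : a = b
  · subst h
    rw [if_pos rfl]
    have : ∀ x : Γ, ((if a = x then (1 : ℝ) else 0) * if a = x then 1 else 0) =
      if x = a then 1 else 0 := by
      intro x
      by_cases hx : a = x
      · rw [if_pos hx, if_pos hx.symm, mul_one]
      · rw [if_neg hx, if_neg (Ne.symm hx), mul_zero]
    simp_rw [this]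
    rw [tsum_ite_eq]
  · rw [if_neg h]
    have : ∀ x : Γ, ((if a = x then (1 : ℝ) else 0) * if b = x then 1 else 0) = 0 := by
      intro x
      by_cases hx : a = x
      · have : b ≠ x := fun hb => h (hx.trans hb.symm)
        rw [if_neg this, mul_zero]
      · rw [if_neg hx, zero_mul]
    simp_rw [this, tsum_zero]

/-- Cauchy–Schwarz -/
lemma cs_tsum {f g : Γ → ℝ} (hf : Fs f) (hg : Fs g) :
    ∑' x, f x * g x ≤ √(∑' x, f x ^ 2) * √(∑' x, g x ^ 2) := by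
  classical
  have hU := Set.Finite.union hf hg
  set U := hU.toFinset with hUd
  have hout : ∀ x ∉ U, f x = 0 ∧ g x = 0 := by
    intro x hx
    rw [hUd, Set.Finite.mem_toFinset] at hx
    simp only [Set.mem_union, mem_support, not_or, not_not] at hx
    exact hx
  rw [tsum_eq_sum (s := U) (fun x hx => by rw [(hout x hx).1, zero_mul]),
    tsum_eq_sum (s := U) (fun x hx => by rw [(hout x hx).1]; norm_num),
    tsum_eq_sum (s := U) (fun x hx => by rw [(hout x hx).2]; norm_num)]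
  exact Real.sum_mul_le_sqrt_mul_sqrt U f g

lemma gk_le (i j : ℕ) (a b : Γ) : gk F ν i j a b ≤ √(ak F ν i) * √(ak F ν j) := by
  refine (cs_tsum ((fk_fs F ν i).shift a⁻¹) ((fk_fs F ν j).shift b⁻¹)).trans (le_of_eq ?_)
  rw [tsum_shift (fun x => fk F ν i x ^ 2) a⁻¹, tsum_shift (fun x => fk F ν j x ^ 2) b⁻¹]
  rfl

/-- the majorant -/
noncomputable def mk (n l : ℕ) (a b : Γ) : ℝ :=
  ∑ i ∈ range (n + 1), ∑ j ∈ range (l + 1), gk F ν i j a b

lemma mk_nonneg (hν0 : ∀ y ∈ F, 0 ≤ ν y) (n l : ℕ) (a b : Γ) : 0 ≤ mk F ν n l a b :=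
  Finset.sum_nonneg fun _ _ => Finset.sum_nonneg fun _ _ => gk_nonneg F ν hν0 _ _ _ _

lemma mk_L (hν0 : ∀ y ∈ F, 0 ≤ ν y) (n l : ℕ) (a b : Γ) :
    ∑ y ∈ F, ν y * mk F ν n l (a * y) b ≤ mk F ν (n + 1) l a b := by
  have e : ∑ y ∈ F, ν y * mk F ν n l (a * y) b =
      ∑ i ∈ range (n + 1), ∑ j ∈ range (l + 1), gk F ν (i + 1) j a b := by
    unfold mk
    simp_rw [Finset.mul_sum]
    rw [Finset.sum_comm]
    refine Finset.sum_congr rfl fun i _ => ?_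
    rw [Finset.sum_comm]
    exact Finset.sum_congr rfl fun j _ => gk_stepL F ν i j a b
  rw [e]
  unfold mk
  rw [Finset.sum_range_succ' _ (n + 1)]
  exact le_add_of_nonneg_right (Finset.sum_nonneg fun _ _ => gk_nonneg F ν hν0 _ _ _ _)

lemma mk_comm (n l : ℕ) (a b : Γ) : mk F ν n l a b = mk F ν l n b a := by
  unfold mk
  rw [Finset.sum_comm]
  exact Finset.sum_congr rfl fun _ _ => Finset.sum_congr rfl fun _ _ => gk_comm F ν _ _ _ _

lemma mk_R (hν0 : ∀ y ∈ F, 0 ≤ ν y) (n l : ℕ) (a b : Γ) :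
    ∑ y ∈ F, ν y * mk F ν n l a (b * y) ≤ mk F ν n (l + 1) a b := by
  have := mk_L F ν hν0 l n b a
  rw [mk_comm F ν n (l + 1)]
  refine le_trans (le_of_eq ?_) this
  exact Finset.sum_congr rfl fun y _ => by rw [mk_comm]

lemma mk_diag (hν0 : ∀ y ∈ F, 0 ≤ ν y) (n l : ℕ) (a : Γ) : 1 ≤ mk F ν n l a a := by
  classical
  have h1 : gk F ν 0 0 a a = 1 := by rw [gk_zero, if_pos rfl]
  rw [← h1]
  unfold mk
  refine le_trans ?_ (Finset.single_le_sum (f := fun i => ∑ j ∈ range (l + 1), gk F ν i j a a)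
    (fun i _ => Finset.sum_nonneg fun _ _ => gk_nonneg F ν hν0 _ _ _ _)
    (Finset.mem_range.2 (Nat.succ_pos n)))
  exact Finset.single_le_sum (f := fun j => gk F ν 0 j a a)
    (fun j _ => gk_nonneg F ν hν0 _ _ _ _) (Finset.mem_range.2 (Nat.succ_pos l))

lemma mk_le [DecidableEq Γ] {s : ℝ} (hs : ∀ N, ∑ k ∈ range N, √(ak F ν (k + 1)) ≤ s) (n l : ℕ)
    (a b : Γ) : mk F ν n l a b ≤ (if a = b then 1 else 0) + ((1 + s) ^ 2 - 1) := by
  have h0 : √(ak F ν 0) = 1 := by rw [ak_zero, Real.sqrt_one]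
  have hsum : ∀ N, ∑ k ∈ range (N + 1), √(ak F ν k) ≤ 1 + s := by
    intro N
    rw [Finset.sum_range_succ', h0, add_comm]
    linarith [hs N]
  have hS0 : ∀ N, 0 ≤ ∑ k ∈ range (N + 1), √(ak F ν k) := fun N =>
    Finset.sum_nonneg fun _ _ => Real.sqrt_nonneg _
  have h1 : √(ak F ν 0) * √(ak F ν 0) - gk F ν 0 0 a b ≤
      ∑ i ∈ range (n + 1), ∑ j ∈ range (l + 1), (√(ak F ν i) * √(ak F ν j) - gk F ν i j a b) := by
    refine le_trans ?_ (Finset.single_le_sum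
      (f := fun i => ∑ j ∈ range (l + 1), (√(ak F ν i) * √(ak F ν j) - gk F ν i j a b))
      (fun i _ => Finset.sum_nonneg fun _ _ => sub_nonneg.2 (gk_le F ν _ _ _ _))
      (Finset.mem_range.2 (Nat.succ_pos n)))
    exact Finset.single_le_sum (f := fun j => √(ak F ν 0) * √(ak F ν j) - gk F ν 0 j a b)
      (fun j _ => sub_nonneg.2 (gk_le F ν _ _ _ _)) (Finset.mem_range.2 (Nat.succ_pos l))
  have h2 : ∑ i ∈ range (n + 1), ∑ j ∈ range (l + 1),
      (√(ak F ν i) * √(ak F ν j) - gk F ν i j a b) =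
      (∑ i ∈ range (n + 1), √(ak F ν i)) * (∑ j ∈ range (l + 1), √(ak F ν j)) -
        mk F ν n l a b := by
    unfold mk
    rw [Finset.sum_mul_sum, ← Finset.sum_sub_distrib]
    exact Finset.sum_congr rfl fun i _ => by rw [← Finset.sum_sub_distrib]
  rw [h2, h0, gk_zero] at h1
  have h3 : (∑ i ∈ range (n + 1), √(ak F ν i)) * (∑ j ∈ range (l + 1), √(ak F ν j)) ≤
      (1 + s) * (1 + s) :=
    mul_le_mul (hsum n) (hsum l) (hS0 l) ((hS0 n).trans (hsum n))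
  nlinarith

/-- sup bound -/
lemma fk_sup (hν0 : ∀ y ∈ F, 0 ≤ ν y) (hν1 : ∑ y ∈ F, ν y = 1) {νs : Γ → ℝ} {ε b : ℝ}
    (hε0 : 0 ≤ ε) (hε : ε ≤ 1 / 2) (hb : 0 ≤ b) (hs0 : ∀ y ∈ F, 0 ≤ νs y)
    (hs1 : ∑ y ∈ F, νs y ≤ 1) (h : ∀ y ∈ F, ν y ≤ ε * νs y + b) (k : ℕ) :
    ∀ x, fk F ν k x ≤ ε ^ k + 2 * b := by
  classical
  induction k with
  | zero =>
    intro x
    have := fk_le_one F ν hν0 hν1 0 x
    rw [pow_zero]
    linarith
  | succ k ih =>
    intro x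
    rw [fk_succ]
    have hf0 := fk_nonneg F ν hν0 k
    have hM : 0 ≤ ε ^ k + 2 * b := by positivity
    calc ∑ y ∈ F, ν y * fk F ν k (y⁻¹ * x)
        ≤ ∑ y ∈ F, (ε * (νs y * (ε ^ k + 2 * b)) + b * fk F ν k (y⁻¹ * x)) := by
          refine Finset.sum_le_sum fun y hy => ?_
          have h1 := mul_le_mul_of_nonneg_right (h y hy) (hf0 (y⁻¹ * x))
          have h2 := mul_le_mul_of_nonneg_left (ih (y⁻¹ * x)) (mul_nonneg hε0 (hs0 y hy))
          nlinarith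
      _ = ε * ((∑ y ∈ F, νs y) * (ε ^ k + 2 * b)) + b * ∑ y ∈ F, fk F ν k (y⁻¹ * x) := by
          rw [Finset.sum_add_distrib, ← Finset.mul_sum, ← Finset.sum_mul, ← Finset.mul_sum]
      _ ≤ ε * (1 * (ε ^ k + 2 * b)) + b * 1 := by
          have h3 := sum_shift_le (fk_fs F ν k) hf0 F x
          rw [fk_one F ν hν1] at h3
          gcongr
      _ ≤ ε ^ (k + 1) + 2 * b := by
          rw [pow_succ]
          nlinarith

/-- square roots of the norms -/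
theorem sqrt_decay [DecidableEq Γ] (hν0 : ∀ y ∈ F, 0 ≤ ν y) (hν1 : ∑ y ∈ F, ν y = 1)
    (T : Finset Γ) {κ : ℝ} (hκ : 0 < κ)
    (hT : ∀ τ ∈ T, ∃ a ∈ F, ∃ b ∈ F, a⁻¹ * b = τ ∧ κ ≤ ν a * ν b) (hFn : F.Nonempty) {c : ℝ}
    (hc : 0 < c) (hc1 : c ≤ 1)
    (hgr : ∀ r : ℕ, 1 ≤ r → c * (r : ℝ) ^ 5 ≤ ((((insert 1 T : Finset Γ) ^ r).card : ℕ) : ℝ))
    (n : ℕ) (hn : 1 ≤ n) :
    √(ak F ν n) ≤ (20 / (κ * (c / 2) ^ (2 / 5 : ℝ))) ^ (5 / 4 : ℝ) * (1 / (n : ℝ) ^ (5 / 4 : ℝ)) := by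
  have h := decay F ν hν0 hν1 T hκ hT hFn hc hc1 hgr n
  have hn' : (0 : ℝ) < n := by exact_mod_cast hn
  have ha := ak_nonneg F ν n
  set K : ℝ := κ * (c / 2) ^ (2 / 5 : ℝ) with hK
  have hKp : 0 < K := by positivity
  have h1 : ak F ν n ^ (2 / 5 : ℝ) ≤ 20 / (K * n) := by
    rw [le_div_iff₀ (by positivity)]
    linarith
  have h2 : √(ak F ν n) = (ak F ν n ^ (2 / 5 : ℝ)) ^ (5 / 4 : ℝ) := by
    rw [← Real.rpow_mul ha, Real.sqrt_eq_rpow]
    norm_num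
  rw [h2]
  calc (ak F ν n ^ (2 / 5 : ℝ)) ^ (5 / 4 : ℝ) ≤ (20 / (K * n)) ^ (5 / 4 : ℝ) :=
        Real.rpow_le_rpow (Real.rpow_nonneg ha _) h1 (by norm_num)
    _ = _ := by
        rw [show 20 / (K * n) = (20 / K) * (1 / (n : ℝ)) by field_simp,
          Real.mul_rpow (by positivity) (by positivity), Real.div_rpow zero_le_one hn'.le,
          Real.one_rpow]

/-- semigroup property -/
lemma fk_add (m n : ℕ) : ∀ z, fk F ν (m + n) z = ∑' x, fk F ν m x * fk F ν n (x⁻¹ * z) := by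
  classical
  induction m with
  | zero =>
    intro z
    rw [zero_add, tsum_eq_single 1]
    · rw [fk_zero, if_pos rfl, inv_one, one_mul, one_mul]
    · intro x hx
      rw [fk_zero, if_neg hx, zero_mul]
  | succ m ih =>
    intro z
    rw [show m + 1 + n = (m + n) + 1 by ring, fk_succ]
    simp_rw [ih, fk_succ, Finset.sum_mul]
    rw [Summable.tsum_finsetSum fun y _ =>
      (((((fk_fs F ν m).shift y⁻¹).cmul (ν y)).mul _)).sm]
    refine Finset.sum_congr rfl fun y _ => ?_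
    rw [← tsum_mul_left, ← tsum_shift (fun x => ν y * fk F ν m (y⁻¹ * x) *
      fk F ν n (x⁻¹ * z)) y]
    refine tsum_congr fun x => ?_
    rw [inv_mul_cancel_left, mul_inv_rev, mul_assoc x⁻¹ y⁻¹ z]
    ring

variable (hsym : ∀ y, ν y⁻¹ = ν y) (hFs : ∀ y ∈ F, y⁻¹ ∈ F)

include hsym hFs in
lemma fk_inv (k : ℕ) : ∀ x, fk F ν k x⁻¹ = fk F ν k x := by
  classical
  induction k with
  | zero => intro x; rw [fk_zero, fk_zero]; simp
  | succ k ih =>
    intro x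
    rw [fk_succ, fk_succR]
    refine Finset.sum_nbij' (fun y => y⁻¹) (fun y => y⁻¹) (fun y hy => hFs y hy)
      (fun y hy => hFs y hy) (fun y _ => inv_inv y) (fun y _ => inv_inv y) fun y _ => ?_
    rw [hsym, inv_inv, ← ih (x * y), mul_inv_rev]

include hsym hFs in
lemma fk_even (k : ℕ) : fk F ν (k + k) 1 = ak F ν k := by
  rw [fk_add]
  unfold ak
  refine tsum_congr fun x => ?_
  rw [mul_one, fk_inv F ν hsym hFs, sq]

include hsym hFs in
lemma fk_odd (hν0 : ∀ y ∈ F, 0 ≤ ν y) (hν1 : ∑ y ∈ F, ν y = 1) (hFn : F.Nonempty) (k : ℕ) :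
    fk F ν (k + (k + 1)) 1 ≤ ak F ν k := by
  have hmon : ak F ν (k + 1) ≤ ak F ν k := by
    obtain ⟨a, ha⟩ := hFn
    have := energy F ν hν0 hν1 (fk_fs F ν k) ha ha
    rw [inv_mul_cancel, En_one, mul_zero, sub_zero] at this
    exact this
  rw [fk_add]
  have h1 : ∑' x, fk F ν k x * fk F ν (k + 1) (x⁻¹ * 1) ≤
      √(∑' x, fk F ν k x ^ 2) * √(∑' x, fk F ν (k + 1) x ^ 2) := by
    have : ∀ x, fk F ν k x * fk F ν (k + 1) (x⁻¹ * 1) = fk F ν k x * fk F ν (k + 1) x := by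
      intro x; rw [mul_one, fk_inv F ν hsym hFs]
    simp_rw [this]
    exact cs_tsum (fk_fs F ν k) (fk_fs F ν (k + 1))
  refine h1.trans ?_
  show √(ak F ν k) * √(ak F ν (k + 1)) ≤ ak F ν k
  calc √(ak F ν k) * √(ak F ν (k + 1)) ≤ √(ak F ν k) * √(ak F ν k) := by gcongr
    _ = ak F ν k := Real.mul_self_sqrt (ak_nonneg F ν k)

include hsym hFs in
/-- the Green function at the identity is finite -/
theorem green [DecidableEq Γ] (hν0 : ∀ y ∈ F, 0 ≤ ν y) (hν1 : ∑ y ∈ F, ν y = 1)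
    (T : Finset Γ) {κ : ℝ} (hκ : 0 < κ)
    (hT : ∀ τ ∈ T, ∃ a ∈ F, ∃ b ∈ F, a⁻¹ * b = τ ∧ κ ≤ ν a * ν b) (hFn : F.Nonempty) {c : ℝ}
    (hc : 0 < c) (hc1 : c ≤ 1)
    (hgr : ∀ r : ℕ, 1 ≤ r → c * (r : ℝ) ^ 5 ≤ ((((insert 1 T : Finset Γ) ^ r).card : ℕ) : ℝ)) :
    ∃ G : ℝ, 1 ≤ G ∧ ∀ N, ∑ n ∈ range N, fk F ν n 1 ≤ G := by
  set K := (20 / (κ * (c / 2) ^ (2 / 5 : ℝ))) ^ (5 / 4 : ℝ) with hK
  have hK0 : 0 ≤ K := by positivity
  have hsq := sqrt_decay F ν hν0 hν1 T hκ hT hFn hc hc1 hgr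
  have hsum : Summable fun n : ℕ => 1 / (n : ℝ) ^ (5 / 4 : ℝ) :=
    Real.summable_one_div_nat_rpow.2 (by norm_num)
  set S := ∑' n : ℕ, 1 / (n : ℝ) ^ (5 / 4 : ℝ) with hS
  have hak : ∀ k, ak F ν k ≤ (if k = 0 then 1 else 0) + K * (1 / (k : ℝ) ^ (5 / 4 : ℝ)) := by
    intro k
    rcases Nat.eq_zero_or_pos k with hk | hk
    · subst hk
      rw [ak_zero, if_pos rfl]
      have : 0 ≤ K * (1 / ((0 : ℕ) : ℝ) ^ (5 / 4 : ℝ)) := by positivity
      linarith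
    · rw [if_neg hk.ne', zero_add]
      refine le_trans ?_ (hsq k hk)
      have h1 := ak_le_one F ν hν0 hν1 k
      have h0 := ak_nonneg F ν k
      exact Real.le_sqrt_of_sq_le (by nlinarith)
  have hsak : ∀ N, ∑ k ∈ range N, ak F ν k ≤ 1 + K * S := by
    intro N
    calc ∑ k ∈ range N, ak F ν k ≤ ∑ k ∈ range N, ((if k = 0 then (1 : ℝ) else 0) +
        K * (1 / (k : ℝ) ^ (5 / 4 : ℝ))) := Finset.sum_le_sum fun k _ => hak k
      _ = ∑ k ∈ range N, (if k = 0 then (1 : ℝ) else 0) +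
          K * ∑ k ∈ range N, (1 / (k : ℝ) ^ (5 / 4 : ℝ)) := by
          rw [Finset.sum_add_distrib, ← Finset.mul_sum]
      _ ≤ _ := by
          have h1 : ∑ k ∈ range N, (if k = 0 then (1 : ℝ) else 0) ≤ 1 := by
            rw [Finset.sum_ite_eq']
            split_ifs <;> norm_num
          have h2 : ∑ k ∈ range N, (1 / (k : ℝ) ^ (5 / 4 : ℝ)) ≤ S :=
            hsum.sum_le_tsum _ fun k _ => by positivity
          have := mul_le_mul_of_nonneg_left h2 hK0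
          linarith
  have hS0 : 0 ≤ S := tsum_nonneg fun k => by positivity
  refine ⟨2 * (1 + K * S), by nlinarith [mul_nonneg hK0 hS0], fun N => ?_⟩
  have hle : ∑ n ∈ range N, fk F ν n 1 ≤ ∑ n ∈ range (2 * N), fk F ν n 1 :=
    Finset.sum_le_sum_of_subset_of_nonneg (Finset.range_mono (by omega))
      fun n _ _ => fk_nonneg F ν hν0 n 1
  refine hle.trans ?_
  have h2 : ∀ N, ∑ n ∈ range (2 * N), fk F ν n 1 ≤ 2 * ∑ k ∈ range N, ak F ν k := by
    intro N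
    induction N with
    | zero => simp
    | succ N ih =>
      rw [show 2 * (N + 1) = 2 * N + 1 + 1 by ring, Finset.sum_range_succ,
        Finset.sum_range_succ, Finset.sum_range_succ]
      have e1 : fk F ν (2 * N) 1 = ak F ν N := by
        rw [two_mul]; exact fk_even F ν hsym hFs N
      have e2 : fk F ν (2 * N + 1) 1 ≤ ak F ν N := by
        rw [show 2 * N + 1 = N + (N + 1) by ring]
        exact fk_odd F ν hsym hFs hν0 hν1 hFn N
      linarith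
  exact (h2 N).trans (by linarith [hsak N])

end Cv2

end Pool.Agent.K9h18.FG
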