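import Pool.Agent.K9h18.FG.Core2

set_option autoImplicit false
set_option linter.unusedSectionVars false
set_option linter.unusedVariables false

/-!
The frog model with death on the Cayley graph of a group `Γ` for a finite symmetric set `S`.
-/

namespace Pool.Agent.K9h18.FG

open MeasureTheory ProbabilityTheory
open scoped NNReal ENNReal Pointwise

section Defs

variable {Γ : Type} [Group Γ] (S : Finset Γ)

/-- all subsets of the finite set of steps are measurable -/
instance stepSpace : MeasurableSpace S := ⊤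

instance : MeasurableSingletonClass S := ⟨fun _ => trivial⟩

instance : IsProbabilityMeasure (expMeasure 1) := isProbabilityMeasure_expMeasure one_pos

/-- the data of one particle: the waiting times between its jumps and its steps -/
abbrev Particle : Type := (ℕ → ℝ) × (ℕ → S)

/-- the data of one vertex: the number of its particles and the data of the particles -/
abbrev Site : Type := ℕ × (ℕ → Particle S)

/-- the law of one step: uniform on `S` -/
noncomputable def stepLaw [Nonempty S] : Measure S := (PMF.uniformOfFintype S).toMeasure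

instance [Nonempty S] : IsProbabilityMeasure (stepLaw S) := by unfold stepLaw; infer_instance

/-- the law of one particle: independent `Exp(1)` waiting times and independent uniform steps -/
noncomputable def particleLaw [Nonempty S] : Measure (Particle S) :=
  (Measure.infinitePi fun _ : ℕ => expMeasure 1).prod (Measure.infinitePi fun _ : ℕ => stepLaw S)

instance [Nonempty S] : IsProbabilityMeasure (particleLaw S) := by
  unfold particleLaw; infer_instance

/-- the law of one vertex: `Poisson(lam)` many independent particles -/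
noncomputable def siteLaw [Nonempty S] (lam : ℝ≥0) : Measure (Site S) :=
  (poissonMeasure lam).prod (Measure.infinitePi fun _ : ℕ => particleLaw S)

instance [Nonempty S] (lam : ℝ≥0) : IsProbabilityMeasure (siteLaw S lam) := by
  unfold siteLaw; infer_instance

/-- the law of the whole system: independent vertices -/
noncomputable def frogLaw [Nonempty S] (lam : ℝ≥0) : Measure (Γ → Site S) :=
  Measure.infinitePi fun _ : Γ => siteLaw S lam

variable {S}

/-- the position after `j` jumps of a particle which starts at `1` -/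
def pos (s : ℕ → S) : ℕ → Γ
  | 0 => 1
  | j + 1 => pos s j * (s j : Γ)

/-- the visited vertices: the root is visited; if `x` is visited, then each of the particles `k`
at `x` visits the vertices to which it jumps up to time `t` after the visit -/
inductive Visited (t : ℝ) (ω : Γ → Site S) : Γ → Prop
  | root : Visited t ω 1
  | jump {x : Γ} (k j : ℕ) : Visited t ω x → k < (ω x).1 →
      ∑ i ∈ Finset.range j, ((ω x).2 k).1 i ≤ t → Visited t ω (x * pos ((ω x).2 k).2 j)

variable (S)

/-- the critical lifetime: the supremum of the lifetimes for which a.s. only finitely many vertices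
are visited -/
noncomputable def critLife [Nonempty S] (lam : ℝ≥0) : ℝ≥0∞ :=
  sSup {a : ℝ≥0∞ | ∃ t : ℝ≥0, a = t ∧
    frogLaw S lam {ω : Γ → Site S | {x : Γ | Visited (t : ℝ) ω x}.Infinite} = 0}

end Defs

section Proof

variable {Γ : Type} [Group Γ] {S : Finset Γ}

lemma pos_eq (s : ℕ → S) (j : ℕ) : Wk s 0 j = pos s j := by
  induction j with
  | zero => rfl
  | succ j ih =>
    show Wk s 0 j * (s (0 + j) : Γ) = pos s j * (s j : Γ)
    rw [ih, zero_add]

/-- the clocks of a particle allow `n` jumps before time `t` -/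
def Clk (n : ℕ) (t : ℝ) : Set (ℕ → ℝ) := {τ | ∀ j ≤ n, ∑ i ∈ Finset.range j, τ i ≤ t}

lemma Clk_meas (n : ℕ) (t : ℝ) : MeasurableSet (Clk n t) := by
  have : Clk n t = ⋂ j ∈ Set.Iic n, {τ : ℕ → ℝ | ∑ i ∈ Finset.range j, τ i ≤ t} := by
    ext τ; simp [Clk]
  rw [this]
  refine MeasurableSet.biInter (Set.to_countable _) fun j _ => ?_
  exact measurableSet_le (Finset.measurable_fun_sum _ fun i _ => measurable_pi_apply i)
    measurable_const

lemma Clk_mono (n : ℕ) {t t' : ℝ} (h : t ≤ t') : Clk n t ⊆ Clk n t' :=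
  fun τ hτ j hj => (hτ j hj).trans h

lemma Clk_ex (n : ℕ) : ∃ t0 : ℝ≥0, ∀ t : ℝ, (t0 : ℝ) ≤ t →
    1 / 2 ≤ (Measure.infinitePi fun _ : ℕ => expMeasure 1).real (Clk n t) := by
  have hU : (⋃ m : ℕ, Clk n (m : ℝ)) = Set.univ := by
    ext τ
    simp only [Set.mem_iUnion, Set.mem_univ, iff_true]
    obtain ⟨m, hm⟩ := exists_nat_ge (∑ j ∈ Finset.range (n + 1), |∑ i ∈ Finset.range j, τ i|)
    refine ⟨m, fun j hj => ?_⟩
    calc ∑ i ∈ Finset.range j, τ i ≤ |∑ i ∈ Finset.range j, τ i| := le_abs_self _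
      _ ≤ ∑ j ∈ Finset.range (n + 1), |∑ i ∈ Finset.range j, τ i| :=
          Finset.single_le_sum (f := fun j => |∑ i ∈ Finset.range j, τ i|)
            (fun _ _ => abs_nonneg _) (Finset.mem_range.2 (by omega))
      _ ≤ m := hm
  have hmono : Monotone fun m : ℕ => Clk n (m : ℝ) :=
    fun a b hab => Clk_mono n (by exact_mod_cast hab)
  have hlim := tendsto_measure_iUnion_atTop
    (μ := Measure.infinitePi fun _ : ℕ => expMeasure 1) hmono
  rw [hU, measure_univ] at hlim
  have hev := hlim.eventually (lt_mem_nhds (show ((1 / 2 : ℝ≥0∞)) < 1 from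
    ENNReal.half_lt_self one_ne_zero ENNReal.one_ne_top))
  obtain ⟨m, hm⟩ := hev.exists
  refine ⟨m, fun t ht => ?_⟩
  have h1 : (1 / 2 : ℝ≥0∞) ≤ (Measure.infinitePi fun _ : ℕ => expMeasure 1) (Clk n t) :=
    hm.le.trans (measure_mono (Clk_mono n (by exact_mod_cast ht)))
  have h2 := ENNReal.toReal_mono (measure_ne_top _ _) h1
  simpa [Measure.real] using h2

/-- events of the particle number `0` at a vertex -/
def Bx (n : ℕ) (t : ℝ) (C : Set (ℕ → S)) : Set (Site S) :=
  {e | 1 ≤ e.1 ∧ (e.2 0).1 ∈ Clk n t ∧ (e.2 0).2 ∈ C}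

lemma Bx_eq (n : ℕ) (t : ℝ) (C : Set (ℕ → S)) :
    Bx n t C = {k : ℕ | 1 ≤ k} ×ˢ ((fun f : ℕ → Particle S => f 0) ⁻¹' (Clk n t ×ˢ C)) := by
  ext e
  simp [Bx, Set.mem_prod]

lemma Bx_meas (n : ℕ) (t : ℝ) {C : Set (ℕ → S)} (hC : MeasurableSet C) :
    MeasurableSet (Bx n t C) := by
  rw [Bx_eq]
  exact (MeasurableSet.of_discrete).prod ((measurable_pi_apply 0) ((Clk_meas n t).prod hC))

lemma Bx_law [Nonempty S] (lam : ℝ≥0) (n : ℕ) (t : ℝ) {C : Set (ℕ → S)} (hC : MeasurableSet C) :
    (siteLaw S lam).real (Bx n t C) = ((poissonMeasure lam).real {k : ℕ | 1 ≤ k} *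
      (Measure.infinitePi fun _ : ℕ => expMeasure 1).real (Clk n t)) *
        (Pm (stepLaw S) : Measure (ℕ → S)).real C := by
  rw [Bx_eq]
  have h1 : (siteLaw S lam) ({k : ℕ | 1 ≤ k} ×ˢ
      ((fun f : ℕ → Particle S => f 0) ⁻¹' (Clk n t ×ˢ C))) =
      (poissonMeasure lam) {k : ℕ | 1 ≤ k} *
      ((Measure.infinitePi fun _ : ℕ => expMeasure 1) (Clk n t) *
        (Measure.infinitePi fun _ : ℕ => stepLaw S) C) := by
    unfold siteLaw
    rw [Measure.prod_prod]
    congr 1
    have h2 := (measurePreserving_eval_infinitePi (fun _ : ℕ => particleLaw S) 0).measure_preimage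
      ((Clk_meas n t).prod hC).nullMeasurableSet
    have h3 : (Measure.infinitePi fun _ : ℕ => particleLaw S)
        ((fun f : ℕ → Particle S => f 0) ⁻¹' (Clk n t ×ˢ C)) = particleLaw S (Clk n t ×ˢ C) := h2
    rw [h3]
    unfold particleLaw
    rw [Measure.prod_prod]
  unfold Measure.real
  rw [h1, ENNReal.toReal_mul, ENNReal.toReal_mul, mul_assoc]
  rfl

lemma step_real [Nonempty S] (g : S) : (stepLaw S).real {g} = (S.card : ℝ)⁻¹ := by
  unfold stepLaw Measure.real
  rw [PMF.toMeasure_apply_singleton _ _ (measurableSet_singleton g), PMF.uniformOfFintype_apply,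
    ENNReal.toReal_inv, ENNReal.toReal_natCast, Fintype.card_coe]

/-- the extension of the homomorphism by zero -/
noncomputable def psi (H : Subgroup Γ) (φ : H →* Multiplicative ℤ) (x : Γ) : ℤ :=
  by classical exact if hx : x ∈ H then Multiplicative.toAdd (φ ⟨x, hx⟩) else 0

lemma psi_of (H : Subgroup Γ) (φ : H →* Multiplicative ℤ) {x : Γ} (hx : x ∈ H) :
    psi H φ x = Multiplicative.toAdd (φ ⟨x, hx⟩) := by
  unfold psi
  rw [dif_pos hx]

lemma psi_mul (H : Subgroup Γ) (φ : H →* Multiplicative ℤ) {x y : Γ} (hx : x ∈ H) (hy : y ∈ H) :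
    psi H φ (x * y) = psi H φ x + psi H φ y := by
  rw [psi_of H φ hx, psi_of H φ hy, psi_of H φ (H.mul_mem hx hy), ← toAdd_mul, ← map_mul]
  rfl

lemma psi_one (H : Subgroup Γ) (φ : H →* Multiplicative ℤ) : psi H φ 1 = 0 := by
  have := psi_mul H φ H.one_mem H.one_mem
  rw [mul_one] at this
  omega

lemma psi_inv (H : Subgroup Γ) (φ : H →* Multiplicative ℤ) {x : Γ} (hx : x ∈ H) :
    psi H φ x⁻¹ = - psi H φ x := by
  have := psi_mul H φ hx (H.inv_mem hx)
  rw [mul_inv_cancel, psi_one] at this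
  omega

lemma psi_pow (H : Subgroup Γ) (φ : H →* Multiplicative ℤ) {x : Γ} (hx : x ∈ H) (n : ℕ) :
    psi H φ (x ^ n) = n * psi H φ x := by
  induction n with
  | zero => simp [psi_one]
  | succ n ih =>
    rw [pow_succ, psi_mul H φ (H.pow_mem hx n) hx, ih]
    push_cast
    ring

/-- the main theorem -/
theorem critLife_lt_top [Nonempty S] [DecidableEq Γ] (hS : ∀ s ∈ S, s⁻¹ ∈ S)
    (hgen : Subgroup.closure (S : Set Γ) = ⊤) (c : ℝ) (hc : 0 < c)
    (hgr : ∀ n : ℕ, 1 ≤ n → c * (n : ℝ) ^ 5 ≤ ((((insert 1 S : Finset Γ) ^ n).card : ℕ) : ℝ))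
    (H : Subgroup Γ) [H.FiniteIndex] (φ : H →* Multiplicative ℤ) (hφ : ∃ h, φ h ≠ 1)
    (lam : ℝ≥0) (hlam : 0 < lam) : critLife S lam < ⊤ := by
  have hSne : S.Nonempty := by
    obtain ⟨g⟩ := ‹Nonempty S›
    exact ⟨g, g.2⟩
  have hScard : (1 : ℝ) ≤ S.card := by exact_mod_cast hSne.card_pos
  set u : ℝ := (S.card : ℝ)⁻¹ with hu
  have hup : 0 < u := by positivity
  have hu1' : u ≤ 1 := inv_le_one_of_one_le₀ hScard
  have hu1 : ∑ y ∈ S, (fun _ : Γ => u) y = 1 := by
    rw [Finset.sum_const, nsmul_eq_mul, hu]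
    exact mul_inv_cancel₀ (by positivity)
  obtain ⟨h, hhH, hh⟩ : ∃ h : Γ, h ∈ H ∧ 0 < psi H φ h := by
    obtain ⟨h0, hne⟩ := hφ
    have h1 : psi H φ h0 ≠ 0 := by
      rw [psi_of H φ h0.2]
      intro h2
      apply hne
      exact Multiplicative.toAdd.injective (by simpa using h2)
    rcases lt_or_gt_of_ne h1 with h2 | h2
    · exact ⟨(h0 : Γ)⁻¹, H.inv_mem h0.2, by rw [psi_inv H φ h0.2]; omega⟩
    · exact ⟨h0, h0.2, h2⟩
  set ρp := (poissonMeasure lam).real {k : ℕ | 1 ≤ k} with hρp
  have hρp0 : 0 < ρp := by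
    have h1 := poissonMeasure_real_singleton_pos 1 hlam
    refine lt_of_lt_of_le h1 (measureReal_mono ?_ (measure_ne_top _ _))
    intro x hx
    have hx' : x = 1 := hx
    show 1 ≤ x
    omega
  obtain ⟨L, hL⟩ := main_core (S := S) (σ₁ := stepLaw S) (u := u) (hu := step_real) (hup := hup)
    hu1' hu1 hS hgen hSne
    (c := min c 1) (lt_min hc one_pos) (min_le_right _ _)
    (fun r hr => le_trans (mul_le_mul_of_nonneg_right (min_le_left _ _) (by positivity))
      (hgr r hr)) H {x | x ∈ H ∧ 0 ≤ psi H φ x} {x | x ∈ H ∧ 0 < psi H φ x} h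
    (by
      rintro ⟨_, h1⟩
      rw [psi_one] at h1
      exact absurd h1 (lt_irrefl _))
    (by
      rintro a ⟨ha, ha'⟩ b ⟨hb, hb'⟩
      exact ⟨H.mul_mem ha hb, by rw [psi_mul H φ ha hb]; omega⟩)
    (by
      intro x hx
      rcases le_or_gt 0 (psi H φ x) with h1 | h1
      · exact Or.inl ⟨hx, h1⟩
      · exact Or.inr ⟨H.inv_mem hx, by rw [psi_inv H φ hx]; omega⟩)
    (by
      rintro x ⟨hx, hx'⟩
      exact ⟨H.mul_mem hx hhH, by rw [psi_mul H φ hx hhH]; omega⟩)
    (by
      intro T hT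
      refine ⟨h ^ ((∑ τ ∈ T, |psi H φ τ|).toNat + 1), fun τ hτ => ?_⟩
      have hpow : h ^ ((∑ τ ∈ T, |psi H φ τ|).toNat + 1) ∈ H := H.pow_mem hhH _
      have hsum0 : 0 ≤ ∑ τ ∈ T, |psi H φ τ| := Finset.sum_nonneg fun _ _ => abs_nonneg _
      have hp : psi H φ (h ^ ((∑ τ ∈ T, |psi H φ τ|).toNat + 1)) ≥
          (∑ τ ∈ T, |psi H φ τ|) + 1 := by
        rw [psi_pow H φ hhH]
        push_cast
        rw [Int.toNat_of_nonneg hsum0]
        nlinarith
      rcases Finset.mem_insert.1 hτ with h0 | h0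
      · rw [h0, mul_one]
        exact ⟨hpow, by omega⟩
      · refine ⟨H.mul_mem hpow (hT τ h0), ?_⟩
        rw [psi_mul H φ hpow (hT τ h0)]
        have h1 : |psi H φ τ| ≤ ∑ τ ∈ T, |psi H φ τ| :=
          Finset.single_le_sum (f := fun τ => |psi H φ τ|) (fun _ _ => abs_nonneg _) h0
        have h2 := neg_abs_le (psi H φ τ)
        omega) (ρ0 := ρp / 2) (by positivity)
  obtain ⟨t0, ht0⟩ := Clk_ex (2 * L)
  have key : ∀ t : ℝ≥0, t0 ≤ t →
      0 < frogLaw S lam {ω : Γ → Site S | {x : Γ | Visited (t : ℝ) ω x}.Infinite} := by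
    intro t ht
    have hC : ∀ y : Γ, MeasurableSet {s : ℕ → S | ∃ j ≤ 2 * L, Wk s 0 j = y} :=
      fun y => hit_meas (2 * L) y
    have h1 := hL (Site S) (siteLaw S lam)
      (fun y => Bx (2 * L) (t : ℝ) {s : ℕ → S | ∃ j ≤ 2 * L, Wk s 0 j = y})
      (ρp * (Measure.infinitePi fun _ : ℕ => expMeasure 1).real (Clk (2 * L) t))
      (by
        have := ht0 t (by exact_mod_cast ht)
        nlinarith)
      (fun y => Bx_meas _ _ (hC y))
      (fun y => by rw [Bx_law lam (2 * L) t (hC y)]; rfl)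
      (fun y y' => by
        unfold p2
        rw [← Bx_law lam (2 * L) t ((hC y).inter (hC y'))]
        congr 1
        ext e
        simp only [Bx, Set.mem_inter_iff, Set.mem_ofPred_eq]
        tauto)
    refine lt_of_lt_of_le h1 (measure_mono ?_)
    intro ω hω
    refine hω {x : Γ | Visited (t : ℝ) ω x} Visited.root ?_
    intro z hz y hy
    obtain ⟨hη, hclk, j, hj, hjy⟩ := hy
    rw [← hjy, pos_eq]
    exact Visited.jump 0 j hz (by omega) (hclk j hj)
  have hle : critLife S lam ≤ (t0 : ℝ≥0∞) := by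
    unfold critLife
    refine sSup_le ?_
    rintro a ⟨t, rfl, ht⟩
    by_contra hcon
    push Not at hcon
    have : t0 ≤ t := by exact_mod_cast hcon.le
    exact absurd ht (key t this).ne'
  exact lt_of_le_of_lt hle ENNReal.coe_lt_top

end Proof

end Pool.Agent.K9h18.FG
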