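import Mathlib

set_option autoImplicit false
set_option linter.unusedSectionVars false
set_option linter.unusedVariables false

/-!
Second moment method along paths which increase for an invariant order: sites of a group with
independent identically distributed random sets of out-neighbours.
-/

namespace Pool.Agent.K9h18.FG

open MeasureTheory ProbabilityTheory Set

section Sec0

variable {Γ E : Type} [mE : MeasurableSpace E]

open Classical in
/-- indicator -/
noncomputable def In (A : Set E) (e : E) : ℝ := if e ∈ A then 1 else 0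

lemma In_nonneg (A : Set E) (e : E) : 0 ≤ In A e := by unfold In; split_ifs <;> norm_num
lemma In_le (A : Set E) (e : E) : In A e ≤ 1 := by unfold In; split_ifs <;> norm_num

lemma In_meas {A : Set E} (hA : MeasurableSet A) : Measurable (In A) := by
  unfold In
  exact Measurable.ite hA measurable_const measurable_const

/-- the σ-algebra of the sites in `D` -/
def sg (D : Set Γ) : MeasurableSpace (Γ → E) :=
  ⨆ i ∈ D, MeasurableSpace.comap (fun ω : Γ → E => ω i) mE

lemma sg_le (D : Set Γ) : (sg D : MeasurableSpace (Γ → E)) ≤ MeasurableSpace.pi :=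
  iSup₂_le fun i _ => (measurable_pi_apply i).comap_le

lemma sg_mono {D D' : Set Γ} (h : D ⊆ D') : (sg D : MeasurableSpace (Γ → E)) ≤ sg D' :=
  biSup_mono h

lemma eval_meas {D : Set Γ} {x : Γ} (hx : x ∈ D) :
    Measurable[sg D] (fun ω : Γ → E => ω x) := by
  refine Measurable.mono (comap_measurable _) ?_ le_rfl
  exact le_iSup₂ (f := fun i (_ : i ∈ D) => MeasurableSpace.comap (fun ω : Γ → E => ω i) mE) x hx

variable (σ : Measure E) [IsProbabilityMeasure σ]

/-- the probability space -/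
noncomputable def Pm : Measure (Γ → E) := Measure.infinitePi fun _ : Γ => σ

instance : IsProbabilityMeasure (Pm σ : Measure (Γ → E)) := by unfold Pm; infer_instance

lemma indep_mul {a : Γ} {D : Set Γ} (ha : a ∉ D) {f : (Γ → E) → ℝ} (hf : Measurable[sg D] f)
    {g : E → ℝ} (hg : Measurable g) :
    ∫ ω, g (ω a) * f ω ∂(Pm σ) = (∫ e, g e ∂σ) * ∫ ω, f ω ∂(Pm σ) := by
  have h1 : iIndepFun (fun (i : Γ) (ω : Γ → E) => ω i) (Pm σ) :=
    iIndepFun_infinitePi (X := fun _ e => e) (fun _ => measurable_id)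
  have h2 : iIndep (fun i : Γ => MeasurableSpace.comap (fun ω : Γ → E => ω i) mE) (Pm σ) :=
    h1.iIndep
  have h3 := indep_iSup_of_disjoint (fun i => (measurable_pi_apply i).comap_le) h2
    (S := {a}) (T := D) (by rwa [Set.disjoint_singleton_left])
  have h4 : IndepFun (fun ω : Γ → E => g (ω a)) f (Pm σ) := by
    rw [IndepFun_iff_Indep]
    refine indep_of_indep_of_le h3 ?_ ?_
    · have : Measurable[sg {a}] (fun ω : Γ → E => g (ω a)) :=
        hg.comp (eval_meas (mem_singleton a))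
      exact this.comap_le
    · exact hf.comap_le
  have h5 := h4.integral_fun_mul_eq_mul_integral
    (hg.comp (measurable_pi_apply a)).aestronglyMeasurable
    (hf.mono (sg_le _) le_rfl).aestronglyMeasurable
  rw [h5]
  congr 1
  have h6 : (Pm σ).map (fun ω : Γ → E => ω a) = σ :=
    Measure.infinitePi_map_eval (fun _ : Γ => σ) a
  conv_rhs => rw [← h6]
  rw [integral_map (measurable_pi_apply a).aemeasurable hg.aestronglyMeasurable]

lemma int_In {A : Set E} (hA : MeasurableSet A) : ∫ e, In A e ∂σ = σ.real A := by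
  have : In A = A.indicator (fun _ => (1 : ℝ)) := by
    funext e
    unfold In Set.indicator
    rfl
  rw [this, integral_indicator hA, setIntegral_const, smul_eq_mul, mul_one]

end Sec0

section Sec

variable {Γ E : Type} [Group Γ] [mE : MeasurableSpace E]

/-- weighted number of open paths of length `n` from `x` -/
noncomputable def Z (Ev : Γ → Set E) (F : Finset Γ) (w : Γ → ℝ) : ℕ → Γ → (Γ → E) → ℝ
  | 0, _, _ => 1
  | n + 1, x, ω => ∑ y ∈ F, w y * In (Ev y) (ω x) * Z Ev F w n (x * y) ω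

lemma Z_succ (Ev : Γ → Set E) (F : Finset Γ) (w : Γ → ℝ) (n : ℕ) (x : Γ) (ω : Γ → E) :
    Z Ev F w (n + 1) x ω = ∑ y ∈ F, w y * In (Ev y) (ω x) * Z Ev F w n (x * y) ω := rfl

variable (Ev : Γ → Set E) (hEv : ∀ y, MeasurableSet (Ev y)) (F : Finset Γ) (w : Γ → ℝ)

include hEv in
lemma Z_meas (D : Set Γ) (hD : ∀ z ∈ D, ∀ y ∈ F, z * y ∈ D) (n : ℕ) :
    ∀ x ∈ D, Measurable[sg D] (Z Ev F w n x) := by
  induction n with
  | zero => intro x _; exact measurable_const
  | succ n ih =>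
    intro x hx
    refine Finset.measurable_fun_sum _ fun y hy => ?_
    refine Measurable.mul (Measurable.mul measurable_const ?_) (ih _ (hD x hx y hy))
    exact (In_meas (hEv y)).comp (eval_meas hx)

include hEv in
lemma Z_meas' (n : ℕ) (x : Γ) : Measurable (Z Ev F w n x) := by
  have := Z_meas Ev hEv F w univ (fun _ _ _ _ => mem_univ _) n x (mem_univ _)
  exact this.mono (sg_le _) le_rfl

lemma Z_nonneg (hw : ∀ y ∈ F, 0 ≤ w y) (n : ℕ) : ∀ x ω, 0 ≤ Z Ev F w n x ω := by
  induction n with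
  | zero => intro x ω; exact zero_le_one
  | succ n ih =>
    intro x ω
    exact Finset.sum_nonneg fun y hy =>
      mul_nonneg (mul_nonneg (hw y hy) (In_nonneg _ _)) (ih _ _)

lemma Z_le (hw : ∀ y ∈ F, 0 ≤ w y) (n : ℕ) : ∀ x ω, Z Ev F w n x ω ≤ (∑ y ∈ F, w y) ^ n := by
  induction n with
  | zero => intro x ω; simp [Z]
  | succ n ih =>
    intro x ω
    unfold Z
    rw [pow_succ', Finset.sum_mul]
    refine Finset.sum_le_sum fun y hy => ?_
    have h1 := In_le (Ev y) (ω x)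
    have h2 := In_nonneg (Ev y) (ω x)
    have h3 := Z_nonneg Ev F w hw n (x * y) ω
    have h4 := hw y hy
    calc w y * In (Ev y) (ω x) * Z Ev F w n (x * y) ω ≤ w y * 1 * Z Ev F w n (x * y) ω := by
          gcongr
      _ ≤ _ := by rw [mul_one]; exact mul_le_mul_of_nonneg_left (ih _ _) h4

lemma Z_anti (hw : ∀ y ∈ F, 0 ≤ w y) (n : ℕ) : ∀ x ω, 0 < Z Ev F w (n + 1) x ω →
    0 < Z Ev F w n x ω := by
  induction n with
  | zero => intro x ω _; exact one_pos
  | succ n ih =>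
    intro x ω h
    unfold Z at h
    obtain ⟨y, hy, h1⟩ : ∃ y ∈ F, 0 < w y * In (Ev y) (ω x) * Z Ev F w (n + 1) (x * y) ω := by
      by_contra hcon
      push Not at hcon
      exact absurd (Finset.sum_nonpos hcon) (not_le.2 h)
    have h2 : 0 ≤ w y * In (Ev y) (ω x) := mul_nonneg (hw y hy) (In_nonneg _ _)
    have h3 : 0 < w y * In (Ev y) (ω x) := by
      rcases h2.eq_or_lt with h0 | h0
      · rw [← h0, zero_mul] at h1; exact absurd h1 (lt_irrefl _)
      · exact h0
    have h4 : 0 < Z Ev F w (n + 1) (x * y) ω := (pos_iff_pos_of_mul_pos h1).1 h3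
    have h5 := ih _ _ h4
    unfold Z
    exact lt_of_lt_of_le (mul_pos h3 h5) (Finset.single_le_sum
      (f := fun y => w y * In (Ev y) (ω x) * Z Ev F w n (x * y) ω)
      (fun y hy => mul_nonneg (mul_nonneg (hw y hy) (In_nonneg _ _)) (Z_nonneg Ev F w hw n _ _)) hy)

variable (σ : Measure E) [IsProbabilityMeasure σ]

lemma Z_integrable (hEv : ∀ y, MeasurableSet (Ev y)) (hw : ∀ y ∈ F, 0 ≤ w y) (n : ℕ) (x : Γ) :
    Integrable (Z Ev F w n x) (Pm σ) := by
  refine Integrable.of_bound (Z_meas' Ev hEv F w n x).aestronglyMeasurable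
    ((∑ y ∈ F, w y) ^ n) (Filter.Eventually.of_forall fun ω => ?_)
  rw [Real.norm_of_nonneg (Z_nonneg Ev F w hw n x ω)]
  exact Z_le Ev F w hw n x ω

lemma ZZ_integrable (hEv : ∀ y, MeasurableSet (Ev y)) (hw : ∀ y ∈ F, 0 ≤ w y) (n l : ℕ)
    (x x' : Γ) (A : Set E) (hA : MeasurableSet A) (u : Γ) :
    Integrable (fun ω => In A (ω u) * (Z Ev F w n x ω * Z Ev F w l x' ω)) (Pm σ) := by
  refine Integrable.of_bound ((((In_meas hA).comp (measurable_pi_apply u))).mul
    ((Z_meas' Ev hEv F w n x).mul (Z_meas' Ev hEv F w l x'))).aestronglyMeasurable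
    (1 * ((∑ y ∈ F, w y) ^ n * (∑ y ∈ F, w y) ^ l)) (Filter.Eventually.of_forall fun ω => ?_)
  have h0 := Z_nonneg Ev F w hw n x ω
  have h1 := Z_nonneg Ev F w hw l x' ω
  have h2 := In_nonneg A (ω u)
  have hs : 0 ≤ ∑ y ∈ F, w y := Finset.sum_nonneg hw
  show ‖In A (ω u) * (Z Ev F w n x ω * Z Ev F w l x' ω)‖ ≤ _
  rw [Real.norm_of_nonneg (by positivity)]
  refine mul_le_mul (In_le _ _) (mul_le_mul (Z_le Ev F w hw n x ω) (Z_le Ev F w hw l x' ω) h1
    (by positivity)) (by positivity) zero_le_one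

/-- the sites that can be reached from `x` -/
def Dd (P : Set Γ) (x : Γ) : Set Γ := {z | z = x ∨ x⁻¹ * z ∈ P}

section Rec

variable (hEv : ∀ y, MeasurableSet (Ev y)) {P : Set Γ} (hP1 : (1 : Γ) ∉ P)
  (hPm : ∀ a ∈ P, ∀ b ∈ P, a * b ∈ P) (hF : ∀ y ∈ F, y ∈ P) {ν : Γ → ℝ}
  (hν0 : ∀ y ∈ F, 0 ≤ ν y) (hν1 : ∑ y ∈ F, ν y = 1) (hp : ∀ y ∈ F, 0 < σ.real (Ev y))
  (hw : ∀ y, w y = ν y / σ.real (Ev y))

include hPm hF in
lemma Dd_closed (x : Γ) : ∀ z ∈ Dd P x, ∀ y ∈ F, z * y ∈ Dd P x := by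
  rintro z (rfl | hz) y hy
  · right
    rw [inv_mul_cancel_left]
    exact hF y hy
  · right
    rw [← mul_assoc]
    exact hPm _ hz _ (hF y hy)

include hν0 hp hw in
lemma w_nonneg : ∀ y ∈ F, 0 ≤ w y := fun y hy => by
  rw [hw]
  exact div_nonneg (hν0 y hy) (hp y hy).le

include hEv hP1 hPm hF hν0 hp hw in
lemma step_ne {a b : Γ} (hab : a ≠ b) (hba : b⁻¹ * a ∉ P) (n l : ℕ) :
    ∫ ω, Z Ev F w (n + 1) a ω * Z Ev F w l b ω ∂(Pm σ) =
      ∑ y ∈ F, ν y * ∫ ω, Z Ev F w n (a * y) ω * Z Ev F w l b ω ∂(Pm σ) := by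
  have hw0 := w_nonneg Ev F w σ hν0 hp hw
  have e1 : ∀ ω, Z Ev F w (n + 1) a ω * Z Ev F w l b ω = ∑ y ∈ F, w y *
      (In (Ev y) (ω a) * (Z Ev F w n (a * y) ω * Z Ev F w l b ω)) := by
    intro ω
    rw [Z_succ, Finset.sum_mul]
    refine Finset.sum_congr rfl fun y _ => by ring
  simp_rw [e1]
  rw [integral_finsetSum _ fun y _ =>
    (ZZ_integrable Ev F w σ hEv hw0 n l (a * y) b (Ev y) (hEv y) a).const_mul _]
  refine Finset.sum_congr rfl fun y hy => ?_
  rw [integral_const_mul]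
  have haD : a ∉ Dd P (a * y) ∪ Dd P b := by
    rintro ((h | h) | (h | h))
    · have : y = 1 := by simpa using h.symm
      exact hP1 (this ▸ hF y hy)
    · have h2 := hPm _ (hF y hy) _ h
      apply hP1
      simpa [mul_assoc] using h2
    · exact hab h
    · exact hba h
  have hm : Measurable[sg (Dd P (a * y) ∪ Dd P b)]
      (fun ω => Z Ev F w n (a * y) ω * Z Ev F w l b ω) := by
    refine Measurable.mul ?_ ?_
    · exact (Z_meas Ev hEv F w _ (Dd_closed F hPm hF _) n _ (Or.inl rfl)).mono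
        (sg_mono subset_union_left) le_rfl
    · exact (Z_meas Ev hEv F w _ (Dd_closed F hPm hF _) l _ (Or.inl rfl)).mono
        (sg_mono subset_union_right) le_rfl
  rw [indep_mul σ haD hm (In_meas (hEv y)), int_In σ (hEv y), ← mul_assoc, hw,
    div_mul_cancel₀ _ (hp y hy).ne']

include hEv hP1 hPm hF hν0 hp hw in
lemma step_one {a : Γ} (n : ℕ) :
    ∫ ω, Z Ev F w (n + 1) a ω ∂(Pm σ) =
      ∑ y ∈ F, ν y * ∫ ω, Z Ev F w n (a * y) ω ∂(Pm σ) := by
  have hw0 := w_nonneg Ev F w σ hν0 hp hw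
  have e1 : ∀ ω, Z Ev F w (n + 1) a ω = ∑ y ∈ F, w y *
      (In (Ev y) (ω a) * (Z Ev F w n (a * y) ω * Z Ev F w 0 a ω)) := by
    intro ω
    rw [Z_succ]
    refine Finset.sum_congr rfl fun y _ => ?_
    show _ = w y * (In (Ev y) (ω a) * (Z Ev F w n (a * y) ω * 1))
    ring
  simp_rw [e1]
  rw [integral_finsetSum _ fun y _ =>
    (ZZ_integrable Ev F w σ hEv hw0 n 0 (a * y) a (Ev y) (hEv y) a).const_mul _]
  refine Finset.sum_congr rfl fun y hy => ?_
  rw [integral_const_mul]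
  have haD : a ∉ Dd P (a * y) := by
    rintro (h | h)
    · have : y = 1 := by simpa using h.symm
      exact hP1 (this ▸ hF y hy)
    · have h2 := hPm _ (hF y hy) _ h
      apply hP1
      simpa [mul_assoc] using h2
  have e2 : ∀ ω, In (Ev y) (ω a) * (Z Ev F w n (a * y) ω * Z Ev F w 0 a ω) =
      In (Ev y) (ω a) * Z Ev F w n (a * y) ω := by
    intro ω
    show In (Ev y) (ω a) * (Z Ev F w n (a * y) ω * 1) = _
    rw [mul_one]
  simp_rw [e2]
  have hm : Measurable[sg (Dd P (a * y))] (fun ω => Z Ev F w n (a * y) ω) :=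
    Z_meas Ev hEv F w _ (Dd_closed F hPm hF _) n _ (Or.inl rfl)
  rw [indep_mul σ haD hm (In_meas (hEv y)), int_In σ (hEv y), ← mul_assoc, hw,
    div_mul_cancel₀ _ (hp y hy).ne']

include hEv hP1 hPm hF hν0 hν1 hp hw in
lemma mean_Z (n : ℕ) : ∀ a, ∫ ω, Z Ev F w n a ω ∂(Pm σ) = 1 := by
  induction n with
  | zero => intro a; simp [Z]
  | succ n ih =>
    intro a
    rw [step_one (Ev := Ev) (F := F) (w := w) (σ := σ) (hEv := hEv) (hP1 := hP1) (hPm := hPm)
      (hF := hF) (hν0 := hν0) (hp := hp) (hw := hw)]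
    simp_rw [ih, mul_one]
    exact hν1

/-- probability of two out-neighbours -/
noncomputable def p2 (y y' : Γ) : ℝ := σ.real (Ev y ∩ Ev y')

include hEv hP1 hPm hF hν0 hp hw in
lemma step_eq {a : Γ} (n l : ℕ) :
    ∫ ω, Z Ev F w (n + 1) a ω * Z Ev F w (l + 1) a ω ∂(Pm σ) =
      ∑ y ∈ F, ∑ y' ∈ F, w y * w y' * p2 Ev σ y y' *
        ∫ ω, Z Ev F w n (a * y) ω * Z Ev F w l (a * y') ω ∂(Pm σ) := by
  have hw0 := w_nonneg Ev F w σ hν0 hp hw
  have e1 : ∀ ω, Z Ev F w (n + 1) a ω * Z Ev F w (l + 1) a ω = ∑ y ∈ F, ∑ y' ∈ F, w y * w y' *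
      (In (Ev y ∩ Ev y') (ω a) * (Z Ev F w n (a * y) ω * Z Ev F w l (a * y') ω)) := by
    intro ω
    rw [Z_succ, Z_succ, Finset.sum_mul_sum]
    refine Finset.sum_congr rfl fun y _ => Finset.sum_congr rfl fun y' _ => ?_
    have : In (Ev y ∩ Ev y') (ω a) = In (Ev y) (ω a) * In (Ev y') (ω a) := by
      unfold In
      by_cases h1 : ω a ∈ Ev y <;> by_cases h2 : ω a ∈ Ev y' <;> simp [h1, h2]
    rw [this]
    ring
  simp_rw [e1]
  rw [integral_finsetSum _ fun y _ => integrable_finsetSum _ fun y' _ =>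
    (ZZ_integrable Ev F w σ hEv hw0 n l (a * y) (a * y') _ ((hEv y).inter (hEv y')) a).const_mul _]
  refine Finset.sum_congr rfl fun y hy => ?_
  rw [integral_finsetSum _ fun y' _ =>
    (ZZ_integrable Ev F w σ hEv hw0 n l (a * y) (a * y') _ ((hEv y).inter (hEv y')) a).const_mul _]
  refine Finset.sum_congr rfl fun y' hy' => ?_
  rw [integral_const_mul]
  have hne : ∀ y ∈ F, a ∉ Dd P (a * y) := by
    rintro y hy (h | h)
    · have : y = 1 := by simpa using h.symm
      exact hP1 (this ▸ hF y hy)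
    · have h2 := hPm _ (hF y hy) _ h
      apply hP1
      simpa [mul_assoc] using h2
  have haD : a ∉ Dd P (a * y) ∪ Dd P (a * y') := by
    rintro (h | h)
    · exact hne y hy h
    · exact hne y' hy' h
  have hm : Measurable[sg (Dd P (a * y) ∪ Dd P (a * y'))]
      (fun ω => Z Ev F w n (a * y) ω * Z Ev F w l (a * y') ω) := by
    refine Measurable.mul ?_ ?_
    · exact (Z_meas Ev hEv F w _ (Dd_closed F hPm hF _) n _ (Or.inl rfl)).mono
        (sg_mono subset_union_left) le_rfl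
    · exact (Z_meas Ev hEv F w _ (Dd_closed F hPm hF _) l _ (Or.inl rfl)).mono
        (sg_mono subset_union_right) le_rfl
  rw [indep_mul σ haD hm (In_meas ((hEv y).inter (hEv y'))), int_In σ ((hEv y).inter (hEv y'))]
  unfold p2
  ring

end Rec

end Sec

end Pool.Agent.K9h18.FG
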