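import Pool.Agent.K9h18.FG.Sec

set_option autoImplicit false
set_option linter.unusedSectionVars false
set_option linter.unusedVariables false

namespace Pool.Agent.K9h18.FG

open MeasureTheory ProbabilityTheory Set

section Sec2

variable {Γ E : Type} [Group Γ] [mE : MeasurableSpace E]
variable (Ev : Γ → Set E) (F : Finset Γ) (w : Γ → ℝ) (σ : Measure E) [IsProbabilityMeasure σ]

/-- correlations -/
noncomputable def Co (n l : ℕ) (a b : Γ) : ℝ := ∫ ω, Z Ev F w n a ω * Z Ev F w l b ω ∂(Pm σ)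

lemma Co_comm (n l : ℕ) (a b : Γ) : Co Ev F w σ n l a b = Co Ev F w σ l n b a := by
  unfold Co
  simp_rw [mul_comm]

variable (hEv : ∀ y, MeasurableSet (Ev y)) {P : Set Γ} (hP1 : (1 : Γ) ∉ P)
  (hPm : ∀ a ∈ P, ∀ b ∈ P, a * b ∈ P) (hF : ∀ y ∈ F, y ∈ P) {ν : Γ → ℝ}
  (hν0 : ∀ y ∈ F, 0 ≤ ν y) (hν1 : ∑ y ∈ F, ν y = 1) (hp : ∀ y ∈ F, 0 < σ.real (Ev y))
  (hw : ∀ y, w y = ν y / σ.real (Ev y))
  {m : ℕ → ℕ → Γ → Γ → ℝ} (hm0 : ∀ n l a b, 0 ≤ m n l a b)
  (hmL : ∀ n l a b, ∑ y ∈ F, ν y * m n l (a * y) b ≤ m (n + 1) l a b)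
  (hmR : ∀ n l a b, ∑ y ∈ F, ν y * m n l a (b * y) ≤ m n (l + 1) a b)
  (hmd : ∀ n l a, 1 ≤ m n l a a) {δ : ℝ}
  (hms : ∀ n l a b, m n l a b ≤ (by classical exact if a = b then 1 else 0) + δ)

include hEv hP1 hPm hF hν0 hν1 hp hw hm0 hmL hmR hmd hms in
lemma Co_bound {A0 Ad B : ℝ} (hA0 : ∑ y ∈ F, ∑ y' ∈ F, w y * w y' * p2 Ev σ y y' ≤ A0)
    (hAd : ∑ y ∈ F, w y * w y * p2 Ev σ y y ≤ Ad) (hδ : 0 ≤ δ) (h12 : δ * A0 + Ad ≤ 1 / 2)
    (hB : 2 * A0 + 1 ≤ B) (hA00 : 0 ≤ A0) (N : ℕ) : ∀ n l, n + l = N → ∀ a b,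
    Co Ev F w σ n l a b ≤ 1 + B * m n l a b ∧ Co Ev F w σ n l a a ≤ B := by
  classical
  have hw0 := w_nonneg Ev F w σ hν0 hp hw
  have hB1 : 1 ≤ B := by linarith
  have hB0 : 0 ≤ B := by linarith
  have hmean := mean_Z (Ev := Ev) (F := F) (w := w) (σ := σ) (hEv := hEv) (hP1 := hP1)
    (hPm := hPm) (hF := hF) (hν0 := hν0) (hν1 := hν1) (hp := hp) (hw := hw)
  have h0l : ∀ l a b, Co Ev F w σ 0 l a b = 1 := by
    intro l a b
    unfold Co
    have : ∀ ω, Z Ev F w 0 a ω * Z Ev F w l b ω = Z Ev F w l b ω := fun ω => one_mul _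
    simp_rw [this]
    exact hmean l b
  induction N using Nat.strong_induction_on with
  | _ N ih =>
  intro n l hnl a b
  rcases n with _ | n
  · rw [h0l, h0l]
    exact ⟨by have := mul_nonneg hB0 (hm0 0 l a b); linarith, hB1⟩
  rcases l with _ | l
  · rw [Co_comm, h0l, Co_comm, h0l]
    exact ⟨by have := mul_nonneg hB0 (hm0 (n + 1) 0 a b); linarith, hB1⟩
  have hdiag : ∀ a, Co Ev F w σ (n + 1) (l + 1) a a ≤ B := by
    intro a
    have e := step_eq (Ev := Ev) (F := F) (w := w) (σ := σ) (hEv := hEv) (hP1 := hP1)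
      (hPm := hPm) (hF := hF) (hν0 := hν0) (hp := hp) (hw := hw) (a := a) n l
    unfold Co
    rw [e]
    have hp2 : ∀ y y', 0 ≤ p2 Ev σ y y' := fun y y' => measureReal_nonneg
    calc ∑ y ∈ F, ∑ y' ∈ F, w y * w y' * p2 Ev σ y y' *
          ∫ ω, Z Ev F w n (a * y) ω * Z Ev F w l (a * y') ω ∂(Pm σ)
        ≤ ∑ y ∈ F, ∑ y' ∈ F, w y * w y' * p2 Ev σ y y' *
          (1 + B * ((if y = y' then 1 else 0) + δ)) := by
          refine Finset.sum_le_sum fun y hy => Finset.sum_le_sum fun y' hy' => ?_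
          refine mul_le_mul_of_nonneg_left ?_
            (mul_nonneg (mul_nonneg (hw0 y hy) (hw0 y' hy')) (hp2 _ _))
          refine ((ih (n + l) (by omega) n l rfl (a * y) (a * y')).1).trans ?_
          have h2 := hms n l (a * y) (a * y')
          have h3 : (if a * y = a * y' then (1 : ℝ) else 0) = if y = y' then 1 else 0 := by
            simp
          have h4 : m n l (a * y) (a * y') ≤ (if y = y' then 1 else 0) + δ := by
            rw [← h3]
            convert h2 using 2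
          have := mul_le_mul_of_nonneg_left h4 hB0
          linarith
      _ = (1 + B * δ) * (∑ y ∈ F, ∑ y' ∈ F, w y * w y' * p2 Ev σ y y') +
          B * ∑ y ∈ F, w y * w y * p2 Ev σ y y := by
          rw [Finset.mul_sum, Finset.mul_sum, ← Finset.sum_add_distrib]
          refine Finset.sum_congr rfl fun y hy => ?_
          have h5 : w y * w y * p2 Ev σ y y = ∑ y' ∈ F, w y * w y' * p2 Ev σ y y' *
              (if y = y' then 1 else 0) := by
            rw [Finset.sum_eq_single y]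
            · simp
            · intro y' _ hne
              rw [if_neg (Ne.symm hne), mul_zero]
            · intro h; exact absurd hy h
          rw [h5, Finset.mul_sum, Finset.mul_sum, ← Finset.sum_add_distrib]
          refine Finset.sum_congr rfl fun y' _ => by ring
      _ ≤ (1 + B * δ) * A0 + B * Ad := by
          have : 0 ≤ 1 + B * δ := by positivity
          gcongr
      _ = A0 + B * (δ * A0 + Ad) := by ring
      _ ≤ A0 + B * (1 / 2) := by gcongr
      _ ≤ B := by linarith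
  refine ⟨?_, hdiag a⟩
  by_cases hab : a = b
  · subst hab
    have := mul_le_mul_of_nonneg_left (hmd (n + 1) (l + 1) a) hB0
    linarith [hdiag a]
  by_cases hba : b⁻¹ * a ∈ P
  · have hba' : a⁻¹ * b ∉ P := by
      intro h
      apply hP1
      have := hPm _ hba _ h
      simpa [mul_assoc] using this
    have e := step_ne (Ev := Ev) (F := F) (w := w) (σ := σ) (hEv := hEv) (hP1 := hP1)
      (hPm := hPm) (hF := hF) (hν0 := hν0) (hp := hp) (hw := hw) (Ne.symm hab) hba' l (n + 1)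
    rw [Co_comm]
    unfold Co
    rw [e]
    calc ∑ y ∈ F, ν y * ∫ ω, Z Ev F w l (b * y) ω * Z Ev F w (n + 1) a ω ∂(Pm σ)
        ≤ ∑ y ∈ F, ν y * (1 + B * m (n + 1) l a (b * y)) := by
          refine Finset.sum_le_sum fun y hy => mul_le_mul_of_nonneg_left ?_ (hν0 y hy)
          have := (ih (n + 1 + l) (by omega) (n + 1) l rfl a (b * y)).1
          rw [Co_comm] at this
          exact this
      _ = 1 + B * ∑ y ∈ F, ν y * m (n + 1) l a (b * y) := by
          rw [Finset.mul_sum]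
          simp_rw [mul_add, mul_one]
          rw [Finset.sum_add_distrib, hν1]
          congr 1
          exact Finset.sum_congr rfl fun y _ => by ring
      _ ≤ _ := by
          have := mul_le_mul_of_nonneg_left (hmR (n + 1) l a b) hB0
          linarith
  · have e := step_ne (Ev := Ev) (F := F) (w := w) (σ := σ) (hEv := hEv) (hP1 := hP1)
      (hPm := hPm) (hF := hF) (hν0 := hν0) (hp := hp) (hw := hw) hab hba n (l + 1)
    unfold Co
    rw [e]
    calc ∑ y ∈ F, ν y * ∫ ω, Z Ev F w n (a * y) ω * Z Ev F w (l + 1) b ω ∂(Pm σ)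
        ≤ ∑ y ∈ F, ν y * (1 + B * m n (l + 1) (a * y) b) := by
          refine Finset.sum_le_sum fun y hy => mul_le_mul_of_nonneg_left ?_ (hν0 y hy)
          exact (ih (n + (l + 1)) (by omega) n (l + 1) rfl (a * y) b).1
      _ = 1 + B * ∑ y ∈ F, ν y * m n (l + 1) (a * y) b := by
          rw [Finset.mul_sum]
          simp_rw [mul_add, mul_one]
          rw [Finset.sum_add_distrib, hν1]
          congr 1
          exact Finset.sum_congr rfl fun y _ => by ring
      _ ≤ _ := by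
          have := mul_le_mul_of_nonneg_left (hmL n (l + 1) a b) hB0
          linarith

include hEv hP1 hPm hF hν0 hν1 hp hw hm0 hmL hmR hmd hms in
lemma surv_ge {A0 Ad B : ℝ} (hA0 : ∑ y ∈ F, ∑ y' ∈ F, w y * w y' * p2 Ev σ y y' ≤ A0)
    (hAd : ∑ y ∈ F, w y * w y * p2 Ev σ y y ≤ Ad) (hδ : 0 ≤ δ) (h12 : δ * A0 + Ad ≤ 1 / 2)
    (hB : 2 * A0 + 1 ≤ B) (hA00 : 0 ≤ A0) (a : Γ) (n : ℕ) :
    1 / B ≤ (Pm σ).real {ω | 0 < Z Ev F w n a ω} := by
  have hw0 := w_nonneg Ev F w σ hν0 hp hw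
  have hB1 : 1 ≤ B := by linarith
  have hB0 : 0 < B := by linarith
  have h1 := ((Co_bound (Ev := Ev) (F := F) (w := w) (σ := σ) (hEv := hEv) (hP1 := hP1)
    (hPm := hPm) (hF := hF) (hν0 := hν0) (hν1 := hν1) (hp := hp) (hw := hw) (hm0 := hm0)
    (hmL := hmL) (hmR := hmR) (hmd := hmd) (hms := hms) hA0 hAd hδ h12 hB hA00 _ n n rfl a a)).2
  have h2 := mean_Z (Ev := Ev) (F := F) (w := w) (σ := σ) (hEv := hEv) (hP1 := hP1)
    (hPm := hPm) (hF := hF) (hν0 := hν0) (hν1 := hν1) (hp := hp) (hw := hw) n a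
  have hms : MeasurableSet {ω | 0 < Z Ev F w n a ω} :=
    measurableSet_lt measurable_const (Z_meas' Ev hEv F w n a)
  have hi : ∫ ω, ({ω | 0 < Z Ev F w n a ω}.indicator (fun _ => (1 : ℝ))) ω ∂(Pm σ) =
      (Pm σ).real {ω | 0 < Z Ev F w n a ω} := by
    rw [integral_indicator hms, setIntegral_const, smul_eq_mul, mul_one]
  have hint1 : Integrable (fun ω => Z Ev F w n a ω * Z Ev F w n a ω) (Pm σ) := by
    have := ZZ_integrable Ev F w σ hEv hw0 n n a a univ MeasurableSet.univ a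
    refine this.congr (Filter.Eventually.of_forall fun ω => ?_)
    simp [In]
  have hint2 : Integrable ({ω | 0 < Z Ev F w n a ω}.indicator (fun _ => (1 : ℝ))) (Pm σ) :=
    (integrable_const _).indicator hms
  have h3 : ∫ ω, Z Ev F w n a ω ∂(Pm σ) ≤ ∫ ω, (1 / (2 * B) * (Z Ev F w n a ω * Z Ev F w n a ω) +
      B / 2 * ({ω | 0 < Z Ev F w n a ω}.indicator (fun _ => (1 : ℝ))) ω) ∂(Pm σ) := by
    refine integral_mono (Z_integrable Ev F w σ hEv hw0 n a)
      ((hint1.const_mul _).add (hint2.const_mul _)) fun ω => ?_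
    show Z Ev F w n a ω ≤ _
    have hz := Z_nonneg Ev F w hw0 n a ω
    rcases hz.eq_or_lt with h0 | h0
    · rw [← h0]
      have : 0 ≤ ({ω | 0 < Z Ev F w n a ω}.indicator (fun _ => (1 : ℝ))) ω :=
        indicator_nonneg (fun _ _ => zero_le_one) _
      positivity
    · have : ({ω | 0 < Z Ev F w n a ω}.indicator (fun _ => (1 : ℝ))) ω = 1 :=
        indicator_of_mem (by exact h0) _
      rw [this]
      have h5 : 1 / (2 * B) * (Z Ev F w n a ω * Z Ev F w n a ω) + B / 2 * 1 - Z Ev F w n a ω =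
          (Z Ev F w n a ω - B) ^ 2 / (2 * B) := by
        field_simp
        ring
      have h6 : 0 ≤ (Z Ev F w n a ω - B) ^ 2 / (2 * B) := by positivity
      linarith
  rw [h2, integral_add (hint1.const_mul _) (hint2.const_mul _), integral_const_mul,
    integral_const_mul, hi] at h3
  have h4 : 1 / (2 * B) * ∫ ω, Z Ev F w n a ω * Z Ev F w n a ω ∂(Pm σ) ≤ 1 / (2 * B) * B :=
    mul_le_mul_of_nonneg_left h1 (by positivity)
  have h5 : 1 / (2 * B) * B = 1 / 2 := by field_simp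
  rw [h5] at h4
  rw [div_le_iff₀ hB0]
  nlinarith

include hEv hP1 hPm hF hν0 hν1 hp hw hm0 hmL hmR hmd hms in
lemma surv_all {A0 Ad : ℝ} (hA0 : ∑ y ∈ F, ∑ y' ∈ F, w y * w y' * p2 Ev σ y y' ≤ A0)
    (hAd : ∑ y ∈ F, w y * w y * p2 Ev σ y y ≤ Ad) (hδ : 0 ≤ δ) (h12 : δ * A0 + Ad ≤ 1 / 2)
    (hA00 : 0 ≤ A0) (a : Γ) :
    0 < (Pm σ) {ω | ∀ n, 0 < Z Ev F w n a ω} := by
  have hw0 := w_nonneg Ev F w σ hν0 hp hw
  have h1 := surv_ge (Ev := Ev) (F := F) (w := w) (σ := σ) (hEv := hEv) (hP1 := hP1)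
    (hPm := hPm) (hF := hF) (hν0 := hν0) (hν1 := hν1) (hp := hp) (hw := hw) (hm0 := hm0)
    (hmL := hmL) (hmR := hmR) (hmd := hmd) (hms := hms) hA0 hAd hδ h12 le_rfl hA00 a
  have hset : {ω | ∀ n, 0 < Z Ev F w n a ω} = ⋂ n, {ω | 0 < Z Ev F w n a ω} := by
    ext ω; simp
  have hanti : Antitone fun n => {ω : Γ → E | 0 < Z Ev F w n a ω} :=
    antitone_nat_of_succ_le fun n ω h => Z_anti Ev F w hw0 n a ω h
  have hlim := tendsto_measure_iInter_atTop (μ := Pm σ)
    (s := fun n => {ω : Γ → E | 0 < Z Ev F w n a ω})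
    (fun n => (measurableSet_lt measurable_const (Z_meas' Ev hEv F w n a)).nullMeasurableSet)
    hanti ⟨0, measure_ne_top _ _⟩
  rw [hset]
  have hB0 : 0 < 2 * A0 + 1 := by linarith
  have hge : ENNReal.ofReal (1 / (2 * A0 + 1)) ≤ (Pm σ) (⋂ n, {ω | 0 < Z Ev F w n a ω}) := by
    refine ge_of_tendsto' hlim fun n => ?_
    show _ ≤ (Pm σ) {ω : Γ → E | 0 < Z Ev F w n a ω}
    rw [← ofReal_measureReal]
    exact ENNReal.ofReal_le_ofReal (h1 n)
  exact lt_of_lt_of_le (ENNReal.ofReal_pos.2 (by positivity)) hge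

lemma path_of_pos (hw0 : ∀ y ∈ F, 0 ≤ w y) (n : ℕ) : ∀ x ω, 0 < Z Ev F w n x ω →
    ∃ v : ℕ → Γ, v 0 = x ∧ ∀ i < n, ∃ y ∈ F, ω (v i) ∈ Ev y ∧ v (i + 1) = v i * y := by
  induction n with
  | zero => intro x ω _; exact ⟨fun _ => x, rfl, fun i hi => absurd hi (Nat.not_lt_zero _)⟩
  | succ n ih =>
    intro x ω h
    rw [Z_succ] at h
    obtain ⟨y, hy, h1⟩ : ∃ y ∈ F, 0 < w y * In (Ev y) (ω x) * Z Ev F w n (x * y) ω := by
      by_contra hcon
      push Not at hcon
      exact absurd (Finset.sum_nonpos hcon) (not_le.2 h)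
    have h2 : 0 ≤ w y * In (Ev y) (ω x) := mul_nonneg (hw0 y hy) (In_nonneg _ _)
    have h3 : 0 < w y * In (Ev y) (ω x) := by
      rcases h2.eq_or_lt with h0 | h0
      · rw [← h0, zero_mul] at h1; exact absurd h1 (lt_irrefl _)
      · exact h0
    have h4 : 0 < Z Ev F w n (x * y) ω := (pos_iff_pos_of_mul_pos h1).1 h3
    have h5 : ω x ∈ Ev y := by
      by_contra hcon
      have : In (Ev y) (ω x) = 0 := by unfold In; rw [if_neg hcon]
      rw [this, mul_zero] at h3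
      exact absurd h3 (lt_irrefl _)
    obtain ⟨v, hv0, hv⟩ := ih (x * y) ω h4
    refine ⟨fun i => Nat.casesOn i x v, rfl, fun i hi => ?_⟩
    rcases i with _ | i
    · exact ⟨y, hy, h5, hv0⟩
    · exact hv i (by omega)

lemma infinite_of_pos (hw0 : ∀ y ∈ F, 0 ≤ w y) {P : Set Γ} (hP1 : (1 : Γ) ∉ P)
    (hPm : ∀ a ∈ P, ∀ b ∈ P, a * b ∈ P) (hF : ∀ y ∈ F, y ∈ P) (ω : Γ → E) (x : Γ)
    (h : ∀ n, 0 < Z Ev F w n x ω) (R : Set Γ) (hR0 : x ∈ R)
    (hR : ∀ z ∈ R, ∀ y ∈ F, ω z ∈ Ev y → z * y ∈ R) : R.Infinite := by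
  intro hfin
  classical
  obtain ⟨v, hv0, hv⟩ := path_of_pos Ev F w hw0 _ x ω (h (hfin.toFinset.card + 1))
  have hmem : ∀ i ≤ hfin.toFinset.card + 1, v i ∈ R := by
    intro i
    induction i with
    | zero => intro _; rw [hv0]; exact hR0
    | succ i ih =>
      intro hi
      obtain ⟨y, hy, h1, h2⟩ := hv i (by omega)
      rw [h2]
      exact hR _ (ih (by omega)) y hy h1
  have hinc : ∀ i k, i + k + 1 ≤ hfin.toFinset.card + 1 → (v i)⁻¹ * v (i + k + 1) ∈ P := by
    intro i k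
    induction k with
    | zero =>
      intro hk
      obtain ⟨y, hy, h1, h2⟩ := hv i (by omega)
      rw [add_zero, h2, inv_mul_cancel_left]
      exact hF y hy
    | succ k ih =>
      intro hk
      obtain ⟨y, hy, h1, h2⟩ := hv (i + k + 1) (by omega)
      have : (v i)⁻¹ * v (i + (k + 1) + 1) = ((v i)⁻¹ * v (i + k + 1)) * y := by
        rw [show i + (k + 1) + 1 = i + k + 1 + 1 by ring, h2, mul_assoc]
      rw [this]
      exact hPm _ (ih (by omega)) _ (hF y hy)
  have hinj : Set.InjOn v (Finset.range (hfin.toFinset.card + 1) : Set ℕ) := by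
    have key : ∀ i j, i < j → j ≤ hfin.toFinset.card → v i ≠ v j := by
      intro i j hij hj he
      have := hinc i (j - i - 1) (by omega)
      rw [show i + (j - i - 1) + 1 = j by omega, ← he, inv_mul_cancel] at this
      exact hP1 this
    intro i hi j hj he
    simp only [Finset.coe_range, Set.mem_Iio] at hi hj
    rcases lt_trichotomy i j with h1 | h1 | h1
    · exact absurd he (key i j h1 (by omega))
    · exact h1
    · exact absurd he.symm (key j i h1 (by omega))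
  have hcard := Finset.card_le_card_of_injOn (s := Finset.range (hfin.toFinset.card + 1))
    (t := hfin.toFinset) v (fun i hi => by
      simp only [Finset.coe_range, Set.mem_Iio] at hi
      simp only [Set.Finite.coe_toFinset]
      exact hmem i (by omega)) hinj
  rw [Finset.card_range] at hcard
  omega

end Sec2

end Pool.Agent.K9h18.FG
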