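import Pool.Agent.K9h18.FG.Cv2
import Pool.Agent.K9h18.FG.Sec2

set_option autoImplicit false
set_option linter.unusedSectionVars false
set_option linter.unusedVariables false

namespace Pool.Agent.K9h18.FG

open MeasureTheory ProbabilityTheory Set
open scoped Pointwise

section Wlk

variable {Γ : Type} [Group Γ] {S : Finset Γ}

/-- the product of the `l` steps which start with step number `j` -/
def Wk (s : ℕ → S) (j : ℕ) : ℕ → Γ
  | 0 => 1
  | l + 1 => Wk s j l * (s (j + l) : Γ)

lemma Wk_add (s : ℕ → S) (i j l : ℕ) : Wk s i (j + l) = Wk s i j * Wk s (i + j) l := by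
  induction l with
  | zero => simp [Wk]
  | succ l ih =>
    show Wk s i (j + l) * (s (i + (j + l)) : Γ) = Wk s i j * (Wk s (i + j) l * (s (i + j + l) : Γ))
    rw [ih, mul_assoc, add_assoc]

variable [mS : MeasurableSpace S] [MeasurableSingletonClass S]

lemma ev_meas {D : Set ℕ} {n : ℕ} (hn : n ∈ D) (g : S) :
    MeasurableSet[(sg D : MeasurableSpace (ℕ → S))] {s : ℕ → S | s n = g} := by
  have e : {s : ℕ → S | s n = g} = (fun s : ℕ → S => s n) ⁻¹' {g} := by
    ext s; simp
  rw [e]
  exact eval_meas hn (measurableSet_singleton g)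

lemma ev_meas' (n : ℕ) (g : S) : MeasurableSet {s : ℕ → S | s n = g} :=
  sg_le univ _ (ev_meas (mem_univ n) g)

lemma Wk_meas (j l : ℕ) {D : Set ℕ} (hD : ∀ i, j ≤ i → i < j + l → i ∈ D) : ∀ z : Γ,
    MeasurableSet[(sg D : MeasurableSpace (ℕ → S))] {s : ℕ → S | Wk s j l = z} := by
  induction l with
  | zero =>
    intro z
    by_cases h : (1 : Γ) = z
    · have : {s : ℕ → S | Wk s j 0 = z} = univ := by ext s; simp [Wk, h]
      rw [this]; exact @MeasurableSet.univ _ (sg D)
    · have : {s : ℕ → S | Wk s j 0 = z} = ∅ := by ext s; simp [Wk, h]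
      rw [this]; exact @MeasurableSet.empty _ (sg D)
  | succ l ih =>
    intro z
    have e : {s : ℕ → S | Wk s j (l + 1) = z} =
        ⋃ g : S, {s : ℕ → S | s (j + l) = g} ∩ {s | Wk s j l = z * (g : Γ)⁻¹} := by
      ext s
      simp only [mem_ofPred_eq, mem_iUnion, mem_inter_iff]
      constructor
      · intro h
        exact ⟨s (j + l), rfl, by rw [← h]; simp [Wk]⟩
      · rintro ⟨g, h1, h2⟩
        show Wk s j l * (s (j + l) : Γ) = z
        rw [h2, h1, inv_mul_cancel_right]
    rw [e]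
    refine MeasurableSet.iUnion fun g => MeasurableSet.inter ?_ ?_
    · exact ev_meas (hD (j + l) (by omega) (by omega)) g
    · exact ih (fun i h1 h2 => hD i h1 (by omega)) _

variable (σ₁ : Measure S) [IsProbabilityMeasure σ₁]

lemma P_step {n : ℕ} {A : Set (ℕ → S)} (hA : MeasurableSet[(sg (Iio n) : MeasurableSpace (ℕ → S))] A)
    (g : S) : (Pm σ₁ : Measure (ℕ → S)).real (A ∩ {s | s n = g}) =
      (Pm σ₁ : Measure (ℕ → S)).real A * σ₁.real {g} := by
  have hA' : MeasurableSet A := sg_le _ _ hA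
  have hAm : Measurable[(sg (Iio n) : MeasurableSpace (ℕ → S))] (In A) := by
    unfold In
    exact Measurable.ite hA measurable_const measurable_const
  have h := indep_mul (σ := σ₁) (a := n) (D := Iio n) (by simp) (f := In A) hAm
    (g := In {g}) (In_meas (measurableSet_singleton g))
  rw [int_In σ₁ (measurableSet_singleton g), int_In _ hA'] at h
  have e : ∀ ω : ℕ → S, In {g} (ω n) * In A ω = In (A ∩ {s | s n = g}) ω := by
    intro ω
    unfold In
    by_cases h1 : ω n = g <;> by_cases h2 : ω ∈ A <;> simp [h1, h2]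
  simp_rw [e] at h
  rw [int_In _ (hA'.inter (ev_meas' n g))] at h
  rw [h, mul_comm]

variable {u : ℝ} (hu : ∀ g : S, σ₁.real {g} = u)

include hu in
/-- the law of the walk -/
lemma P_walk {j : ℕ} {A : Set (ℕ → S)}
    (hA : MeasurableSet[(sg (Iio j) : MeasurableSpace (ℕ → S))] A) (l : ℕ) : ∀ z : Γ,
    (Pm σ₁ : Measure (ℕ → S)).real (A ∩ {s | Wk s j l = z}) =
      (Pm σ₁ : Measure (ℕ → S)).real A * fk S (fun _ => u) l z := by
  classical
  have hA' : MeasurableSet A := sg_le _ _ hA
  induction l with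
  | zero =>
    intro z
    rw [fk_zero]
    by_cases h : z = 1
    · subst h
      have : A ∩ {s : ℕ → S | Wk s j 0 = 1} = A := by ext s; simp [Wk]
      rw [this, if_pos rfl, mul_one]
    · have : A ∩ {s : ℕ → S | Wk s j 0 = z} = ∅ := by ext s; simp [Wk, Ne.symm h]
      rw [this, if_neg h, mul_zero, measureReal_empty]
  | succ l ih =>
    intro z
    have e : A ∩ {s : ℕ → S | Wk s j (l + 1) = z} =
        ⋃ g ∈ (Finset.univ : Finset S),
          (A ∩ {s | Wk s j l = z * (g : Γ)⁻¹}) ∩ {s : ℕ → S | s (j + l) = g} := by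
      ext s
      simp only [mem_ofPred_eq, mem_iUnion, mem_inter_iff, Finset.mem_univ, exists_prop, true_and]
      constructor
      · rintro ⟨h0, h⟩
        exact ⟨s (j + l), ⟨h0, by rw [← h]; simp [Wk]⟩, rfl⟩
      · rintro ⟨g, ⟨h0, h2⟩, h1⟩
        refine ⟨h0, ?_⟩
        show Wk s j l * (s (j + l) : Γ) = z
        rw [h2, h1, inv_mul_cancel_right]
    have hm : ∀ g : S, MeasurableSet[(sg (Iio (j + l)) : MeasurableSpace (ℕ → S))]
        (A ∩ {s | Wk s j l = z * (g : Γ)⁻¹}) := fun g =>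
      MeasurableSet.inter (sg_mono (fun i hi => lt_of_lt_of_le hi (Nat.le_add_right _ _)) _ hA)
        (Wk_meas j l (fun i _ h2 => h2) _)
    rw [e, measureReal_biUnion_finset]
    · have : ∀ g : S, (Pm σ₁ : Measure (ℕ → S)).real
          ((A ∩ {s | Wk s j l = z * (g : Γ)⁻¹}) ∩ {s : ℕ → S | s (j + l) = g}) =
          (Pm σ₁ : Measure (ℕ → S)).real A * (u * fk S (fun _ => u) l (z * (g : Γ)⁻¹)) := by
        intro g
        rw [P_step σ₁ (hm g), hu, ih]
        ring
      rw [Finset.sum_congr rfl fun g _ => this g, ← Finset.mul_sum, fk_succR]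
      congr 1
      exact Finset.sum_coe_sort S (fun g => u * fk S (fun _ => u) l (z * g⁻¹))
    · intro g _ g' _ hgg
      refine Set.disjoint_left.2 fun s h1 h2 => hgg ?_
      exact h1.2.symm.trans h2.2
    · intro g _
      exact (sg_le _ _ (hm g)).inter (ev_meas' _ g)

/-- hitting probability of `y` by the first `n` steps -/
noncomputable def hit (n : ℕ) (y : Γ) : ℝ :=
  (Pm σ₁ : Measure (ℕ → S)).real {s | ∃ j ≤ n, Wk s 0 j = y}

lemma hit_meas (n : ℕ) (y : Γ) : MeasurableSet {s : ℕ → S | ∃ j ≤ n, Wk s 0 j = y} := by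
  have : {s : ℕ → S | ∃ j ≤ n, Wk s 0 j = y} = ⋃ j ∈ Iic n, {s : ℕ → S | Wk s 0 j = y} := by
    ext s; simp
  rw [this]
  refine MeasurableSet.biUnion (to_countable _) fun j _ => ?_
  exact sg_le univ _ (Wk_meas 0 j (fun _ _ _ => mem_univ _) y)

include hu in
lemma P_X (n : ℕ) (y : Γ) : (Pm σ₁ : Measure (ℕ → S)).real {s | Wk s 0 n = y} =
    fk S (fun _ => u) n y := by
  have := P_walk σ₁ hu (j := 0) (A := univ) MeasurableSet.univ n y
  rw [univ_inter] at this
  rw [this]
  simp

include hu in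
lemma hit_ge (n : ℕ) {j : ℕ} (hj : j ≤ n) (y : Γ) : fk S (fun _ => u) j y ≤ hit σ₁ n y := by
  rw [← P_X σ₁ hu]
  exact measureReal_mono (fun s hs => ⟨j, hj, hs⟩) (measure_ne_top _ _)

include hu in
/-- first passage decomposition -/
theorem hit_green {G : ℝ} (hu0 : 0 ≤ u) (hG : ∀ N, ∑ n ∈ Finset.range N, fk S (fun _ => u) n (1 : Γ) ≤ G)
    (L : ℕ) (y : Γ) :
    ∑ n ∈ Finset.Ico L (2 * L), fk S (fun _ => u) n y ≤ G * hit σ₁ (2 * L) y := by
  classical
  set A : ℕ → Set (ℕ → S) := fun j => {s | Wk s 0 j = y ∧ ∀ i, L ≤ i → i < j → Wk s 0 i ≠ y}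
    with hA
  have hAm : ∀ j, MeasurableSet[(sg (Iio j) : MeasurableSpace (ℕ → S))] (A j) := by
    intro j
    have : A j = {s : ℕ → S | Wk s 0 j = y} ∩ ⋂ i ∈ {i | L ≤ i ∧ i < j},
        {s : ℕ → S | Wk s 0 i = y}ᶜ := by
      ext s
      simp [hA]
    rw [this]
    refine MeasurableSet.inter (Wk_meas 0 j (fun i _ h => by simpa using h) y) ?_
    refine MeasurableSet.biInter (to_countable _) fun i hi => ?_
    refine MeasurableSet.compl (Wk_meas 0 i (fun k _ h => ?_) y)
    have h2 : k < i := by simpa using h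
    exact lt_trans h2 hi.2
  have hAj : ∀ j n, j ≤ n → (Pm σ₁ : Measure (ℕ → S)).real (A j ∩ {s | Wk s 0 n = y}) =
      (Pm σ₁ : Measure (ℕ → S)).real (A j) * fk S (fun _ => u) (n - j) (1 : Γ) := by
    intro j n hjn
    rw [← P_walk σ₁ hu (hAm j)]
    congr 1
    ext s
    simp only [mem_inter_iff, mem_ofPred_eq]
    have e : Wk s 0 n = Wk s 0 j * Wk s j (n - j) := by
      have := Wk_add s 0 j (n - j)
      rw [zero_add, show j + (n - j) = n by omega] at this
      exact this
    constructor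
    · rintro ⟨h1, h2⟩
      refine ⟨h1, ?_⟩
      rw [e, h1.1] at h2
      simpa using h2
    · rintro ⟨h1, h2⟩
      refine ⟨h1, ?_⟩
      rw [e, h1.1, h2, mul_one]
  have h1 : ∀ n ∈ Finset.Ico L (2 * L), fk S (fun _ => u) n y ≤
      ∑ j ∈ Finset.Ico L (2 * L), (Pm σ₁ : Measure (ℕ → S)).real (A j) *
        (if j ≤ n then fk S (fun _ => u) (n - j) (1 : Γ) else 0) := by
    intro n hn
    rw [Finset.mem_Ico] at hn
    rw [← P_X σ₁ hu]
    have hcov : {s : ℕ → S | Wk s 0 n = y} ⊆
        ⋃ j ∈ Finset.Ico L (n + 1), (A j ∩ {s | Wk s 0 n = y}) := by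
      intro s hs
      have hex : ∃ i, L ≤ i ∧ Wk s 0 i = y := ⟨n, hn.1, hs⟩
      have hf := Nat.find_spec hex
      have hfn : Nat.find hex ≤ n := Nat.find_min' hex ⟨hn.1, hs⟩
      simp only [mem_iUnion, exists_prop]
      refine ⟨Nat.find hex, Finset.mem_Ico.2 ⟨hf.1, by omega⟩, ⟨hf.2, fun i hi1 hi2 hi3 => ?_⟩, hs⟩
      exact Nat.find_min hex hi2 ⟨hi1, hi3⟩
    calc (Pm σ₁ : Measure (ℕ → S)).real {s | Wk s 0 n = y}
        ≤ (Pm σ₁ : Measure (ℕ → S)).real
          (⋃ j ∈ Finset.Ico L (n + 1), (A j ∩ {s | Wk s 0 n = y})) :=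
            measureReal_mono hcov (measure_ne_top _ _)
      _ ≤ ∑ j ∈ Finset.Ico L (n + 1), (Pm σ₁ : Measure (ℕ → S)).real
          (A j ∩ {s | Wk s 0 n = y}) := measureReal_biUnion_finset_le _ _
      _ = ∑ j ∈ Finset.Ico L (n + 1), (Pm σ₁ : Measure (ℕ → S)).real (A j) *
        (if j ≤ n then fk S (fun _ => u) (n - j) (1 : Γ) else 0) := by
          refine Finset.sum_congr rfl fun j hj => ?_
          rw [Finset.mem_Ico] at hj
          rw [if_pos (by omega), hAj j n (by omega)]
      _ ≤ _ := by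
          refine Finset.sum_le_sum_of_subset_of_nonneg (fun j hj => ?_) fun j _ _ => ?_
          · rw [Finset.mem_Ico] at hj ⊢
            omega
          · refine mul_nonneg measureReal_nonneg ?_
            split_ifs
            · exact fk_nonneg _ _ (fun _ _ => hu0) _ _
            · exact le_rfl
  calc ∑ n ∈ Finset.Ico L (2 * L), fk S (fun _ => u) n y
      ≤ ∑ n ∈ Finset.Ico L (2 * L), ∑ j ∈ Finset.Ico L (2 * L),
        (Pm σ₁ : Measure (ℕ → S)).real (A j) *
        (if j ≤ n then fk S (fun _ => u) (n - j) (1 : Γ) else 0) := Finset.sum_le_sum h1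
    _ = ∑ j ∈ Finset.Ico L (2 * L), (Pm σ₁ : Measure (ℕ → S)).real (A j) *
        ∑ n ∈ Finset.Ico L (2 * L), (if j ≤ n then fk S (fun _ => u) (n - j) (1 : Γ) else 0) := by
        rw [Finset.sum_comm]
        exact Finset.sum_congr rfl fun j _ => by rw [Finset.mul_sum]
    _ ≤ ∑ j ∈ Finset.Ico L (2 * L), (Pm σ₁ : Measure (ℕ → S)).real (A j) * G := by
        refine Finset.sum_le_sum fun j hj => mul_le_mul_of_nonneg_left ?_ measureReal_nonneg
        rw [← Finset.sum_filter]
        refine le_trans ?_ (hG (2 * L))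
        have hinj : Set.InjOn (fun n => n - j)
            ((Finset.Ico L (2 * L)).filter (fun n => j ≤ n) : Set ℕ) := by
          intro a ha b hb hab
          simp only [Finset.coe_filter, mem_ofPred_eq] at ha hb
          have : a - j = b - j := hab
          omega
        rw [← Finset.sum_image (f := fun k => fk S (fun _ => u) k (1 : Γ)) hinj]
        refine Finset.sum_le_sum_of_subset_of_nonneg (fun k hk => ?_)
          fun k _ _ => fk_nonneg _ _ (fun _ _ => hu0) _ _
        rw [Finset.mem_image] at hk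
        obtain ⟨n, hn, rfl⟩ := hk
        rw [Finset.mem_filter, Finset.mem_Ico] at hn
        rw [Finset.mem_range]
        show n - j < 2 * L
        omega
    _ = G * ∑ j ∈ Finset.Ico L (2 * L), (Pm σ₁ : Measure (ℕ → S)).real (A j) := by
        rw [← Finset.sum_mul, mul_comm]
    _ ≤ G * hit σ₁ (2 * L) y := by
        have hG0 : 0 ≤ G := le_trans (by simp) (hG 0)
        refine mul_le_mul_of_nonneg_left ?_ hG0
        rw [← measureReal_biUnion_finset]
        · refine measureReal_mono ?_ (measure_ne_top _ _)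
          intro s hs
          simp only [mem_iUnion, exists_prop] at hs
          obtain ⟨j, hj, hs⟩ := hs
          rw [Finset.mem_Ico] at hj
          exact ⟨j, by omega, hs.1⟩
        · intro i hi j hj hij
          refine Set.disjoint_left.2 fun s h1 h2 => ?_
          simp only [Finset.coe_Ico, mem_Ico] at hi hj
          rcases lt_or_gt_of_ne hij with h | h
          · exact h2.2 i hi.1 h h1.1
          · exact h1.2 j hj.1 h h2.1
        · intro j _
          exact sg_le _ _ (hAm j)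

end Wlk

end Pool.Agent.K9h18.FG
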